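import Pool.Agent.H84.SG.Crt
import Pool.Agent.H73.SG.Main

/-!
# SHARP SMOOTHED FATOU: the random part with its consequences (helper84): `Pool.Agent.H41.SX.GsMain`
-/

set_option autoImplicit false

open Finset MeasureTheory

namespace Pool.Agent.H84.SG

open Pool.H70.SF Pool.Agent.H73.ES
open Pool.Agent.H73.SG (PatK CdK bdK sg_main)
open Pool.Agent.H47.SF (nuF Wc deriv_Wc_zero_jv f2 tra tra' grid om_eq)
open Pool.Agent.H41.RF (TT norm_prod_al TT_quad gd Trv om_TT)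

section

variable {n d : ℕ} {κ κl E : ℝ} {X : CV d} {c : ℂ × ℂ}

/-- transversality in one of three directions -/
theorem trq2 (S : Num n d κ κl E) (hG : GG ((d : ℝ) ^ κ) X) (hc : IsU c)
    (hX : (∀ L, 1 ≤ L → L ≤ (n + 1) + 1 → ∑ l ∈ range L, beE X c l ≤ (L : ℝ) / 2 - E / 4 ∧
      ∑ l ∈ range L, beE X c l ≤ 1 / E + 2 ∧ beE X c (L - 1) ≤ 1 - E / 4) ∨
    ∀ L, L ≤ (n + 1) + 1 → ∑ l ∈ range L, beE X c l + DE X c 2 1 ≤ 1 - E / 4) {n1 : ℕ}
    (hn1 : 1 ≤ n1) (hn : n1 ≤ n) : ∃ j : Fin 3, (d : ℝ)⁻¹ ≤ ‖TT (e3 j) X c n1‖ := by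
  have hb : ∀ l ≤ n + 1, beE X c l ≤ 1 - E / 4 := fun l hl => be_all hX hl
  have hd0 : (0 : ℝ) < d := by
    have := d_one S.d2
    linarith
  have hpos : ∀ u, IsU u → 0 < nn (FF X u) := fun u hu =>
    lt_of_lt_of_le (by positivity) (hG u hu).1
  have hU : ∀ l, IsU (ob X c l) := fun l => pt_unit hpos hc (l + 1)
  have hE := S.E0
  have hcard : ∀ a, ((n1 + 1 - a : ℕ) : ℝ) ≤ n + 1 := by
    intro a
    exact_mod_cast (by omega : n1 + 1 - a ≤ n + 1)
  have h10d : (10 : ℝ) ≤ d := by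
    refine S.h10.trans ?_
    calc (d : ℝ) ^ (E / 4) ≤ (d : ℝ) ^ (1 : ℝ) := rp_mono S.d2 (by linarith [S.E1])
      _ = d := Real.rpow_one _
  rcases hX with h | h
  · have htr := tra' (fun l => ob X c l) hU (fun l => ∏ j ∈ range l, al X c j) (by simp)
      (n := n1) (by
        have h1 : ∑ l ∈ Ico 1 (n1 + 1), ‖∏ j ∈ range l, al X c j‖⁻¹ ≤
            ∑ _l ∈ Ico 1 (n1 + 1), (d : ℝ) ^ (-(E / 8)) := by
          refine sum_le_sum fun l hl => ?_
          rw [mem_Ico] at hl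
          rw [norm_prod_al, Real.rpow_neg hd0.le]
          refine inv_anti₀ (rp_pos S.d2 _) ?_
          refine (rp_mono S.d2 ?_).trans (ph_lo S hG hc hb (k := l) (by omega))
          have h2 := (h l hl.1 (by omega)).1
          have h3 := kκ_le S (k := l) (by omega)
          linarith
        refine h1.trans ?_
        rw [sum_const, Nat.card_Ico, nsmul_eq_mul, Nat.add_sub_cancel]
        have h4 : ((n1 : ℕ) : ℝ) ≤ n := by exact_mod_cast hn
        have h5 := rp_pos S.d2 (E / 8)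
        rw [Real.rpow_neg hd0.le, ← div_eq_mul_inv, div_le_iff₀ h5]
        have := S.hn
        linarith)
    obtain ⟨j, hj⟩ := htr
    refine ⟨j, le_trans ?_ hj⟩
    rw [inv_le_comm₀ hd0 (by norm_num)]
    rw [one_div, inv_inv]
    exact h10d
  · have hDD : (d : ℝ) ^ (-DE X c 2 1) ≤ ‖wd (ob X c 0) (ob X c 1)‖ := by
      have h0 := h 0 (by omega)
      rw [sum_range_zero, zero_add] at h0
      have h1 := cl_lo S.d2 (norm_nonneg (wd (pt X c 2) (pt X c 1))) (m := 2)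
        (show DE X c 2 1 < 2 by linarith)
      rw [Pool.Agent.H47.SF.wd_comm (pt X c 2)] at h1
      have e1 : ‖wd (ob X c 0) (ob X c 1)‖ = ‖wd (pt X c 1) (pt X c 2)‖ := rfl
      rw [e1]
      refine le_trans (le_of_eq ?_) h1
      unfold DE
      rw [Pool.Agent.H47.SF.wd_comm (pt X c 2)]
    have htr := tra (fun l => ob X c l) hU (fun l => ∏ j ∈ range l, al X c j) (by simp)
      (n := n1) hn1 (by
        have h1 : ∑ l ∈ Ico 2 (n1 + 1), ‖∏ j ∈ range l, al X c j‖⁻¹ ≤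
            ∑ _l ∈ Ico 2 (n1 + 1), (d : ℝ) ^ (-(E / 8)) * (d : ℝ) ^ (-DE X c 2 1) := by
          refine sum_le_sum fun l hl => ?_
          rw [mem_Ico] at hl
          rw [norm_prod_al, rp_add S.d2]
          have e2 : -(E / 8) + -DE X c 2 1 = -(E / 8 + DE X c 2 1) := by ring
          rw [e2, Real.rpow_neg hd0.le]
          refine inv_anti₀ (rp_pos S.d2 _) ?_
          refine (rp_mono S.d2 ?_).trans (ph_lo S hG hc hb (k := l) (by omega))
          have h2 := h l (by omega)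
          have h3 := kκ_le S (k := l) (by omega)
          have h4 : (2 : ℝ) ≤ l := by exact_mod_cast hl.1
          linarith
        refine h1.trans ?_
        rw [sum_const, Nat.card_Ico, nsmul_eq_mul]
        have h4 : ((n1 + 1 - 2 : ℕ) : ℝ) ≤ n := by exact_mod_cast (by omega : n1 + 1 - 2 ≤ n)
        have h5 := rp_pos S.d2 (E / 8)
        have h6 := rp_pos S.d2 (-DE X c 2 1)
        have h7 : ((n1 + 1 - 2 : ℕ) : ℝ) * (d : ℝ) ^ (-(E / 8)) ≤ 1 / 2 := by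
          rw [Real.rpow_neg hd0.le, ← div_eq_mul_inv, div_le_iff₀ h5]
          have := S.hn
          linarith
        calc ((n1 + 1 - 2 : ℕ) : ℝ) * ((d : ℝ) ^ (-(E / 8)) * (d : ℝ) ^ (-DE X c 2 1)) =
              ((n1 + 1 - 2 : ℕ) : ℝ) * (d : ℝ) ^ (-(E / 8)) * (d : ℝ) ^ (-DE X c 2 1) := by ring
          _ ≤ 1 / 2 * (d : ℝ) ^ (-DE X c 2 1) := mul_le_mul_of_nonneg_right h7 h6.le
          _ ≤ ‖wd (ob X c 0) (ob X c 1)‖ / 2 := by linarith)
    obtain ⟨j, hj⟩ := htr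
    refine ⟨j, le_trans ?_ hj⟩
    have h0 := h 0 (by omega)
    rw [sum_range_zero, zero_add] at h0
    have h8 : (d : ℝ)⁻¹ * 10 ≤ (d : ℝ) ^ (-DE X c 2 1) := by
      calc (d : ℝ)⁻¹ * 10 ≤ (d : ℝ) ^ (-1 : ℝ) * (d : ℝ) ^ (E / 4) := by
            rw [Real.rpow_neg_one]
            exact mul_le_mul_of_nonneg_left S.h10 (by positivity)
        _ = (d : ℝ) ^ (-1 + E / 4) := by rw [rp_add S.d2]
        _ ≤ (d : ℝ) ^ (-DE X c 2 1) := rp_mono S.d2 (by linarith)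
    show (d : ℝ)⁻¹ ≤ ‖wd (ob X c 0) (ob X c 1)‖ / 10
    linarith

/-- one direction of the grid, finitely many points -/
theorem dir2 (hd : 3001 ≤ d) {n1 : ℕ}
    (hT : ∀ c, IsU c → JJ X c = 0 → ∃ j : Fin 3, (d : ℝ)⁻¹ ≤ ‖TT (e3 j) X c n1‖)
    (C : Finset (ℂ × ℂ)) (hC : C.card ≤ 2 * d) :
    ∃ i ≤ 8 * d, ∀ c ∈ C, IsU c → JJ X c = 0 → ((d : ℝ) ^ 4)⁻¹ < ‖TT (gd d i) X c n1‖ := by
  classical
  have hd1 : 1 ≤ d := by omega
  have hD0 : (0 : ℝ) < d := by exact_mod_cast (by omega : 0 < d)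
  have hbad : ∀ c ∈ C, IsU c → JJ X c = 0 →
      ((range (8 * d + 1)).filter fun i => ‖TT (gd d i) X c n1‖ ≤ ((d : ℝ) ^ 4)⁻¹).card ≤ 2 := by
    intro c _ hc hJ
    obtain ⟨al', be, ga, hq⟩ := TT_quad X c n1
    obtain ⟨j, hj⟩ := hT c hc hJ
    have hth : 0 < (d : ℝ)⁻¹ / 3 := by positivity
    have h3 : (d : ℝ)⁻¹ / 3 ≤ ‖al'‖ ∨ (d : ℝ)⁻¹ / 3 ≤ ‖be‖ ∨ (d : ℝ)⁻¹ / 3 ≤ ‖ga‖ := by
      by_contra hcon
      rw [not_or, not_or, not_le, not_le, not_le] at hcon
      obtain ⟨h4, h5, h6⟩ := hcon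
      have h7 : ‖TT (e3 j) X c n1‖ < (d : ℝ)⁻¹ := by
        fin_cases j
        · show ‖TT (1, 0) X c n1‖ < _
          rw [hq]
          simp only [one_pow, mul_one, mul_zero, add_zero, ne_eq, OfNat.ofNat_ne_zero, not_false_eq_true,
            zero_pow]
          linarith
        · show ‖TT (0, 1) X c n1‖ < _
          rw [hq]
          simp only [one_pow, mul_one, mul_zero, add_zero, ne_eq, OfNat.ofNat_ne_zero, not_false_eq_true,
            zero_pow, zero_add]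
          linarith
        · show ‖TT (1, 1) X c n1‖ < _
          rw [hq]
          simp only [one_pow, mul_one]
          have := norm_add₃_le (a := al') (b := be) (c := ga)
          linarith
      exact absurd hj (not_le.2 h7)
    refine grid hd1 hth h3 (fun i hi => ?_) (fun i hi => ?_)
    · rw [mem_filter] at hi
      have h8 := hi.2
      unfold gd at h8
      rw [hq] at h8
      have h9 : al' + be * ((i : ℂ) / (8 * d)) + ga * ((i : ℂ) / (8 * d)) ^ 2 =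
          al' * 1 ^ 2 + be * (1 * ((i : ℂ) / (8 * d))) + ga * ((i : ℂ) / (8 * d)) ^ 2 := by ring
      rw [h9]
      refine lt_of_le_of_lt h8 ?_
      have h10 : (3001 : ℝ) ≤ d := by exact_mod_cast hd
      rw [div_div, ← one_div, ← one_div, div_div, div_lt_div_iff₀ (by positivity) (by positivity)]
      have h11 : 0 < (d : ℝ) ^ 3 := by positivity
      nlinarith
    · rw [mem_filter, mem_range] at hi
      omega
  set C' := C.filter fun c => IsU c ∧ JJ X c = 0 with hC'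
  set B := C'.biUnion fun c =>
    (range (8 * d + 1)).filter fun i => ‖TT (gd d i) X c n1‖ ≤ ((d : ℝ) ^ 4)⁻¹ with hB
  have h1 : B.card < (range (8 * d + 1)).card := by
    rw [card_range]
    have h2 : B.card ≤ C'.card * 2 := card_biUnion_le_card_mul _ _ _ fun c hc => by
      rw [hC', mem_filter] at hc
      exact hbad c hc.1 hc.2.1 hc.2.2
    have h3 : C'.card ≤ C.card := card_filter_le _ _
    omega
  obtain ⟨i, hi, hiB⟩ := exists_mem_notMem_of_card_lt_card h1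
  rw [mem_range] at hi
  refine ⟨i, by omega, fun c hc hU hJ => ?_⟩
  by_contra hcon
  apply hiB
  rw [hB, mem_biUnion]
  exact ⟨c, by rw [hC', mem_filter]; exact ⟨hc, hU, hJ⟩, by
    rw [mem_filter, mem_range]; exact ⟨hi, not_lt.1 hcon⟩⟩

/-- one direction of the grid is good for all critical points -/
theorem trv_dir2 (hd : 3001 ≤ d) {n1 : ℕ}
    (hal : ∀ c, IsU c → JJ X c = 0 → ∀ l ≤ n1, al X c l ≠ 0)
    (hT : ∀ c, IsU c → JJ X c = 0 → ∃ j : Fin 3, (d : ℝ)⁻¹ ≤ ‖TT (e3 j) X c n1‖) :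
    ∃ i ≤ 8 * d, Trv (gd d i) n1 X := by
  by_cases hne : ∃ u, JJ X u ≠ 0
  · obtain ⟨C, hC1, hC2, hC3⟩ := crit_finite (by omega) X hne
    obtain ⟨i, hi, h⟩ := dir2 hd hT C hC1
    refine ⟨i, hi, fun c hc hJ => ?_⟩
    obtain ⟨c', hc', z, hz, rfl⟩ := hC3 c hc hJ
    have hJ' : JJ X c' = 0 := by
      rw [Pool.H70.SF.JJ_smul] at hJ
      have hz0 : z ≠ 0 := by
        rintro rfl
        simp at hz
      exact (mul_eq_zero.1 hJ).resolve_left (by positivity)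
    have hd1 : 1 ≤ d := by omega
    rw [Ph_smul X hz, norm_om_smul hd1 (gd d i) X hz,
      om_TT _ _ _ _ fun l hl => hal c' (hC2 c' hc') hJ' l (by omega), mul_comm]
    have hP : 0 < Ph X c' n1 := prod_pos fun l hl => norm_pos_iff.2
      (hal c' (hC2 c' hc') hJ' l (by have := mem_range.1 hl; omega))
    exact mul_lt_mul_of_pos_left (h c' hc' (hC2 c' hc') hJ') hP
  · exfalso
    push Not at hne
    have h1 : IsU ((1, 0) : ℂ × ℂ) := by
      unfold IsU n2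
      simp
    have h3 := hal _ h1 (hne _) 0 (Nat.zero_le _)
    apply h3
    unfold al aa
    rw [hne, zero_div]

theorem gs_of (S : Num n d κ κl E) (hG : GG ((d : ℝ) ^ κ) X)
    (hX : ∀ c, IsU c → JJ X c = 0 → ∀ p : PatK, p.ok → ∀ T ≤ (n + 1) + 1, CdK X c p T →
      -1 + (2 * E) / 2 ≤ bdK p T) : Pool.Agent.H41.SX.GS n (E ^ 2 / 96) X := by
  have hd0 : (0 : ℝ) < d := by
    have := d_one S.d2
    linarith
  have hpos : ∀ u, IsU u → 0 < nn (FF X u) := fun u hu =>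
    lt_of_lt_of_le (by positivity) (hG u hu).1
  have hE := S.E0
  have hE1 := S.E1
  have hκ1 : κ ≤ 1 / 100 := by
    have h1 := S.κe
    have : E ^ 2 ≤ 1 / 20 := by nlinarith
    linarith
  refine ⟨fun c hc hJ => ?_, fun c hc hJ l hl => ?_, fun c hc hJ k hk2 hk => ?_⟩
  · obtain ⟨-, hth⟩ := crt_growth S hG hc hJ (hX c hc hJ)
    have hd2 := S.d2
    unfold f2
    rw [deriv_Wc_zero_jv (by omega) X hc, norm_mul, Complex.norm_ofNat]
    have hN := hpos c hc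
    have h1 := V_lo S.d2 (mul_pos hd0 hN) (by positivity : 0 ≤ 2 * ‖wd (FF X c) (jv X c 2)‖)
      (show thE X c < 1 by linarith)
    have e2 : n2 (FF X c) = nn (FF X c) ^ 2 := by
      unfold nn
      rw [Real.sq_sqrt]
      unfold n2
      positivity
    rw [e2, le_div_iff₀ (by positivity), one_mul]
    refine le_trans ?_ h1
    have h2 := (hG c hc).2
    have h3 : (d : ℝ) ^ κ ≤ (d : ℝ) ^ (-thE X c) * d := by
      nth_rewrite 3 [← Real.rpow_one (d : ℝ)]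
      rw [rp_add S.d2]
      exact rp_mono S.d2 (by linarith)
    calc nn (FF X c) ^ 2 = nn (FF X c) * nn (FF X c) := by ring
      _ ≤ ((d : ℝ) ^ (-thE X c) * d) * nn (FF X c) :=
          mul_le_mul_of_nonneg_right (h2.trans h3) hN.le
      _ = _ := by
          unfold thE
          ring
  · obtain ⟨hgr, -⟩ := crt_growth S hG hc hJ (hX c hc hJ)
    have hb := be_all hgr (l := l) (by omega)
    refine le_trans ?_ (al_lo S hG hc (l := l) (by linarith))
    rw [← Real.rpow_neg_one]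
    exact rp_mono S.d2 (by linarith)
  · obtain ⟨hgr, -⟩ := crt_growth S hG hc hJ (hX c hc hJ)
    obtain ⟨h1, h2⟩ := be_sum hE hgr hk2 (by omega)
    have h3 := lin_num hE hE1 S.κe h1 h2
    refine (rp_mono S.d2 ?_).trans (ph_lo S hG hc (fun l hl => be_all hgr hl) (by omega))
    exact h3

theorem trv_of (S : Num n d κ κl E) (hd : 3001 ≤ d) (hG : GG ((d : ℝ) ^ κ) X)
    (hX : ∀ c, IsU c → JJ X c = 0 → ∀ p : PatK, p.ok → ∀ T ≤ (n + 1) + 1, CdK X c p T →
      -1 + (2 * E) / 2 ≤ bdK p T) {n1 : ℕ} (hn1 : 1 ≤ n1) (hn : n1 ≤ n) :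
    ∃ i ≤ 8 * d, Trv (gd d i) n1 X := by
  have hd0 : (0 : ℝ) < d := by
    have := d_one S.d2
    linarith
  have hpos : ∀ u, IsU u → 0 < nn (FF X u) := fun u hu =>
    lt_of_lt_of_le (by positivity) (hG u hu).1
  refine trv_dir2 hd ?_ ?_
  · intro c hc hJ l hl
    obtain ⟨hgr, -⟩ := crt_growth S hG hc hJ (hX c hc hJ)
    have hb := be_all hgr (l := l) (by omega)
    have hE := S.E0
    have h1 := al_lo S hG hc (l := l) (by linarith)
    exact norm_pos_iff.1 (lt_of_lt_of_le (rp_pos S.d2 _) h1)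
  · intro c hc hJ
    obtain ⟨hgr, -⟩ := crt_growth S hG hc hJ (hX c hc hJ)
    exact trq2 S hG hc hgr hn1 hn

end

/-- **the random part of the sharp form with its consequences for the critical orbits** -/
theorem gsMain : Pool.Agent.H41.SX.GsMain := by
  intro ε hε
  obtain ⟨ε1, hε1⟩ : ∃ ε1 : ℝ, ε1 = min ε (1 / 10) := ⟨_, rfl⟩
  have hε1p : 0 < ε1 := by
    rw [hε1]
    exact lt_min hε (by norm_num)
  have hε1le : ε1 ≤ 1 / 10 := by
    rw [hε1]
    exact min_le_right _ _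
  have hε1ε : ε1 ≤ ε := by
    rw [hε1]
    exact min_le_left _ _
  obtain ⟨E, hE⟩ : ∃ E : ℝ, E = ε1 / 2 := ⟨_, rfl⟩
  have hE0 : 0 < E := by
    rw [hE]
    positivity
  have hE1 : E ≤ 1 / 20 := by linarith
  refine ⟨E ^ 2 / 96, by positivity, fun n => ?_⟩
  obtain ⟨κm, hκm, hsg⟩ := sg_main (n + 1) hε1p hε1le
  obtain ⟨κl, hκl⟩ : ∃ κl : ℝ, κl = E / (10000 * (((n + 1 : ℕ) : ℝ) + 3) ^ 2) := ⟨_, rfl⟩
  have hκl0 : 0 < κl := by
    rw [hκl]
    positivity
  have hκlE : 10000 * ((((n + 1 : ℕ) : ℝ) + 3) ^ 2 * κl) ≤ E := by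
    rw [hκl]
    refine le_of_eq ?_
    field_simp
  obtain ⟨κ1, hκ1⟩ : ∃ κ1 : ℝ, κ1 = min (min κm (κl / 2)) (min (E ^ 2 / 96) (E / (8 * ((n : ℝ) + 1)))) :=
    ⟨_, rfl⟩
  have hκ10 : 0 < κ1 := by
    rw [hκ1]
    exact lt_min (lt_min hκm (by positivity)) (lt_min (by positivity) (by positivity))
  refine ⟨κ1, hκ10, fun κ hκ hκκ => ?_⟩
  have k1 : κ ≤ κm := hκκ.trans (by rw [hκ1]; exact (min_le_left _ _).trans (min_le_left _ _))
  have k2 : κ ≤ κl / 2 := hκκ.trans (by rw [hκ1]; exact (min_le_left _ _).trans (min_le_right _ _))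
  have k3 : κ ≤ E ^ 2 / 96 :=
    hκκ.trans (by rw [hκ1]; exact (min_le_right _ _).trans (min_le_left _ _))
  have k4 : κ ≤ E / (8 * ((n : ℝ) + 1)) :=
    hκκ.trans (by rw [hκ1]; exact (min_le_right _ _).trans (min_le_right _ _))
  have k5 : ((n : ℝ) + 1) * κ ≤ E / 8 := by
    have hn0 : (0 : ℝ) < 8 * ((n : ℝ) + 1) := by positivity
    rw [le_div_iff₀ hn0] at k4
    linarith
  obtain ⟨d0, hd0⟩ := hsg κ hκ k1
  have hev : ∀ (a b : ℝ), 0 < a → ∃ d1 : ℕ, ∀ d : ℕ, d1 ≤ d → b ≤ (d : ℝ) ^ a := by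
    intro a b ha
    have h1 : Filter.Tendsto (fun d : ℕ => (d : ℝ) ^ a) Filter.atTop Filter.atTop :=
      (tendsto_rpow_atTop ha).comp tendsto_natCast_atTop_atTop
    exact Filter.eventually_atTop.1 (h1.eventually_ge_atTop _)
  obtain ⟨d1, hd1⟩ := hev (κl / 2) (2 * 10 ^ 4) (by positivity)
  obtain ⟨d2, hd2⟩ := hev (E / 8) (2 * n) (by positivity)
  obtain ⟨d3, hd3⟩ := hev (E / 4) 10 (by positivity)
  refine ⟨max (max d0 d1) (max (max d2 d3) 3001), fun d hd A X0 τ hA hτ hτ1 hg hX0 => ?_⟩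
  have g0 : d0 ≤ d := (le_trans (le_max_left _ _) (le_max_left _ _)).trans hd
  have g1 : d1 ≤ d := (le_trans (le_max_right _ _) (le_max_left _ _)).trans hd
  have g2 : d2 ≤ d :=
    (le_trans (le_trans (le_max_left _ _) (le_max_left _ _)) (le_max_right _ _)).trans hd
  have g3 : d3 ≤ d :=
    (le_trans (le_trans (le_max_right _ _) (le_max_left _ _)) (le_max_right _ _)).trans hd
  have g4 : 3001 ≤ d := (le_trans (le_max_right _ _) (le_max_right _ _)).trans hd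
  have g5 : 2 ≤ d := by omega
  have S : Num n d κ κl E := by
    refine ⟨g5, hκ, hE0, hE1, hκl0, hκlE, k3, k5, ?_, hd2 d g2, hd3 d g3⟩
    calc 2 * 10 ^ 4 * (d : ℝ) ^ κ ≤ (d : ℝ) ^ (κl / 2) * (d : ℝ) ^ (κl / 2) :=
          mul_le_mul (hd1 d g1) (rp_mono g5 k2) (rp_pos g5 _).le (rp_pos g5 _).le
      _ = (d : ℝ) ^ κl := by
          rw [rp_add g5]
          congr 1
          ring
  obtain ⟨O, hO, hOm, hOX⟩ := hd0 d g0 A X0 τ hA hτ hτ1 hg hX0
  refine ⟨O, hO, hOm.trans (ENNReal.ofReal_le_ofReal (rp_mono g5 (by linarith))), fun X hX => ?_⟩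
  obtain ⟨h1, h2, h3⟩ := hOX X hX
  have h4 : ∀ c, IsU c → JJ X c = 0 → ∀ p : PatK, p.ok → ∀ T ≤ (n + 1) + 1, CdK X c p T →
      -1 + (2 * E) / 2 ≤ bdK p T := by
    intro c hc hJ p hp T hT hcd
    have h5 := h3 c hc hJ p hp T hT hcd
    rw [hE]
    linarith
  exact ⟨h1, h2, gs_of S h2 h4, fun n1 hn1 hn => trv_of S g4 h2 h4 hn1 hn⟩

end Pool.Agent.H84.SG
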