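import Mathlib

/-!
# SHARP SMOOTHED FATOU (MP_8f2e1c_an), growth of the critical orbits: exponents only (helper84)

Everything in this file is about real numbers. `pt 0 = c` is a critical point, `pt (l + 1) = y_l` its orbit (`y_0` the critical value).
`th, hc` are the exponents at `c` (second derivative `d^(1-th)`, `|F| = d^(-hc)`), `be l, h l` those at `y_l` (directional derivative
`d^(1/2 - be l)`, `|F| = d^(-h l)`), clipped to `[0, 1]`, and `D a b` the exponent of the distance of `pt a` and `pt b`, clipped to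
`[0, 2]`.

`Kd`: kinds of steps of the counting induction. `full` (a new point, all jets are used), `free` (a near point which follows: nothing is
used), `der` (near point, derivative event), `pos` (near point, event for the position of the next point). `mlt`: number of jets fixed at
the point, `MM`: exponent of the loss of one dual vector, `NN`: exponent of the smallest distance to an earlier point, `cst`: the
cost of a step. `Cst`: the output of the random part: every choice of kinds has cost `≤ 2 - ε`. `Exs`: metric and local geometric facts.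
-/

set_option autoImplicit false

open Finset

namespace Pool.Agent.H84.SG

/-- kinds of steps -/
inductive Kd
  | full
  | free
  | der
  | pos
  deriving DecidableEq

/-- number of jets which are fixed at the point `i` -/
def mlt (kd : ℕ → Kd) : ℕ → ℝ
  | 0 => 3
  | i + 1 =>
    match kd i with
    | .full => 2
    | .der => 2
    | .free => 1
    | .pos => 1

/-- loss exponent of one dual vector at `y_l` -/
noncomputable def MM (kd : ℕ → Kd) (D : ℕ → ℕ → ℝ) (l : ℕ) : ℝ :=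
  ∑ i ∈ range (l + 1), mlt kd i * max 0 (D (l + 1) i - 1 / 2)

/-- exponent of the smallest distance of `y_l` to the earlier points -/
noncomputable def NN (D : ℕ → ℕ → ℝ) (l : ℕ) : ℝ :=
  (range (l + 1)).sup' ⟨0, by simp⟩ fun i => D (l + 1) i

/-- the cost of the step `l` -/
noncomputable def cst (kd : ℕ → Kd) (be h : ℕ → ℝ) (D : ℕ → ℕ → ℝ) (l : ℕ) : ℝ :=
  match kd l with
  | .full => 2 * be l + 4 * h l + 2 * NN D (l + 1) - 6 * MM kd D l
  | .free => 0
  | .der => 2 * be l - 2 * MM kd D l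
  | .pos => 2 * NN D (l + 1) - 2 * MM kd D l

/-- the output of the random part -/
def Cst (n : ℕ) (ε th hc : ℝ) (be h : ℕ → ℝ) (D : ℕ → ℕ → ℝ) : Prop :=
  ∀ T ≤ n + 1, ∀ kd : ℕ → Kd, (∀ l < T, kd l ≠ .free → NN D l ≤ 3 / 2) →
    4 * th + 4 * hc + 2 * NN D 0 + ∑ l ∈ range T, cst kd be h D l ≤ 2 - ε

/-- metric and local geometric facts (error `κ`): `lg0, lg1` displacement near an orbit point in the linear regime, `lc1, lc2, lc3`
derivative and displacement near the critical point -/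
structure Exs (n : ℕ) (κ th hc : ℝ) (be h : ℕ → ℝ) (D : ℕ → ℕ → ℝ) : Prop where
  th0 : 0 ≤ th
  hc0 : 0 ≤ hc
  be0 : ∀ l, 0 ≤ be l
  be1 : ∀ l, be l ≤ 1
  h0 : ∀ l, 0 ≤ h l
  D0 : ∀ a b, 0 ≤ D a b
  D2 : ∀ a b, D a b ≤ 2
  sym : ∀ a b, D a b = D b a
  tri : ∀ a b c, a ≤ n + 2 → b ≤ n + 2 → c ≤ n + 2 → a ≠ c → min (D a b) (D b c) ≤ D a c + κ
  lg0 : ∀ i l, i < l → l ≤ n → D (l + 1) (i + 1) ≤ 1 → be i + κ < D (l + 1) (i + 1) - 1 / 2 →
    h i + κ < D (l + 1) (i + 1) - 1 / 2 →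
    be i + (D (l + 1) (i + 1) - 1 / 2) - h i - κ ≤ D (l + 2) (i + 2)
  lg1 : ∀ i l, i < l → l ≤ n → D (l + 1) (i + 1) ≤ 1 → be i + κ < D (l + 1) (i + 1) - 1 / 2 →
    h i + κ < D (l + 1) (i + 1) - 1 / 2 →
    D (l + 2) (i + 2) ≤ be i + (D (l + 1) (i + 1) - 1 / 2) - h i + κ
  lc1 : ∀ l ≤ n, D (l + 1) 0 ≤ 1 → th + κ < D (l + 1) 0 - 1 / 2 → hc + κ < D (l + 1) 0 - 1 / 2 →
    be l ≤ th + (D (l + 1) 0 - 1 / 2) + κ
  lc2 : ∀ l ≤ n, D (l + 1) 0 ≤ 1 → th + κ < D (l + 1) 0 - 1 / 2 → hc + κ < D (l + 1) 0 - 1 / 2 →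
    th + 2 * (D (l + 1) 0 - 1 / 2) - hc - κ ≤ D (l + 2) 1
  lc3 : ∀ l ≤ n, D (l + 1) 0 ≤ 1 → th + κ < D (l + 1) 0 - 1 / 2 → hc + κ < D (l + 1) 0 - 1 / 2 →
    D (l + 2) 1 ≤ th + 2 * (D (l + 1) 0 - 1 / 2) - hc + κ

end Pool.Agent.H84.SG
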