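import Pool.Agent.H84.SG.NZer

/-!
# SHARP SMOOTHED FATOU: the growth, exponents (helper84)

`grow0`: the critical value is near `c`. `growth`: the result of the numerical part: for `2 ≤ L ≤ n + 1`,
`∑_(l < L) be l ≤ L / 2 - ε / 4` and `≤ 1 / ε + 2`.
-/

set_option autoImplicit false

open Finset

namespace Pool.Agent.H84.SG

section

variable {n : ℕ} {κ ε th hc : ℝ} {be h : ℕ → ℝ} {D : ℕ → ℕ → ℝ}

theorem NN_zero : NN D 0 = D 1 0 := by
  obtain ⟨i, hi, h1⟩ := NN_mem D 0
  have : i = 0 := by omega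
  rw [h1, this]

/-- the run decreases linearly -/
theorem run_lin {X : ℕ → ℝ} {k : ℕ} (h : ∀ j < k, X (j + 1) ≤ X j - ε / 4) :
    ∀ j ≤ k, X j ≤ X 0 - j * (ε / 4) := by
  intro j
  induction j with
  | zero => intro _; simp
  | succ j ih =>
    intro hj
    have h1 := ih (by omega)
    have h2 := h j (by omega)
    push_cast
    linarith

/-- the derivatives in the quadratic zone -/
theorem run_be (hκ : 0 < κ) (E : Exs n κ th hc be h D) {k : ℕ} (hk : k ≤ n + 1)
    (hR : ∀ j < k, th + 4 * κ < D (j + 1) 0 - 1 / 2 ∧ hc + 4 * κ < D (j + 1) 0 - 1 / 2)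
    (hD : ∀ j < k, D (j + 1) 0 ≤ D 1 0) (h10 : D 1 0 ≤ 1) :
    ∀ j < k, be j ≤ th + (D 1 0 - 1 / 2) + κ := by
  intro j hj
  obtain ⟨r1, r2⟩ := hR j hj
  have h1 := hD j hj
  have h2 := E.lc1 j (by omega) (by linarith) (by linarith) (by linarith)
  linarith

theorem sum_be_run {w : ℝ} {k : ℕ} (h : ∀ j < k, be j ≤ w) :
    ∑ l ∈ range k, be l ≤ k * w := by
  have h1 : ∑ l ∈ range k, be l ≤ ∑ l ∈ range k, w := sum_le_sum fun l hl => h l (mem_range.1 hl)
  rw [sum_const, card_range, nsmul_eq_mul] at h1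
  exact h1

/-- **the growth if the critical value is near `c`** -/
theorem grow0 (hκ : 0 < κ) (hε : 10000 * (((n : ℝ) + 3) ^ 2 * κ) ≤ ε) (hε1 : ε ≤ 1)
    (C : Cst n ε th hc be h D) (E : Exs n κ th hc be h D) (hx : 1 / 2 + 4 * κ < NN D 0) :
    ∀ L, 1 ≤ L → L ≤ n + 1 → ∑ l ∈ range L, be l ≤ (L : ℝ) / 2 - ε / 4 ∧
      ∑ l ∈ range L, be l ≤ 1 / ε + 2 ∧ be (L - 1) ≤ 1 - ε / 4 := by
  intro L hL1 hLn
  have hκs := num1 (n := n) hκ.le
  have hκ1 := kap1 hκ.le hε hε1
  have h32 := evB1 hκ.le hκ1 hε C E (T := 0) (by omega) (fun l hl => by omega)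
  have hB := evB hκ.le hκ1 C (T := 0) (by omega) (fun l hl => by omega)
  rw [AA_zero] at hB
  have t0 := E.th0
  have t1 := E.hc0
  have hL1' : (1 : ℝ) ≤ L := by exact_mod_cast hL1
  have hε0 : 0 < ε := by
    have : 0 < κ := hκ
    linarith
  have e72 := num2 (n := n) hκ.le
  have hεs : 72 * ((n : ℝ) + 2) ^ 2 * κ ≤ ε := by linarith
  have hinv : 1 ≤ 1 / ε := by
    rw [le_div_iff₀ hε0]
    linarith
  have hN0 : NN D 0 = D 1 0 := NN_zero
  set s : ℝ := ((n : ℝ) + 3) ^ 2 * κ with hs
  set R : ℕ → Prop := fun j => th + 4 * κ < D (j + 1) 0 - 1 / 2 ∧ hc + 4 * κ < D (j + 1) 0 - 1 / 2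
    with hRd
  have h10 : D 1 0 ≤ 1 := by
    rw [← hN0]
    exact h32
  -- length of a run
  have hlen : ∀ k, 1 ≤ k → k ≤ n + 1 → (∀ j < k, R j) → (k : ℝ) ≤ 2 / ε + 1 := by
    intro k hk1 hk hR
    obtain ⟨_, _, r3⟩ := run hκ hε E hB k hk hR
    have h1 := run_lin (ε := ε) (X := fun j => D (j + 1) 0) (k := k) (fun j hj => (r3 j hj).2)
      (k - 1) (by omega)
    have h2 := (hR (k - 1) (by omega)).1
    have h3 : ((k - 1 : ℕ) : ℝ) = (k : ℝ) - 1 := by
      rw [Nat.cast_sub hk1]
      simp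
    rw [h3] at h1
    have h5 : D (0 + 1) 0 = D 1 0 := rfl
    have h4 : ((k : ℝ) - 1) * (ε / 4) ≤ 1 / 2 := by linarith
    have h6 : ((k : ℝ) - 1) * ε ≤ 2 := by linarith
    have h7 : (k : ℝ) - 1 ≤ 2 / ε := by
      rw [le_div_iff₀ hε0]
      exact h6
    linarith
  by_cases hall : ∀ j < L, R j
  · -- the run does not end
    obtain ⟨r1, _, r3⟩ := run hκ hε E hB L hLn hall
    have hd : ∀ j < L, D (j + 1) 0 ≤ D 1 0 := by
      intro j hj
      have h1 := run_lin (ε := ε) (X := fun j => D (j + 1) 0) (k := L) (fun j hj => (r3 j hj).2)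
        j hj.le
      have h5 : D (0 + 1) 0 = D 1 0 := rfl
      have h6 : 0 ≤ (j : ℝ) * (ε / 4) := by positivity
      linarith
    have hb := run_be hκ E hLn hall hd h10
    have hS := sum_be_run hb
    have hw : th + (D 1 0 - 1 / 2) + κ ≤ 1 / 2 - ε / 4 := by
      rw [hN0] at hB
      linarith
    have h1 := mul_le_mul_of_nonneg_left hw (by linarith : (0 : ℝ) ≤ L)
    have h2 : ε / 4 ≤ (L : ℝ) * (ε / 4) := by
      have := mul_le_mul_of_nonneg_right hL1' (by positivity : (0 : ℝ) ≤ ε / 4)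
      linarith
    have h3 := hlen L hL1 hLn hall
    have h4 : 2 / ε = 2 * (1 / ε) := by ring
    refine ⟨?_, ?_, ?_⟩
    · linarith
    · linarith
    · linarith [hb (L - 1) (by omega)]
  · -- first index outside
    have hex : ∃ k, k < L ∧ ¬ R k := by
      by_contra hcon
      exact hall fun j hj => by
        by_contra h1
        exact hcon ⟨j, hj, h1⟩
    classical
    set k := Nat.find hex with hk
    obtain ⟨hkL, hkR⟩ := Nat.find_spec hex
    have hmin : ∀ j < k, R j := by
      intro j hj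
      by_contra h1
      exact Nat.find_min hex hj ⟨lt_trans hj hkL, h1⟩
    rw [← hk] at hkL hkR
    have hsp := be_split (be := be) k L hkL
    have hFb := FL_be E (k + 1) L
    have hlast := last_le E hkL
    have hbk := E.be0 k
    have hIk : 0 ≤ ∑ l ∈ Ico (k + 1) L, be l := sum_nonneg fun l _ => E.be0 l
    rcases Nat.eq_zero_or_pos k with hk0 | hk0
    · -- not in the quadratic zone at the time `0`
      rw [hk0] at hkL hkR hsp hFb hlast hbk hIk
      have hm' : NN D 0 - 1 / 2 ≤ max th hc + 4 * κ := by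
        rw [hN0]
        by_cases h1 : th + 4 * κ < D (0 + 1) 0 - 1 / 2
        · have h2 : ¬ hc + 4 * κ < D (0 + 1) 0 - 1 / 2 := fun h2 => hkR ⟨h1, h2⟩
          have := le_max_right th hc
          have h5 : D (0 + 1) 0 = D 1 0 := rfl
          linarith
        · have := le_max_left th hc
          have h5 : D (0 + 1) 0 = D 1 0 := rfl
          linarith
      have hnew := al2_new hκ hε hε1 C E (T := 0) (by omega) (fun l hl => by omega) NN_zero hx hm'
      have haft := aft hκ.le hκ1 C E hεs (T := 0) (S := 0 + 1) (by omega)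
        (fun l hl => by omega) hx hnew
      have hD := evD hκ.le hκ1 C E hkL hLn (fun l hl => by omega) (Nat.zero_le 0) NN_zero
        (by linarith) h32 (fun l h1 h2 => haft l (by omega) (by omega))
      have hm3 : mlt (k1 0 .der) 0 = 3 := rfl
      rw [hm3, AA_zero] at hD
      have hmax : max th hc ≤ th + hc := max_le (by linarith) (by linarith)
      have h00 : ∑ l ∈ range 0, be l = 0 := by simp
      rw [h00] at hsp
      refine ⟨?_, ?_, ?_⟩
      · linarith
      · linarith
      · rcases hlast with hl | hl <;> linarith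
    · have hkn : k ≤ n := by omega
      obtain ⟨r1, r2, r3⟩ := run hκ hε E hB k (by omega) hmin
      have hd : ∀ j < k, D (j + 1) 0 ≤ D 1 0 := by
        intro j hj
        have h1 := run_lin (ε := ε) (X := fun j => D (j + 1) 0) (k := k)
          (fun j hj => (r3 j hj).2) j hj.le
        have h5 : D (0 + 1) 0 = D 1 0 := rfl
        have h6 : 0 ≤ (j : ℝ) * (ε / 4) := by positivity
        linarith
      have hb := run_be hκ E (by omega) hmin hd h10
      have hS := sum_be_run hb
      have hw : th + (D 1 0 - 1 / 2) + κ ≤ 1 / 2 - ε / 4 := by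
        rw [hN0] at hB
        linarith
      have hw0 : 0 ≤ th + (D 1 0 - 1 / 2) + κ := by
        rw [hN0] at hx
        linarith
      have hk1' : (1 : ℝ) ≤ k := by exact_mod_cast hk0
      have hS2 : ∑ l ∈ range k, be l ≤ ((k : ℝ) - 1) / 2 + (th + (D 1 0 - 1 / 2) + κ) := by
        have h1 : ((k : ℝ) - 1) * (th + (D 1 0 - 1 / 2) + κ) ≤ ((k : ℝ) - 1) * (1 / 2) :=
          mul_le_mul_of_nonneg_left (by linarith) (by linarith)
        linarith
      set y : ℝ := max 0 (D (k + 1) 0 - 1 / 2) with hy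
      have hy0 : 0 ≤ y := le_max_left _ _
      have hxk : D (k + 1) 0 - 1 / 2 ≤ y := le_max_right _ _
      have hx0k : D (k + 1) 0 ≤ D 1 0 := r1 0 (Nat.zero_le k)
      have hy1 : y ≤ 1 / 2 := max_le (by norm_num) (by linarith)
      have hall' : ∀ i ≤ k, D (k + 1) i ≤ 1 / 2 + (y + κ) := by
        intro i hi
        rcases Nat.eq_zero_or_pos i with rfl | hi0
        · linarith
        · obtain ⟨j, rfl⟩ : ∃ j, i = j + 1 := ⟨i - 1, by omega⟩
          have := r2 j (by omega)
          linarith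
      have hNk : NN D k ≤ 3 / 2 := NN_le fun i hi => by linarith [hall' i hi]
      have hyk : y = 0 ∨ y ≤ D (k + 1) 0 - 1 / 2 := by
        rcases max_choice 0 (D (k + 1) 0 - 1 / 2) with h1 | h1
        · left
          rw [hy, h1]
        · right
          rw [hy, h1]
      have hym : y ≤ th + 4 * κ ∨ y ≤ hc + 4 * κ := by
        by_cases h1 : th + 4 * κ < D (k + 1) 0 - 1 / 2
        · have h2 : ¬ hc + 4 * κ < D (k + 1) 0 - 1 / 2 := fun h2 => hkR ⟨h1, h2⟩
          right
          exact max_le (by linarith) (by linarith)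
        · left
          exact max_le (by linarith) (by linarith)
      have hX := run_u (th := th) (hc := hc) (κ := κ) (X := fun j => D (j + 1) 0 - 1 / 2) (k := k)
        (fun j hj => by
          have := (r3 j hj).1
          have h5 : D (j + 1 + 1) 0 = D (j + 2) 0 := rfl
          linarith)
      have hks := num3 (n := n) hκ.le (l := k) (by omega)
      have hkk : ((k : ℝ) + 3) * κ ≤ 3 * s := by
        have h1 : 0 ≤ (k : ℝ) * κ := by positivity
        linarith
      have hnum := run_num (ε := ε) (s := s) (x0 := D 1 0 - 1 / 2) (xk := D (k + 1) 0 - 1 / 2)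
        (y := y) hk0 hκ hκs hks hε t0 t1 (by rw [hN0] at hx; linarith) hy0 hyk hym
        (by rw [hN0] at hB; linarith) hX
      obtain ⟨n1, n2⟩ := hnum
      have hMM : ∀ K, MM (kz k K) D k ≤ (3 + k) * (y + κ) := fun K =>
        kz_MM k K (by linarith) hall'
      have hmul : (3 + (k : ℝ)) * (y + κ) = (3 + (k : ℝ)) * y + ((k : ℝ) + 3) * κ := by ring
      -- the next point is new
      have hP := tot0 hκ.le hκ1 C (k := k) (L := k + 1) le_rfl (by omega) .pos (by decide) hNk
        (fun l _ _ => by omega)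
      have hcP : cs (kz k .pos) be h D k = 2 * NN D (k + 1) - 2 * MM (kz k .pos) D k := by
        unfold cs
        rw [kz_self]
      rw [hcP, Ico_self, sum_empty, hN0] at hP
      have hMP := hMM .pos
      rw [hmul] at hMP
      have hnew : NN D (k + 1) ≤ 1 / 2 + 4 * κ := by linarith
      have haft := aft hκ.le hκ1 C E hεs (T := 0) (S := k + 1) (by omega)
        (fun l hl => by omega) hx hnew
      have hD := tot0 hκ.le hκ1 C (k := k) (L := L) hkL hLn .der (by decide) hNk
        (fun l h1 h2 => haft l (by omega) (by omega))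
      have hcD : cs (kz k .der) be h D k = 2 * be k - 2 * MM (kz k .der) D k := by
        unfold cs
        rw [kz_self]
      rw [hcD, hN0] at hD
      have hMD := hMM .der
      rw [hmul] at hMD
      have hSL : ∑ l ∈ range L, be l ≤ ((k : ℝ) + 1) / 2 - ε / 4 := by linarith
      have hkL' : (k : ℝ) + 1 ≤ L := by exact_mod_cast hkL
      have hkk := hlen k hk0 (by omega) hmin
      have h4 : 2 / ε = 2 * (1 / ε) := by ring
      refine ⟨?_, ?_, ?_⟩
      · linarith
      · linarith
      · rcases hlast with hl | hl <;> linarith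

/-- **the growth, exponents** -/
theorem growth (hn : 1 ≤ n) (hκ : 0 < κ) (hε : 10000 * (((n : ℝ) + 3) ^ 2 * κ) ≤ ε) (hε1 : ε ≤ 1)
    (C : Cst n ε th hc be h D) (E : Exs n κ th hc be h D) :
    (∀ L, 1 ≤ L → L ≤ n + 1 → ∑ l ∈ range L, be l ≤ (L : ℝ) / 2 - ε / 4 ∧
      ∑ l ∈ range L, be l ≤ 1 / ε + 2 ∧ be (L - 1) ≤ 1 - ε / 4) ∨
    ∀ L, L ≤ n + 1 → ∑ l ∈ range L, be l + D 2 1 ≤ 1 - ε / 4 := by
  classical
  have hκs := num1 (n := n) hκ.le
  have hκ1 := kap1 hκ.le hε hε1
  have hε0 : 0 < ε := by linarith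
  have hinv : 0 ≤ 1 / ε := by positivity
  by_cases hex : ∃ T, T ≤ n ∧ 1 / 2 + 4 * κ < NN D T
  · left
    set T := Nat.find hex with hT
    obtain ⟨hTn, hTx⟩ := Nat.find_spec hex
    have hmin : ∀ l < T, NN D l ≤ 1 / 2 + 4 * κ := by
      intro l hl
      by_contra h1
      rw [not_le] at h1
      exact Nat.find_min hex hl ⟨by omega, h1⟩
    rw [← hT] at hTn hTx
    rcases Nat.eq_zero_or_pos T with h0 | h0
    · rw [h0] at hTx
      exact grow0 hκ hε hε1 C E hTx
    · intro L hL1 hLn
      obtain ⟨h1, h2, h3⟩ := grow1 hκ hε hε1 C E h0 hTn hmin hTx L hL1 hLn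
      exact ⟨h1, by linarith, h3⟩
  · right
    intro L hL
    have hall : ∀ l < n + 1, NN D l ≤ 1 / 2 + 4 * κ := by
      intro l hl
      by_contra h1
      rw [not_le] at h1
      exact hex ⟨l, by omega, h1⟩
    have hB := evB hκ.le hκ1 C (T := n + 1) le_rfl hall
    have hN := NN_nonneg E (n + 1)
    have h1 : 2 * ∑ l ∈ range (n + 1), be l + 2 * D 2 1 ≤ AA th hc be h D (n + 1) := by
      have hh : 2 * D 2 1 ≤ ∑ l ∈ range (n + 1), 2 * NN D l := by
        have h3 : 2 * NN D 1 ≤ ∑ l ∈ range (n + 1), 2 * NN D l := by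
          refine single_le_sum (f := fun l => 2 * NN D l) (fun l _ => ?_)
            (mem_range.2 (by omega))
          have := NN_nonneg E l
          linarith
        have h4 : D 2 1 ≤ NN D 1 := le_NN le_rfl
        linarith
      unfold AA
      rw [mul_sum]
      have h5 : ∑ l ∈ range (n + 1), 2 * be l + ∑ l ∈ range (n + 1), 2 * NN D l ≤
          ∑ l ∈ range (n + 1), (2 * be l + 4 * h l + 2 * NN D l) := by
        rw [← sum_add_distrib]
        refine sum_le_sum fun l _ => ?_
        have := E.h0 l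
        linarith
      have := E.th0
      have := E.hc0
      linarith
    have h2 := be_mono E hL
    linarith

end

end Pool.Agent.H84.SG
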