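import Pool.Agent.H84.SG.Pat
import Pool.Agent.H84.SG.NFin
import Pool.Agent.H41.SX.Def
import Pool.Agent.H47.SF.Tra

/-!
# SHARP SMOOTHED FATOU: growth and transversality along one critical orbit (helper84)
-/

set_option autoImplicit false

open Finset

namespace Pool.Agent.H84.SG

open Pool.H70.SF Pool.Agent.H73.ES
open Pool.Agent.H73.SG (PatK CdK bdK)
open Pool.Agent.H47.SF (nuF Wc aa_zero_chart Wc_zero_jv deriv_Wc_zero_jv f2 tra tra')
open Pool.Agent.H41.RF (TT prod_lower norm_prod_al)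

/-- the sizes which are fixed: `R = d ^ κ`, `κl` the error of the local geometry, `E` the excess -/
structure Num (n d : ℕ) (κ κl E : ℝ) : Prop where
  d2 : 2 ≤ d
  κ0 : 0 < κ
  E0 : 0 < E
  E1 : E ≤ 1 / 20
  κl0 : 0 < κl
  κlE : 10000 * ((((n + 1 : ℕ) : ℝ) + 3) ^ 2 * κl) ≤ E
  κe : κ ≤ E ^ 2 / 96
  κn : ((n : ℝ) + 1) * κ ≤ E / 8
  hK : 2 * 10 ^ 4 * (d : ℝ) ^ κ ≤ (d : ℝ) ^ κl
  hn : 2 * (n : ℝ) ≤ (d : ℝ) ^ (E / 8)
  h10 : 10 ≤ (d : ℝ) ^ (E / 4)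

section

variable {n d : ℕ} {κ κl E : ℝ} {X : CV d} {c : ℂ × ℂ}

/-- the exponents along a critical orbit -/
theorem crt_growth (S : Num n d κ κl E) (hG : GG ((d : ℝ) ^ κ) X) (hc : IsU c) (hJ : JJ X c = 0)
    (hX : ∀ p : PatK, p.ok → ∀ T ≤ (n + 1) + 1, CdK X c p T → -1 + (2 * E) / 2 ≤ bdK p T) :
    ((∀ L, 1 ≤ L → L ≤ (n + 1) + 1 → ∑ l ∈ range L, beE X c l ≤ (L : ℝ) / 2 - E / 4 ∧
      ∑ l ∈ range L, beE X c l ≤ 1 / E + 2 ∧ beE X c (L - 1) ≤ 1 - E / 4) ∨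
    ∀ L, L ≤ (n + 1) + 1 → ∑ l ∈ range L, beE X c l + DE X c 2 1 ≤ 1 - E / 4) ∧
    thE X c ≤ 1 / 2 := by
  have hd0 : (0 : ℝ) < d := by
    have := d_one S.d2
    linarith
  have hpos : ∀ u, IsU u → 0 < nn (FF X u) := fun u hu =>
    lt_of_lt_of_le (by positivity) (hG u hu).1
  have hR1 : 1 ≤ (d : ℝ) ^ κ := Real.one_le_rpow (d_one S.d2).le S.κ0.le
  have C := cst_of S.d2 hpos hc hX
  have e1 : 2 * E / 2 = E := by ring
  rw [e1] at C
  have Ex := exs_of S.d2 hR1 hG S.hK S.κl0.le hc hJ (n + 1)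
  refine ⟨growth (by omega) S.κl0 S.κlE (by linarith [S.E1]) C Ex, ?_⟩
  have h0 := C 0 (by omega) (fun _ => .full) (fun l hl => by omega)
  rw [sum_range_zero] at h0
  have h1 := NN_nonneg Ex 0
  have h2 := Ex.hc0
  have h3 := S.E0
  linarith

/-- all derivatives are bounded from below -/
theorem be_all (h : (∀ L, 1 ≤ L → L ≤ (n + 1) + 1 → ∑ l ∈ range L, beE X c l ≤ (L : ℝ) / 2 - E / 4 ∧
      ∑ l ∈ range L, beE X c l ≤ 1 / E + 2 ∧ beE X c (L - 1) ≤ 1 - E / 4) ∨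
    ∀ L, L ≤ (n + 1) + 1 → ∑ l ∈ range L, beE X c l + DE X c 2 1 ≤ 1 - E / 4) {l : ℕ}
    (hl : l ≤ n + 1) : beE X c l ≤ 1 - E / 4 := by
  rcases h with h | h
  · have := (h (l + 1) (by omega) (by omega)).2.2
    exact this
  · have h1 := h (l + 1) (by omega)
    have h2 : beE X c l ≤ ∑ l ∈ range (l + 1), beE X c l :=
      single_le_sum (f := fun l => beE X c l) (fun l _ => cl_nonneg (by norm_num))
        (mem_range.2 (by omega))
    have h3 := DE_nonneg X c 2 1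
    linarith

/-- the sums -/
theorem be_sum (hE : 0 < E) (h : (∀ L, 1 ≤ L → L ≤ (n + 1) + 1 → ∑ l ∈ range L, beE X c l ≤ (L : ℝ) / 2 - E / 4 ∧
      ∑ l ∈ range L, beE X c l ≤ 1 / E + 2 ∧ beE X c (L - 1) ≤ 1 - E / 4) ∨
    ∀ L, L ≤ (n + 1) + 1 → ∑ l ∈ range L, beE X c l + DE X c 2 1 ≤ 1 - E / 4) {L : ℕ}
    (hL2 : 2 ≤ L) (hL : L ≤ (n + 1) + 1) : ∑ l ∈ range L, beE X c l ≤ (L : ℝ) / 2 - E / 4 ∧
      ∑ l ∈ range L, beE X c l ≤ 1 / E + 2 := by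
  rcases h with h | h
  · have := h L (by omega) hL
    exact ⟨this.1, this.2.1⟩
  · have h1 := h L hL
    have h3 := DE_nonneg X c 2 1
    have h4 : (2 : ℝ) ≤ L := by exact_mod_cast hL2
    have h5 : 0 < 1 / E := by positivity
    constructor <;> linarith

/-- the derivatives -/
theorem al_lo (S : Num n d κ κl E) (hG : GG ((d : ℝ) ^ κ) X) (hc : IsU c) {l : ℕ}
    (hb : beE X c l < 1) : (d : ℝ) ^ (1 / 2 - (beE X c l + κ)) ≤ ‖al X c l‖ := by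
  have hd0 : (0 : ℝ) < d := by
    have := d_one S.d2
    linarith
  have hs : 0 < Real.sqrt d := Real.sqrt_pos.2 hd0
  have hpos : ∀ u, IsU u → 0 < nn (FF X u) := fun u hu =>
    lt_of_lt_of_le (by positivity) (hG u hu).1
  have hU : IsU (ob X c l) := pt_unit hpos hc (l + 1)
  have hN := hpos _ hU
  have h1 := V_lo S.d2 (mul_pos hs hN) (norm_nonneg (wd (FF X (ob X c l)) (jv X (ob X c l) 1))) hb
  have hd1 : 1 ≤ d := by
    have := S.d2
    omega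
  rw [← Wc_zero_jv hd1 X hU] at h1
  have h2 : ‖Wc X (ob X c l) 0‖ = ‖aa X (ob X c l)‖ * nn (FF X (ob X c l)) ^ 2 :=
    aa_zero_chart X hN
  rw [h2] at h1
  set N := nn (FF X (ob X c l)) with hNd
  have h3 : (d : ℝ) ^ (-beE X c l) * Real.sqrt d ≤ ‖aa X (ob X c l)‖ * N := by
    have h4 : N * ((d : ℝ) ^ (-beE X c l) * Real.sqrt d) ≤ N * (‖aa X (ob X c l)‖ * N) := by
      have e1 : (d : ℝ) ^ (-cl d 1 (‖Wc X (ob X c l) 0‖ / (Real.sqrt d * N))) =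
          (d : ℝ) ^ (-beE X c l) := by
        unfold beE
        rw [Wc_zero_jv hd1 X hU]
      calc N * ((d : ℝ) ^ (-beE X c l) * Real.sqrt d) =
            (d : ℝ) ^ (-beE X c l) * (Real.sqrt d * N) := by ring
        _ ≤ ‖aa X (ob X c l)‖ * N ^ 2 := by
            rw [← e1, h2]
            exact h1
        _ = _ := by ring
    exact le_of_mul_le_mul_left h4 hN
  have h5 : ‖aa X (ob X c l)‖ * N ≤ ‖al X c l‖ * (d : ℝ) ^ κ :=
    mul_le_mul_of_nonneg_left (hG _ hU).2 (norm_nonneg _)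
  have h6 : (d : ℝ) ^ (1 / 2 - (beE X c l + κ)) * (d : ℝ) ^ κ ≤ ‖al X c l‖ * (d : ℝ) ^ κ := by
    refine le_trans (le_of_eq ?_) (h3.trans h5)
    rw [sqrt_rp, rp_add S.d2, rp_add S.d2]
    congr 1
    ring
  exact le_of_mul_le_mul_right h6 (rp_pos S.d2 _)

/-- the product of the derivatives -/
theorem ph_lo (S : Num n d κ κl E) (hG : GG ((d : ℝ) ^ κ) X) (hc : IsU c)
    (hb : ∀ l ≤ n + 1, beE X c l ≤ 1 - E / 4) {k : ℕ} (hk : k ≤ n + 1) :
    (d : ℝ) ^ ((k : ℝ) / 2 - ∑ l ∈ range k, beE X c l - k * κ) ≤ Ph X c k := by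
  have hd0 : (0 : ℝ) < d := by
    have := d_one S.d2
    linarith
  have h1 := prod_lower hd0 (fun j => ‖al X c j‖) (fun j => beE X c j + κ) 0 k fun j hj => by
    rw [zero_add]
    refine al_lo S hG hc ?_
    have := hb j (by omega)
    have := S.E0
    linarith
  simp only [zero_add] at h1
  rw [sum_add_distrib, sum_const, card_range, nsmul_eq_mul] at h1
  have e1 : (k : ℝ) / 2 - ∑ l ∈ range k, beE X c l - k * κ =
      (k : ℝ) / 2 - (∑ l ∈ range k, beE X c l + k * κ) := by ring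
  rw [e1]
  exact h1

theorem kκ_le (S : Num n d κ κl E) {k : ℕ} (hk : k ≤ n + 1) : (k : ℝ) * κ ≤ E / 8 := by
  have h1 : (k : ℝ) ≤ (n : ℝ) + 1 := by exact_mod_cast hk
  exact (mul_le_mul_of_nonneg_right h1 S.κ0.le).trans S.κn

/-- linear growth of the exponents -/
theorem lin_num (hE : 0 < E) (hE1 : E ≤ 1 / 20) (hκ : κ ≤ E ^ 2 / 96) {k : ℕ} {s : ℝ}
    (h1 : s ≤ (k : ℝ) / 2 - E / 4) (h2 : s ≤ 1 / E + 2) :
    E ^ 2 / 96 * k ≤ (k : ℝ) / 2 - s - k * κ := by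
  have hk : (0 : ℝ) ≤ k := Nat.cast_nonneg k
  have h3 : (k : ℝ) * κ ≤ k * (E ^ 2 / 96) := mul_le_mul_of_nonneg_left hκ hk
  rcases le_total (k : ℝ) (4 / E + 8) with h4 | h4
  · have h5 : (k : ℝ) * (E ^ 2 / 96) ≤ (4 / E + 8) * (E ^ 2 / 96) :=
      mul_le_mul_of_nonneg_right h4 (by positivity)
    have h6 : (4 / E + 8) * (E ^ 2 / 96) = E / 24 + E ^ 2 / 12 := by
      field_simp
      ring
    have h7 : E ^ 2 ≤ E * (1 / 20) := by
      rw [sq]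
      exact mul_le_mul_of_nonneg_left hE1 hE.le
    nlinarith
  · have h5 : E ^ 2 / 96 ≤ 1 / 96 := by
      have : E ^ 2 ≤ 1 := by nlinarith
      linarith
    have h6 : (k : ℝ) * (E ^ 2 / 96) ≤ k * (1 / 96) := mul_le_mul_of_nonneg_left h5 hk
    have h7 : 4 / E = 4 * (1 / E) := by ring
    rw [h7] at h4
    linarith

end

end Pool.Agent.H84.SG
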