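import Pool.Agent.H84.SG.Loc
import Pool.Agent.H84.SG.NDef

/-!
# SHARP SMOOTHED FATOU: the exponents of a critical orbit (helper84)

`cl d m x`: the exponent of `x` to the base `1 / d`, clipped to `[0, m]`. `thE, hcE, beE, hE, DE`: the exponents of a critical orbit.
`exs_of`: they satisfy the structure `Exs` (metric and local geometric facts with error `κ`) if `2 * 10 ^ 4 * R ≤ d ^ κ`.
-/

set_option autoImplicit false

open Finset

namespace Pool.Agent.H84.SG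

open Pool.H70.SF Pool.Agent.H73.ES
open Pool.Agent.H47.SF (nuF wd_comm tri)

/-- clipped exponent -/
noncomputable def cl (d : ℕ) (m x : ℝ) : ℝ := if x = 0 then m else min m (max 0 (-Real.logb d x))

section

variable {d : ℕ} {m x : ℝ}

theorem cl_nonneg (hm : 0 ≤ m) : 0 ≤ cl d m x := by
  unfold cl
  split_ifs
  · exact hm
  · exact le_min hm (le_max_left _ _)

theorem cl_le (x : ℝ) : cl d m x ≤ m := by
  unfold cl
  split_ifs
  · exact le_rfl
  · exact min_le_left _ _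

theorem d_one (hd : 2 ≤ d) : (1 : ℝ) < d := by
  have : (2 : ℝ) ≤ d := by exact_mod_cast hd
  linarith

theorem cl_up (hd : 2 ≤ d) (hx : 0 ≤ x) (h : 0 < cl d m x) : x ≤ (d : ℝ) ^ (-cl d m x) := by
  have hd1 := d_one hd
  rcases hx.eq_or_lt with h0 | h0
  · rw [← h0]
    positivity
  · have h1 : cl d m x ≤ -Real.logb d x := by
      unfold cl at h ⊢
      rw [if_neg h0.ne'] at h ⊢
      have h2 := lt_of_lt_of_le h (min_le_right _ _)
      rcases max_choice 0 (-Real.logb d x) with h3 | h3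
      · rw [h3] at h2
        exact absurd h2 (lt_irrefl _)
      · rw [h3]
        exact min_le_right _ _
    calc x = (d : ℝ) ^ (Real.logb d x) := (Real.rpow_logb (by linarith) hd1.ne' h0).symm
      _ ≤ (d : ℝ) ^ (-cl d m x) := Real.rpow_le_rpow_of_exponent_le hd1.le (by linarith)

theorem cl_lo (hd : 2 ≤ d) (hx : 0 ≤ x) (h : cl d m x < m) : (d : ℝ) ^ (-cl d m x) ≤ x := by
  have hd1 := d_one hd
  rcases hx.eq_or_lt with h0 | h0
  · exfalso
    unfold cl at h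
    rw [if_pos h0.symm] at h
    exact lt_irrefl _ h
  · have h1 : -Real.logb d x ≤ cl d m x := by
      unfold cl at h ⊢
      rw [if_neg h0.ne'] at h ⊢
      rcases min_choice m (max 0 (-Real.logb d x)) with h3 | h3
      · rw [h3] at h
        exact absurd h (lt_irrefl _)
      · rw [h3]
        exact le_max_right _ _
    calc (d : ℝ) ^ (-cl d m x) ≤ (d : ℝ) ^ (Real.logb d x) :=
          Real.rpow_le_rpow_of_exponent_le hd1.le (by linarith)
      _ = x := Real.rpow_logb (by linarith) hd1.ne' h0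

theorem le_cl (hd : 2 ≤ d) (hx : 0 ≤ x) {y : ℝ} (hy : y ≤ m) (h : x ≤ (d : ℝ) ^ (-y)) :
    y ≤ cl d m x := by
  have hd1 := d_one hd
  unfold cl
  rcases hx.eq_or_lt with h0 | h0
  · rw [if_pos h0.symm]
    exact hy
  · rw [if_neg h0.ne']
    refine le_min hy (le_max_of_le_right ?_)
    have h1 : Real.logb d x ≤ -y := by
      rw [Real.logb_le_iff_le_rpow hd1 h0]
      exact h
    linarith

theorem cl_le_of (hd : 2 ≤ d) {y : ℝ} (hy : 0 ≤ y) (h : (d : ℝ) ^ (-y) ≤ x) : cl d m x ≤ y := by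
  have hd1 := d_one hd
  have h0 : 0 < x := lt_of_lt_of_le (Real.rpow_pos_of_pos (by linarith) _) h
  unfold cl
  rw [if_neg h0.ne']
  refine (min_le_right _ _).trans (max_le hy ?_)
  have h1 : -y ≤ Real.logb d x := by
    rw [Real.le_logb_iff_rpow_le hd1 h0]
    exact h
  linarith

end

section

variable {d : ℕ}

/-- second derivative at `c`: `2 |F ∧ J_2| = d ^ (1 - th) |F|` -/
noncomputable def thE (X : CV d) (c : ℂ × ℂ) : ℝ :=
  cl d 1 (2 * ‖wd (FF X c) (jv X c 2)‖ / (d * nn (FF X c)))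

/-- `|F|` at `c` -/
noncomputable def hcE (X : CV d) (c : ℂ × ℂ) : ℝ := cl d 1 (nn (FF X c))

/-- derivative at `y_l`: `|F ∧ J_1| = d ^ (1/2 - be) |F|` -/
noncomputable def beE (X : CV d) (c : ℂ × ℂ) (l : ℕ) : ℝ :=
  cl d 1 (‖wd (FF X (ob X c l)) (jv X (ob X c l) 1)‖ / (Real.sqrt d * nn (FF X (ob X c l))))

/-- `|F|` at `y_l` -/
noncomputable def hE (X : CV d) (c : ℂ × ℂ) (l : ℕ) : ℝ := cl d 1 (nn (FF X (ob X c l)))

/-- distances -/
noncomputable def DE (X : CV d) (c : ℂ × ℂ) (a b : ℕ) : ℝ := cl d 2 ‖wd (pt X c a) (pt X c b)‖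

/-- `N = d ^ (- h)` -/
theorem N_lo (hd : 2 ≤ d) {N : ℝ} (hN : 0 < N) (h : cl d 1 N < 1) : (d : ℝ) ^ (-cl d 1 N) ≤ N :=
  cl_lo hd hN.le h

theorem N_up (hd : 2 ≤ d) {N R : ℝ} (hR1 : 1 ≤ R) (hN : 0 < N) (hNR : N ≤ R) :
    N ≤ R * (d : ℝ) ^ (-cl d 1 N) := by
  rcases (cl_nonneg (d := d) (x := N) (zero_le_one)).eq_or_lt with h | h
  · rw [← h, neg_zero, Real.rpow_zero, mul_one]
    exact hNR
  · have h1 := cl_up hd hN.le h
    have h2 : 0 < (d : ℝ) ^ (-cl d 1 N) := Real.rpow_pos_of_pos (by have := d_one hd; linarith) _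
    nlinarith

/-- `V = d ^ (-e) * P`, lower bound -/
theorem V_lo (hd : 2 ≤ d) {V P : ℝ} (hP : 0 < P) (hV : 0 ≤ V) (h : cl d 1 (V / P) < 1) :
    (d : ℝ) ^ (-cl d 1 (V / P)) * P ≤ V := by
  have h1 := cl_lo hd (div_nonneg hV hP.le) h
  rw [le_div_iff₀ hP] at h1
  exact h1

theorem V_up (hd : 2 ≤ d) {V P R : ℝ} (hR1 : 1 ≤ R) (hP : 0 < P) (hV : 0 ≤ V) (hVR : V ≤ R * P) :
    V ≤ R * ((d : ℝ) ^ (-cl d 1 (V / P)) * P) := by
  rcases (cl_nonneg (d := d) (x := V / P) (zero_le_one)).eq_or_lt with h | h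
  · rw [← h, neg_zero, Real.rpow_zero, one_mul]
    exact hVR
  · have h1 := cl_up hd (div_nonneg hV hP.le) h
    rw [div_le_iff₀ hP] at h1
    have h2 : 0 < (d : ℝ) ^ (-cl d 1 (V / P)) * P :=
      mul_pos (Real.rpow_pos_of_pos (by have := d_one hd; linarith) _) hP
    nlinarith

/-- `δ = d ^ (-D)` -/
theorem del_eq (hd : 2 ≤ d) {δ : ℝ} (hδ : 0 ≤ δ) (h0 : 0 < cl d 2 δ) (h2 : cl d 2 δ < 2) :
    δ = (d : ℝ) ^ (-cl d 2 δ) := le_antisymm (cl_up hd hδ h0) (cl_lo hd hδ h2)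

theorem rp_pos (hd : 2 ≤ d) (x : ℝ) : 0 < (d : ℝ) ^ x :=
  Real.rpow_pos_of_pos (by have := d_one hd; linarith) _

theorem rp_add (hd : 2 ≤ d) (x y : ℝ) : (d : ℝ) ^ x * (d : ℝ) ^ y = (d : ℝ) ^ (x + y) :=
  (Real.rpow_add (by have := d_one hd; linarith) _ _).symm

theorem rp_mono (hd : 2 ≤ d) {x y : ℝ} (h : x ≤ y) : (d : ℝ) ^ x ≤ (d : ℝ) ^ y :=
  Real.rpow_le_rpow_of_exponent_le (d_one hd).le h

theorem sqrt_rp : Real.sqrt d = (d : ℝ) ^ ((1 : ℝ) / 2) := Real.sqrt_eq_rpow _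

theorem d_rp : (d : ℝ) = (d : ℝ) ^ (1 : ℝ) := (Real.rpow_one _).symm

theorem lem_up (hd : 2 ≤ d) {a b κ K x : ℝ} (h : (d : ℝ) ^ b * x ≤ K * (d : ℝ) ^ a)
    (hK : K ≤ (d : ℝ) ^ κ) : x ≤ (d : ℝ) ^ (a - b + κ) := by
  have h1 : (d : ℝ) ^ b * x ≤ (d : ℝ) ^ b * (d : ℝ) ^ (a - b + κ) := by
    rw [rp_add hd]
    have h2 : (d : ℝ) ^ κ * (d : ℝ) ^ a = (d : ℝ) ^ (b + (a - b + κ)) := by
      rw [rp_add hd]
      congr 1
      ring
    rw [← h2]
    exact h.trans (mul_le_mul_of_nonneg_right hK (rp_pos hd _).le)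
  exact le_of_mul_le_mul_left h1 (rp_pos hd _)

theorem lem_lo (hd : 2 ≤ d) {a b κ K x : ℝ} (hx : 0 ≤ x) (h : (d : ℝ) ^ a ≤ K * ((d : ℝ) ^ b * x))
    (hK : K ≤ (d : ℝ) ^ κ) : (d : ℝ) ^ (a - b - κ) ≤ x := by
  have h1 : (d : ℝ) ^ (b + κ) * (d : ℝ) ^ (a - b - κ) ≤ (d : ℝ) ^ (b + κ) * x := by
    rw [rp_add hd]
    have h2 : b + κ + (a - b - κ) = a := by ring
    rw [h2]
    refine h.trans ?_
    have h3 : (d : ℝ) ^ (b + κ) * x = (d : ℝ) ^ κ * ((d : ℝ) ^ b * x) := by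
      rw [← rp_add hd]
      ring
    rw [h3]
    exact mul_le_mul_of_nonneg_right hK (mul_nonneg (rp_pos hd _).le hx)
  exact le_of_mul_le_mul_left h1 (rp_pos hd _)

/-- the condition of `loc1`, `loc2` on `|F|` -/
theorem c_h1 (hd : 2 ≤ d) {R κ N δ D h : ℝ} (hK : 2 * 10 ^ 4 * R ≤ (d : ℝ) ^ κ)
    (hδ : δ = (d : ℝ) ^ (-D)) (hN : (d : ℝ) ^ (-h) ≤ N) (hh : h + κ < D - 1 / 2) :
    2 * 10 ^ 4 * R * Real.sqrt d * δ ≤ N := by
  rw [sqrt_rp, hδ]
  calc 2 * 10 ^ 4 * R * (d : ℝ) ^ ((1 : ℝ) / 2) * (d : ℝ) ^ (-D)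
      = 2 * 10 ^ 4 * R * ((d : ℝ) ^ ((1 : ℝ) / 2) * (d : ℝ) ^ (-D)) := by ring
    _ ≤ (d : ℝ) ^ κ * ((d : ℝ) ^ ((1 : ℝ) / 2) * (d : ℝ) ^ (-D)) :=
        mul_le_mul_of_nonneg_right hK (mul_nonneg (rp_pos hd _).le (rp_pos hd _).le)
    _ = (d : ℝ) ^ (κ + (1 / 2 + -D)) := by rw [rp_add hd, rp_add hd]
    _ ≤ (d : ℝ) ^ (-h) := rp_mono hd (by linarith)
    _ ≤ N := hN

/-- the condition of `loc1` on the derivative -/
theorem c_h2 (hd : 2 ≤ d) {R κ N W δ D be : ℝ} (hR : 0 ≤ R) (hK : 2 * 10 ^ 4 * R ≤ (d : ℝ) ^ κ)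
    (hδ : δ = (d : ℝ) ^ (-D)) (hN : 0 ≤ N) (hW : (d : ℝ) ^ (-be) * (Real.sqrt d * N) ≤ W)
    (hh : be + κ < D - 1 / 2) : 100 * R * d * δ * N ≤ W := by
  refine le_trans ?_ hW
  rw [sqrt_rp, hδ]
  have h1 : 100 * R ≤ (d : ℝ) ^ κ := by linarith
  calc 100 * R * (d : ℝ) * (d : ℝ) ^ (-D) * N
      = 100 * R * (((d : ℝ) ^ (1 : ℝ) * (d : ℝ) ^ (-D)) * N) := by
        rw [Real.rpow_one]
        ring
    _ ≤ (d : ℝ) ^ κ * (((d : ℝ) ^ (1 : ℝ) * (d : ℝ) ^ (-D)) * N) :=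
        mul_le_mul_of_nonneg_right h1
          (mul_nonneg (mul_nonneg (rp_pos hd _).le (rp_pos hd _).le) hN)
    _ = (d : ℝ) ^ (κ + (1 + -D)) * N := by rw [rp_add hd, ← mul_assoc, rp_add hd]
    _ ≤ (d : ℝ) ^ (-be + 1 / 2) * N := mul_le_mul_of_nonneg_right (rp_mono hd (by linarith)) hN
    _ = (d : ℝ) ^ (-be) * ((d : ℝ) ^ ((1 : ℝ) / 2) * N) := by
        rw [← mul_assoc, rp_add hd]

/-- the condition of `loc2` on the second derivative -/
theorem c_h3 (hd : 2 ≤ d) {R κ N U δ D th : ℝ} (hR : 0 ≤ R) (hK : 2 * 10 ^ 4 * R ≤ (d : ℝ) ^ κ)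
    (hδ : δ = (d : ℝ) ^ (-D)) (hN : 0 ≤ N) (hU : (d : ℝ) ^ (-th) * (d * N) ≤ 2 * U)
    (hh : th + κ < D - 1 / 2) : 100 * R * (d * Real.sqrt d) * δ * N ≤ U := by
  have h1 : 200 * R ≤ (d : ℝ) ^ κ := by linarith
  have key : 200 * R * (d * Real.sqrt d) * δ * N ≤ 2 * U := by
    refine le_trans ?_ hU
    rw [sqrt_rp, hδ]
    calc 200 * R * ((d : ℝ) * (d : ℝ) ^ ((1 : ℝ) / 2)) * (d : ℝ) ^ (-D) * N
        = 200 * R * (((d : ℝ) ^ ((1 : ℝ) / 2) * (d : ℝ) ^ (-D)) * (d * N)) := by ring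
      _ ≤ (d : ℝ) ^ κ * (((d : ℝ) ^ ((1 : ℝ) / 2) * (d : ℝ) ^ (-D)) * (d * N)) :=
          mul_le_mul_of_nonneg_right h1
            (mul_nonneg (mul_nonneg (rp_pos hd _).le (rp_pos hd _).le)
              (mul_nonneg (Nat.cast_nonneg d) hN))
      _ = (d : ℝ) ^ (κ + (1 / 2 + -D)) * (d * N) := by rw [rp_add hd, ← mul_assoc, rp_add hd]
      _ ≤ (d : ℝ) ^ (-th) * (d * N) :=
          mul_le_mul_of_nonneg_right (rp_mono hd (by linarith)) (mul_nonneg (Nat.cast_nonneg d) hN)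
  linarith

/-- displacement in the linear regime, exponents -/
theorem e_lin (hd : 2 ≤ d) {R κ N W δ D be h x : ℝ} (hR : 1 ≤ R) (hK : 2 * 10 ^ 4 * R ≤ (d : ℝ) ^ κ)
    (hδ : δ = (d : ℝ) ^ (-D)) (hN0 : 0 < N) (hN1 : (d : ℝ) ^ (-h) ≤ N)
    (hN2 : N ≤ R * (d : ℝ) ^ (-h)) (hW1 : (d : ℝ) ^ (-be) * (Real.sqrt d * N) ≤ W)
    (hW2 : W ≤ 2 * R * ((d : ℝ) ^ (-be) * (Real.sqrt d * N))) (hx : 0 ≤ x)
    (h1 : δ * W ≤ 2 * N ^ 2 * x) (h2 : N ^ 2 * x ≤ 2 * (δ * W)) :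
    x ≤ (d : ℝ) ^ (-(be + (D - 1 / 2) - h - κ)) ∧
      (d : ℝ) ^ (-(be + (D - 1 / 2) - h + κ)) ≤ x := by
  have e0 : (d : ℝ) ^ (-D) * ((d : ℝ) ^ (-be) * Real.sqrt d) = (d : ℝ) ^ (-D + (-be + 1 / 2)) := by
    rw [sqrt_rp, rp_add hd, rp_add hd]
  have hδ0 : 0 ≤ δ := by
    rw [hδ]
    exact (rp_pos hd _).le
  constructor
  · have h3 : N * (N * x) ≤ N * (4 * R * (d : ℝ) ^ (-D + (-be + 1 / 2))) := by
      calc N * (N * x) = N ^ 2 * x := by ring
        _ ≤ 2 * (δ * W) := h2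
        _ ≤ 2 * (δ * (2 * R * ((d : ℝ) ^ (-be) * (Real.sqrt d * N)))) := by
            have := mul_le_mul_of_nonneg_left hW2 hδ0
            linarith
        _ = N * (4 * R * ((d : ℝ) ^ (-D) * ((d : ℝ) ^ (-be) * Real.sqrt d))) := by
            rw [hδ]
            ring
        _ = _ := by rw [e0]
    have h4 := le_of_mul_le_mul_left h3 hN0
    have h5 : (d : ℝ) ^ (-h) * x ≤ 4 * R * (d : ℝ) ^ (-D + (-be + 1 / 2)) :=
      (mul_le_mul_of_nonneg_right hN1 hx).trans h4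
    have h6 := lem_up hd h5 (by linarith : 4 * R ≤ (d : ℝ) ^ κ)
    refine h6.trans (rp_mono hd (by linarith))
  · have h3 : N * (d : ℝ) ^ (-D + (-be + 1 / 2)) ≤ N * (2 * (N * x)) := by
      calc N * (d : ℝ) ^ (-D + (-be + 1 / 2)) =
            δ * ((d : ℝ) ^ (-be) * (Real.sqrt d * N)) := by
            rw [← e0, hδ]
            ring
        _ ≤ δ * W := mul_le_mul_of_nonneg_left hW1 hδ0
        _ ≤ 2 * N ^ 2 * x := h1
        _ = _ := by ring
    have h4 := le_of_mul_le_mul_left h3 hN0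
    have h5 : (d : ℝ) ^ (-D + (-be + 1 / 2)) ≤ 2 * R * ((d : ℝ) ^ (-h) * x) := by
      have := mul_le_mul_of_nonneg_right hN2 hx
      linarith
    have h6 := lem_lo hd hx h5 (by linarith : 2 * R ≤ (d : ℝ) ^ κ)
    refine (rp_mono hd (by linarith)).trans h6

/-- displacement and derivative near the critical point, exponents -/
theorem e_cri (hd : 2 ≤ d) {R κ N U δ D th h x w M : ℝ} (hR : 1 ≤ R)
    (hK : 2 * 10 ^ 4 * R ≤ (d : ℝ) ^ κ)
    (hδ : δ = (d : ℝ) ^ (-D)) (hN0 : 0 < N) (hN1 : (d : ℝ) ^ (-h) ≤ N)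
    (hN2 : N ≤ R * (d : ℝ) ^ (-h)) (hU1 : (d : ℝ) ^ (-th) * (d * N) ≤ 2 * U)
    (hU2 : 2 * U ≤ 4 * R * ((d : ℝ) ^ (-th) * (d * N))) (hx : 0 ≤ x) (hM : 0 < M)
    (h1 : δ ^ 2 * U ≤ 2 * N ^ 2 * x) (h2 : N ^ 2 * x ≤ 2 * (δ ^ 2 * U))
    (h3 : δ * U * M ≤ 4 * N * w) :
    x ≤ (d : ℝ) ^ (-(th + 2 * (D - 1 / 2) - h - κ)) ∧
      (d : ℝ) ^ (-(th + 2 * (D - 1 / 2) - h + κ)) ≤ x ∧
      (d : ℝ) ^ (-(th + (D - 1 / 2) + κ)) ≤ w / (Real.sqrt d * M) := by
  have hδ0 : 0 ≤ δ := by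
    rw [hδ]
    exact (rp_pos hd _).le
  have e1 : δ ^ 2 * ((d : ℝ) ^ (-th) * d) = (d : ℝ) ^ (-D + -D + (-th + 1)) := by
    rw [hδ, sq, rp_add hd, ← rp_add hd (-D + -D) (-th + 1), ← rp_add hd (-th) 1, Real.rpow_one]
  refine ⟨?_, ?_, ?_⟩
  · have h4 : N * (N * x) ≤ N * (4 * R * (d : ℝ) ^ (-D + -D + (-th + 1))) := by
      calc N * (N * x) = N ^ 2 * x := by ring
        _ ≤ δ ^ 2 * (2 * U) := by linarith
        _ ≤ δ ^ 2 * (4 * R * ((d : ℝ) ^ (-th) * (d * N))) :=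
            mul_le_mul_of_nonneg_left hU2 (by positivity)
        _ = N * (4 * R * (δ ^ 2 * ((d : ℝ) ^ (-th) * d))) := by ring
        _ = _ := by rw [e1]
    have h5 := le_of_mul_le_mul_left h4 hN0
    have h6 : (d : ℝ) ^ (-h) * x ≤ 4 * R * (d : ℝ) ^ (-D + -D + (-th + 1)) :=
      (mul_le_mul_of_nonneg_right hN1 hx).trans h5
    have h7 := lem_up hd h6 (by linarith : 4 * R ≤ (d : ℝ) ^ κ)
    refine h7.trans (rp_mono hd (by linarith))
  · have h4 : N * (d : ℝ) ^ (-D + -D + (-th + 1)) ≤ N * (4 * (N * x)) := by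
      calc N * (d : ℝ) ^ (-D + -D + (-th + 1)) =
            δ ^ 2 * ((d : ℝ) ^ (-th) * (d * N)) := by
            rw [← e1]
            ring
        _ ≤ δ ^ 2 * (2 * U) := mul_le_mul_of_nonneg_left hU1 (by positivity)
        _ ≤ 4 * N ^ 2 * x := by linarith
        _ = _ := by ring
    have h5 := le_of_mul_le_mul_left h4 hN0
    have h6 : (d : ℝ) ^ (-D + -D + (-th + 1)) ≤ 4 * R * ((d : ℝ) ^ (-h) * x) := by
      have := mul_le_mul_of_nonneg_right hN2 hx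
      linarith
    have h7 := lem_lo hd hx h6 (by linarith : 4 * R ≤ (d : ℝ) ^ κ)
    refine (rp_mono hd (by linarith)).trans h7
  · have hs : 0 < Real.sqrt d := by
      rw [sqrt_rp]
      exact rp_pos hd _
    rw [le_div_iff₀ (by positivity)]
    have h4 : N * (δ * ((d : ℝ) ^ (-th) * d) * M) ≤ N * (8 * w) := by
      calc N * (δ * ((d : ℝ) ^ (-th) * d) * M) = δ * ((d : ℝ) ^ (-th) * (d * N)) * M := by ring
        _ ≤ δ * (2 * U) * M :=
            mul_le_mul_of_nonneg_right (mul_le_mul_of_nonneg_left hU1 hδ0) hM.le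
        _ ≤ N * (8 * w) := by linarith
    have h5 := le_of_mul_le_mul_left h4 hN0
    have e2 : (d : ℝ) ^ κ * ((d : ℝ) ^ (-(th + (D - 1 / 2) + κ)) * (Real.sqrt d * M)) =
        δ * ((d : ℝ) ^ (-th) * d) * M := by
      have e3 : (d : ℝ) ^ κ * ((d : ℝ) ^ (-(th + (D - 1 / 2) + κ)) * (d : ℝ) ^ ((1 : ℝ) / 2)) =
          (d : ℝ) ^ (-D) * ((d : ℝ) ^ (-th) * (d : ℝ) ^ (1 : ℝ)) := by
        rw [rp_add hd, rp_add hd, rp_add hd, rp_add hd]
        congr 1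
        ring
      rw [Real.rpow_one] at e3
      rw [sqrt_rp, hδ, ← e3]
      ring
    have h6 : 8 * ((d : ℝ) ^ (-(th + (D - 1 / 2) + κ)) * (Real.sqrt d * M)) ≤ 8 * w := by
      refine le_trans ?_ h5
      rw [← e2]
      refine mul_le_mul_of_nonneg_right (by linarith) ?_
      have := (rp_pos hd (-(th + (D - 1 / 2) + κ))).le
      positivity
    linarith

end

section

variable {d : ℕ} {X : CV d} {R κ : ℝ} {c : ℂ × ℂ}

theorem pt_unit (h : ∀ u, IsU u → 0 < nn (FF X u)) (hc : IsU c) (l : ℕ) : IsU (pt X c l) := by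
  cases l with
  | zero => exact hc
  | succ l =>
    show IsU (ob X c l)
    induction l with
    | zero => exact Pool.Agent.H47.SF.nx_isU (h c hc)
    | succ l ih => exact Pool.Agent.H47.SF.nx_isU (h _ ih)

theorem pt_nx (l : ℕ) : pt X c (l + 1) = nx X (pt X c l) := by
  cases l with
  | zero => rfl
  | succ l => rfl

theorem DE_sym (a b : ℕ) : DE X c a b = DE X c b a := by
  unfold DE
  rw [wd_comm]

/-- the triangle inequality -/
theorem DE_tri (hd : 2 ≤ d) (h : ∀ u, IsU u → 0 < nn (FF X u)) (hc : IsU c)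
    (hK : 2 ≤ (d : ℝ) ^ κ) (hκ : 0 ≤ κ) (a b e : ℕ) :
    min (DE X c a b) (DE X c b e) ≤ DE X c a e + κ := by
  have n1 := cl_nonneg (d := d) (m := 2) (x := ‖wd (pt X c a) (pt X c e)‖) (by norm_num)
  have n2' := cl_nonneg (d := d) (m := 2) (x := ‖wd (pt X c a) (pt X c b)‖) (by norm_num)
  have n3 := cl_nonneg (d := d) (m := 2) (x := ‖wd (pt X c b) (pt X c e)‖) (by norm_num)
  rcases (le_min n2' n3).eq_or_lt with h0 | h0
  · unfold DE
    rw [← h0]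
    linarith
  · have h1 := tri (pt_unit h hc a) (pt_unit h hc b) (pt_unit h hc e)
    have h2 := cl_up hd (norm_nonneg _) (lt_of_lt_of_le h0 (min_le_left _ _))
    have h3 := cl_up hd (norm_nonneg _) (lt_of_lt_of_le h0 (min_le_right _ _))
    have h4 : min (DE X c a b) (DE X c b e) - κ ≤ DE X c a e := by
      unfold DE
      refine le_cl hd (norm_nonneg _) ?_ ?_
      · have := cl_le (d := d) (m := 2) ‖wd (pt X c a) (pt X c b)‖
        have h5 := min_le_left (cl d 2 ‖wd (pt X c a) (pt X c b)‖)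
          (cl d 2 ‖wd (pt X c b) (pt X c e)‖)
        linarith
      · have h5 := rp_mono hd (neg_le_neg (min_le_left (cl d 2 ‖wd (pt X c a) (pt X c b)‖)
          (cl d 2 ‖wd (pt X c b) (pt X c e)‖)))
        have h6 := rp_mono hd (neg_le_neg (min_le_right (cl d 2 ‖wd (pt X c a) (pt X c b)‖)
          (cl d 2 ‖wd (pt X c b) (pt X c e)‖)))
        set mm := min (cl d 2 ‖wd (pt X c a) (pt X c b)‖) (cl d 2 ‖wd (pt X c b) (pt X c e)‖)
        have h7 : (d : ℝ) ^ (-(mm - κ)) = (d : ℝ) ^ κ * (d : ℝ) ^ (-mm) := by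
          rw [rp_add hd]
          congr 1
          ring
        rw [h7]
        have h8 := mul_le_mul_of_nonneg_right hK (rp_pos hd (-mm)).le
        linarith
    linarith

/-- **the exponents of a critical orbit** -/
theorem exs_of (hd : 2 ≤ d) (hR1 : 1 ≤ R) (hG : GG R X) (hK : 2 * 10 ^ 4 * R ≤ (d : ℝ) ^ κ)
    (hκ : 0 ≤ κ) (hc : IsU c) (hJ : JJ X c = 0) (n : ℕ) :
    Exs n κ (thE X c) (hcE X c) (beE X c) (hE X c) (DE X c) := by
  have hd0 : (0 : ℝ) < d := by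
    have := d_one hd
    linarith
  have hs : 0 < Real.sqrt d := Real.sqrt_pos.2 hd0
  have hpos : ∀ u, IsU u → 0 < nn (FF X u) := fun u hu =>
    lt_of_lt_of_le (by positivity) (hG u hu).1
  have hRR : ∀ u, IsU u → nn (FF X u) ≤ R := fun u hu => (hG u hu).2
  have hU := pt_unit hpos hc
  -- linear regime
  have hlin : ∀ i l, i < l → l ≤ n → DE X c (l + 1) (i + 1) ≤ 1 →
      beE X c i + κ < DE X c (l + 1) (i + 1) - 1 / 2 →
      hE X c i + κ < DE X c (l + 1) (i + 1) - 1 / 2 →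
      ‖wd (pt X c (l + 2)) (pt X c (i + 2))‖ ≤
          (d : ℝ) ^ (-(beE X c i + (DE X c (l + 1) (i + 1) - 1 / 2) - hE X c i - κ)) ∧
        (d : ℝ) ^ (-(beE X c i + (DE X c (l + 1) (i + 1) - 1 / 2) - hE X c i + κ)) ≤
          ‖wd (pt X c (l + 2)) (pt X c (i + 2))‖ := by
    intro i l _ _ hD1 hb hh
    have hui := hU (i + 1)
    have hzl := hU (l + 1)
    have hN := hpos _ hui
    have b0 := cl_nonneg (d := d) (m := 1) (x := ‖wd (FF X (ob X c i)) (jv X (ob X c i) 1)‖ /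
      (Real.sqrt d * nn (FF X (ob X c i)))) (by norm_num)
    have h0 := cl_nonneg (d := d) (m := 1) (x := nn (FF X (ob X c i))) (by norm_num)
    have b0' : 0 ≤ beE X c i := b0
    have h0' : 0 ≤ hE X c i := h0
    have hδ := del_eq hd (norm_nonneg (wd (pt X c (l + 1)) (pt X c (i + 1))))
      (show 0 < DE X c (l + 1) (i + 1) by linarith) (show DE X c (l + 1) (i + 1) < 2 by linarith)
    have hNlo := N_lo hd hN (show hE X c i < 1 by linarith)
    have hNup := N_up hd hR1 hN (hRR _ hui)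
    have hPp : 0 < Real.sqrt d * nn (FF X (ob X c i)) := mul_pos hs hN
    have hWlo := V_lo hd hPp (norm_nonneg (wd (FF X (ob X c i)) (jv X (ob X c i) 1)))
      (show beE X c i < 1 by linarith)
    have hWR : ‖wd (FF X (ob X c i)) (jv X (ob X c i) 1)‖ ≤
        2 * R * (Real.sqrt d * nn (FF X (ob X c i))) := by
      refine (wd_le _ _).trans ?_
      have := mul_le_mul_of_nonneg_left (cau_jet (by omega) hRR hui 1) hN.le
      rw [pow_one] at this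
      have e : nn (FF X (pt X c (i + 1))) = nn (FF X (ob X c i)) := rfl
      have e' : jv X (pt X c (i + 1)) 1 = jv X (ob X c i) 1 := rfl
      rw [e, e'] at this
      linarith
    have hWup := V_up hd (by linarith : 1 ≤ 2 * R) hPp
      (norm_nonneg (wd (FF X (ob X c i)) (jv X (ob X c i) 1))) hWR
    have hcomm := wd_comm (pt X c (l + 1)) (pt X c (i + 1))
    rw [hcomm] at hδ
    have hδ' : ‖wd (ob X c i) (pt X c (l + 1))‖ = (d : ℝ) ^ (-DE X c (l + 1) (i + 1)) := by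
      unfold DE
      rw [hcomm]
      exact hδ
    have q1 := c_h1 hd hK hδ' hNlo hh
    have q2 := c_h2 hd (by linarith) hK hδ' hN.le hWlo hb
    obtain ⟨r1, r2⟩ := loc1 hd hR1 hRR hui hzl hN q1 q2
    have q3 := e_lin hd hR1 hK hδ' hN hNlo hNup hWlo hWup (norm_nonneg _) r1 r2
    have e3 : ‖wd (pt X c (l + 2)) (pt X c (i + 2))‖ =
        ‖wd (nx X (ob X c i)) (nx X (pt X c (l + 1)))‖ := by
      rw [wd_comm]
      rfl
    rw [e3]
    exact q3
  -- near the critical point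
  have hcri : ∀ l ≤ n, DE X c (l + 1) 0 ≤ 1 → thE X c + κ < DE X c (l + 1) 0 - 1 / 2 →
      hcE X c + κ < DE X c (l + 1) 0 - 1 / 2 →
      ‖wd (pt X c (l + 2)) (pt X c 1)‖ ≤
          (d : ℝ) ^ (-(thE X c + 2 * (DE X c (l + 1) 0 - 1 / 2) - hcE X c - κ)) ∧
        (d : ℝ) ^ (-(thE X c + 2 * (DE X c (l + 1) 0 - 1 / 2) - hcE X c + κ)) ≤
          ‖wd (pt X c (l + 2)) (pt X c 1)‖ ∧
        (d : ℝ) ^ (-(thE X c + (DE X c (l + 1) 0 - 1 / 2) + κ)) ≤
          ‖wd (FF X (ob X c l)) (jv X (ob X c l) 1)‖ /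
            (Real.sqrt d * nn (FF X (ob X c l))) := by
    intro l _ hD1 hb hh
    have hzl := hU (l + 1)
    have hN := hpos _ hc
    have hM := hpos _ hzl
    have b0 := cl_nonneg (d := d) (m := 1) (x := 2 * ‖wd (FF X c) (jv X c 2)‖ /
      (d * nn (FF X c))) (by norm_num)
    have h0 := cl_nonneg (d := d) (m := 1) (x := nn (FF X c)) (by norm_num)
    have b0' : 0 ≤ thE X c := b0
    have h0' : 0 ≤ hcE X c := h0
    have hδ := del_eq hd (norm_nonneg (wd (pt X c (l + 1)) (pt X c 0)))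
      (show 0 < DE X c (l + 1) 0 by linarith) (show DE X c (l + 1) 0 < 2 by linarith)
    have hNlo := N_lo hd hN (show hcE X c < 1 by linarith)
    have hNup := N_up hd hR1 hN (hRR _ hc)
    have hPp : 0 < (d : ℝ) * nn (FF X c) := mul_pos hd0 hN
    have hUlo := V_lo hd hPp (by positivity : 0 ≤ 2 * ‖wd (FF X c) (jv X c 2)‖)
      (show thE X c < 1 by linarith)
    have hUR : 2 * ‖wd (FF X c) (jv X c 2)‖ ≤ 4 * R * ((d : ℝ) * nn (FF X c)) := by
      have h1 := wd_le (FF X c) (jv X c 2)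
      have h2 := mul_le_mul_of_nonneg_left (cau_jet (by omega) hRR hc 2) hN.le
      rw [Real.sq_sqrt hd0.le] at h2
      linarith
    have hUup := V_up hd (by linarith : 1 ≤ 4 * R) hPp
      (by positivity : 0 ≤ 2 * ‖wd (FF X c) (jv X c 2)‖) hUR
    have hcomm := wd_comm (pt X c (l + 1)) (pt X c 0)
    rw [hcomm] at hδ
    have hδ' : ‖wd c (pt X c (l + 1))‖ = (d : ℝ) ^ (-DE X c (l + 1) 0) := by
      unfold DE
      rw [hcomm]
      exact hδ
    have q1 := c_h1 hd hK hδ' hNlo hh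
    have q2 := c_h3 hd (by linarith) hK hδ' hN.le hUlo hb
    obtain ⟨r1, r2, r3⟩ := loc2 hd hR1 hRR hc hJ hzl hN q1 q2
    have q3 := e_cri hd hR1 hK hδ' hN hNlo hNup hUlo hUup (norm_nonneg _) hM r1 r2 r3
    have e3 : ‖wd (pt X c (l + 2)) (pt X c 1)‖ =
        ‖wd (nx X c) (nx X (pt X c (l + 1)))‖ := by
      rw [wd_comm]
      rfl
    rw [e3]
    exact q3
  refine ⟨cl_nonneg (by norm_num), cl_nonneg (by norm_num), fun l => cl_nonneg (by norm_num),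
    fun l => cl_le _, fun l => cl_nonneg (by norm_num), fun a b => cl_nonneg (by norm_num),
    fun a b => cl_le _, fun a b => DE_sym a b, ?_, ?_, ?_, ?_, ?_, ?_⟩
  · intro a b e _ _ _ _
    exact DE_tri hd hpos hc (by linarith) hκ a b e
  · intro i l hil hln hD1 hb hh
    have h1 := (hlin i l hil hln hD1 hb hh).1
    have b1 : beE X c i ≤ 1 := cl_le _
    have h0 : 0 ≤ hE X c i := cl_nonneg (by norm_num)
    exact le_cl hd (norm_nonneg _) (by linarith) h1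
  · intro i l hil hln hD1 hb hh
    have h1 := (hlin i l hil hln hD1 hb hh).2
    have b0 : 0 ≤ beE X c i := cl_nonneg (by norm_num)
    exact cl_le_of hd (by linarith) h1
  · intro l hln hD1 hb hh
    have h1 := (hcri l hln hD1 hb hh).2.2
    have b0 : 0 ≤ thE X c := cl_nonneg (by norm_num)
    exact cl_le_of hd (by linarith) h1
  · intro l hln hD1 hb hh
    have h1 := (hcri l hln hD1 hb hh).1
    have h0 : 0 ≤ hcE X c := cl_nonneg (by norm_num)
    exact le_cl hd (norm_nonneg _) (by linarith) h1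
  · intro l hln hD1 hb hh
    have h1 := (hcri l hln hD1 hb hh).2.1
    have b0 : 0 ≤ thE X c := cl_nonneg (by norm_num)
    exact cl_le_of hd (by linarith) h1

end

end Pool.Agent.H84.SG
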