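import Pool.Agent.H73.ES.Crn
import Pool.Agent.H73.ES.Jl
import Pool.Agent.H47.SF.Nda

/-!
# SHARP SMOOTHED FATOU: two-sided displacement estimates near a point and near a critical point (helper84)

`loc1`: `z` near `u`, linear regime: `dist (f u) (f z) = δ W / N²` up to a factor `2` (`W = |F ∧ ∂F|`, `N = |F|` at `u`).
`loc2`: `z` near the critical point `c`: `dist (f c) (f z) = δ² U / N²` up to a factor `2` (`U = |F ∧ J_2|` at `c`).
`loc3`: the derivative at `z` near `c` is at least `δ U / N` up to a factor `4`.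
-/

set_option autoImplicit false

open Finset

namespace Pool.Agent.H84.SG

open Pool.H70.SF Pool.Agent.H73.ES
open Pool.Agent.H47.SF (nuF Wc nx_chart aa_chart aa_zero_chart exists_chart t_le nuF_nonneg
  Wc_zero_jv deriv_Wc_zero_jv Wc_eq ch wd_comm)

/-- tail of a polynomial -/
theorem tail (q : Polynomial ℂ) {A D : ℝ} (hA : 0 ≤ A) (hD : 0 ≤ D) {n K : ℕ}
    (hn : q.natDegree < n) (hK : K ≤ n) (h : ∀ k, ‖q.coeff k‖ ≤ A * D ^ k) {t : ℂ}
    (ht : ‖t‖ * D ≤ 1 / 2) :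
    ‖q.eval t - ∑ k ∈ range K, q.coeff k * t ^ k‖ ≤ 2 * A * (‖t‖ * D) ^ K := by
  rw [Polynomial.eval_eq_sum_range' hn t, range_eq_Ico, range_eq_Ico,
    ← sum_Ico_consecutive _ (Nat.zero_le K) hK, add_sub_cancel_left]
  have hx0 : 0 ≤ ‖t‖ * D := mul_nonneg (norm_nonneg _) hD
  have h1 : ∀ k ∈ Ico K n, ‖q.coeff k * t ^ k‖ ≤ A * (‖t‖ * D) ^ K * (1 / 2) ^ (k - K) := by
    intro k hk
    rw [mem_Ico] at hk
    rw [norm_mul, norm_pow]
    calc ‖q.coeff k‖ * ‖t‖ ^ k ≤ A * D ^ k * ‖t‖ ^ k :=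
          mul_le_mul_of_nonneg_right (h k) (by positivity)
      _ = A * (‖t‖ * D) ^ k := by rw [mul_pow]; ring
      _ = A * ((‖t‖ * D) ^ K * (‖t‖ * D) ^ (k - K)) := by
          rw [← pow_add, Nat.add_sub_cancel' hk.1]
      _ ≤ A * ((‖t‖ * D) ^ K * (1 / 2) ^ (k - K)) := by gcongr
      _ = _ := by ring
  refine (norm_sum_le_of_le _ h1).trans ?_
  rw [← mul_sum, sum_Ico_eq_sum_range]
  have h2 : ∑ k ∈ range (n - K), ((1 : ℝ) / 2) ^ (K + k - K) ≤ 2 := by
    have h3 : ∀ k ∈ range (n - K), ((1 : ℝ) / 2) ^ (K + k - K) = (1 / 2) ^ k := by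
      intro k _
      rw [Nat.add_sub_cancel_left]
    rw [sum_congr rfl h3]
    have h4 := sum_geometric_two_le (n - K)
    exact h4
  have h5 : 0 ≤ A * (‖t‖ * D) ^ K := by positivity
  nlinarith

/-- the polynomial `t ↦ e ∧ F(u + t u')` -/
noncomputable def qe {d : ℕ} (X : CV d) (u e : ℂ × ℂ) : Polynomial ℂ :=
  Polynomial.C e.1 * rsP X.2 u - Polynomial.C e.2 * rsP X.1 u

/-- the polynomial `t ↦ ⟨F(u + t u'), e⟩` -/
noncomputable def he {d : ℕ} (X : CV d) (u e : ℂ × ℂ) : Polynomial ℂ :=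
  Polynomial.C (starRingEnd ℂ e.1) * rsP X.1 u + Polynomial.C (starRingEnd ℂ e.2) * rsP X.2 u

section

variable {d : ℕ} {X : CV d} {R : ℝ} {u e : ℂ × ℂ}

theorem qe_eval (t : ℂ) : (qe X u e).eval t = wd e (FF X (u + t • pp u)) := by
  unfold qe wd FF
  simp only [Polynomial.eval_sub, Polynomial.eval_mul, Polynomial.eval_C, rs_eval]

theorem he_eval (t : ℂ) : (he X u e).eval t = hm (FF X (u + t • pp u)) e := by
  unfold he hm FF
  simp only [Polynomial.eval_add, Polynomial.eval_mul, Polynomial.eval_C, rs_eval]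
  ring

theorem qe_coeff (k : ℕ) : (qe X u e).coeff k = wd e (jv X u k) := by
  unfold qe wd jv jt
  simp only [Polynomial.coeff_sub, Polynomial.coeff_C_mul]

theorem he_coeff (k : ℕ) : (he X u e).coeff k = hm (jv X u k) e := by
  unfold he hm jv jt
  simp only [Polynomial.coeff_add, Polynomial.coeff_C_mul]
  ring

theorem qe_deg : (qe X u e).natDegree < d + 1 := by
  have h1 : (qe X u e).natDegree ≤ d := by
    unfold qe
    refine (Polynomial.natDegree_sub_le _ _).trans (max_le ?_ ?_)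
    · exact (Polynomial.natDegree_C_mul_le _ _).trans (rs_deg _ _)
    · exact (Polynomial.natDegree_C_mul_le _ _).trans (rs_deg _ _)
  omega

theorem he_deg : (he X u e).natDegree < d + 1 := by
  have h1 : (he X u e).natDegree ≤ d := by
    unfold he
    refine (Polynomial.natDegree_add_le _ _).trans (max_le ?_ ?_)
    · exact (Polynomial.natDegree_C_mul_le _ _).trans (rs_deg _ _)
    · exact (Polynomial.natDegree_C_mul_le _ _).trans (rs_deg _ _)
  omega

theorem nn0 (a : ℂ × ℂ) : 0 ≤ nn a := Real.sqrt_nonneg _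

theorem qe_bd (hd : 1 ≤ d) (hR : ∀ u, IsU u → nn (FF X u) ≤ R) (hu : IsU u) (k : ℕ) :
    ‖(qe X u e).coeff k‖ ≤ 2 * R * nn e * Real.sqrt d ^ k := by
  rw [qe_coeff]
  refine (wd_le _ _).trans ?_
  have := mul_le_mul_of_nonneg_left (cau_jet hd hR hu k) (nn0 e)
  linarith

theorem he_bd (hd : 1 ≤ d) (hR : ∀ u, IsU u → nn (FF X u) ≤ R) (hu : IsU u) (k : ℕ) :
    ‖(he X u e).coeff k‖ ≤ 2 * R * nn e * Real.sqrt d ^ k := by
  rw [he_coeff]
  refine (hm_le _ _).trans ?_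
  have := mul_le_mul_of_nonneg_right (cau_jet hd hR hu k) (nn0 e)
  linarith

/-- coefficients of the derivative -/
theorem der_bd {q : Polynomial ℂ} {A D : ℝ} (hA : 0 ≤ A) (hD : 0 ≤ D)
    (h : ∀ k, ‖q.coeff k‖ ≤ A * D ^ k) (k : ℕ) :
    ‖(Polynomial.derivative q).coeff k‖ ≤ A * D * (2 * D) ^ k := by
  rw [Polynomial.coeff_derivative, norm_mul]
  have h1 : ‖((k : ℂ) + 1)‖ = (k : ℝ) + 1 := by
    have : ((k : ℂ) + 1) = ((k + 1 : ℝ) : ℂ) := by push_cast; rfl
    rw [this, Complex.norm_real, Real.norm_eq_abs, abs_of_nonneg (by positivity)]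
  have h2 : (k : ℝ) + 1 ≤ 2 ^ k := by
    have : k + 1 ≤ 2 ^ k := Nat.lt_two_pow_self
    exact_mod_cast this
  rw [h1]
  calc ‖q.coeff (k + 1)‖ * ((k : ℝ) + 1) ≤ A * D ^ (k + 1) * 2 ^ k :=
        mul_le_mul (h (k + 1)) h2 (by positivity) (by positivity)
    _ = A * D * (2 * D) ^ k := by rw [mul_pow, pow_succ]; ring

theorem hm_self (e : ℂ × ℂ) : hm e e = ((nn e ^ 2 : ℝ) : ℂ) := by
  have h1 : nn e ^ 2 = n2 e := by
    unfold nn
    rw [Real.sq_sqrt]
    unfold n2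
    positivity
  rw [h1]
  unfold hm n2
  rw [Complex.mul_conj, Complex.mul_conj, Complex.normSq_eq_norm_sq, Complex.normSq_eq_norm_sq]
  push_cast
  rfl

/-- `|F|` in the chart -/
theorem nn_ch (hd : 2 ≤ d) (hR : ∀ u, IsU u → nn (FF X u) ≤ R) (hu : IsU u) {t : ℂ}
    (ht : ‖t‖ * Real.sqrt d ≤ 1 / 2) :
    nn (FF X u) ≤ nn (FF X (u + t • pp u)) + 4 * R * (‖t‖ * Real.sqrt d) ∧
      nn (FF X (u + t • pp u)) ≤ nn (FF X u) + 4 * R * (‖t‖ * Real.sqrt d) := by
  have hR0 : 0 ≤ R := (nn0 _).trans (hR u hu)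
  have key : ∀ e : ℂ × ℂ, ‖hm (FF X (u + t • pp u)) e - hm (FF X u) e‖ ≤
      nn e * (4 * R * (‖t‖ * Real.sqrt d)) := by
    intro e
    have h1 := tail (he X u e) (A := 2 * R * nn e) (D := Real.sqrt d) (n := d + 1) (K := 1)
      (by have := nn0 e; positivity) (Real.sqrt_nonneg _) he_deg (by omega)
      (he_bd (by omega) hR hu) ht
    rw [he_eval, sum_range_one, pow_zero, mul_one, he_coeff, jv_zero, pow_one] at h1
    linarith
  constructor
  · have h1 := key (FF X u)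
    rw [hm_self] at h1
    have h2 := hm_le (FF X (u + t • pp u)) (FF X u)
    have h3 : nn (FF X u) ^ 2 ≤ nn (FF X (u + t • pp u)) * nn (FF X u) +
        nn (FF X u) * (4 * R * (‖t‖ * Real.sqrt d)) := by
      have h4 : ‖((nn (FF X u) ^ 2 : ℝ) : ℂ)‖ = nn (FF X u) ^ 2 := by
        rw [Complex.norm_real, Real.norm_eq_abs, abs_of_nonneg (by positivity)]
      have h5 := norm_sub_norm_le ((nn (FF X u) ^ 2 : ℝ) : ℂ) (hm (FF X (u + t • pp u)) (FF X u))
      rw [norm_sub_rev, h4] at h5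
      linarith
    rcases (nn0 (FF X u)).eq_or_lt with h0 | h0
    · rw [← h0]
      have := nn0 (FF X (u + t • pp u))
      positivity
    · have h6 : nn (FF X u) * nn (FF X u) ≤ nn (FF X u) *
          (nn (FF X (u + t • pp u)) + 4 * R * (‖t‖ * Real.sqrt d)) := by
        calc nn (FF X u) * nn (FF X u) = nn (FF X u) ^ 2 := by ring
          _ ≤ _ := h3
          _ = _ := by ring
      exact le_of_mul_le_mul_left h6 h0
  · have h1 := key (FF X (u + t • pp u))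
    rw [hm_self] at h1
    have h2 := hm_le (FF X u) (FF X (u + t • pp u))
    have h3 : nn (FF X (u + t • pp u)) ^ 2 ≤ nn (FF X u) * nn (FF X (u + t • pp u)) +
        nn (FF X (u + t • pp u)) * (4 * R * (‖t‖ * Real.sqrt d)) := by
      have h4 : ‖((nn (FF X (u + t • pp u)) ^ 2 : ℝ) : ℂ)‖ = nn (FF X (u + t • pp u)) ^ 2 := by
        rw [Complex.norm_real, Real.norm_eq_abs, abs_of_nonneg (by positivity)]
      have h5 := norm_sub_norm_le ((nn (FF X (u + t • pp u)) ^ 2 : ℝ) : ℂ)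
        (hm (FF X u) (FF X (u + t • pp u)))
      rw [h4] at h5
      linarith
    rcases (nn0 (FF X (u + t • pp u))).eq_or_lt with h0 | h0
    · rw [← h0]
      have := nn0 (FF X u)
      positivity
    · have h6 : nn (FF X (u + t • pp u)) * nn (FF X (u + t • pp u)) ≤
          nn (FF X (u + t • pp u)) * (nn (FF X u) + 4 * R * (‖t‖ * Real.sqrt d)) := by
        calc nn (FF X (u + t • pp u)) * nn (FF X (u + t • pp u)) =
            nn (FF X (u + t • pp u)) ^ 2 := by ring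
          _ ≤ _ := h3
          _ = _ := by ring
      exact le_of_mul_le_mul_left h6 h0

theorem wd_self (a : ℂ × ℂ) : wd a a = 0 := by
  unfold wd
  ring

/-- the chart and the size of the quantities -/
theorem pre (hd : 2 ≤ d) (hR1 : 1 ≤ R) (hR : ∀ u, IsU u → nn (FF X u) ≤ R) (hu : IsU u)
    {z : ℂ × ℂ} (hz : IsU z) (hN : 0 < nn (FF X u))
    (h1 : 2 * 10 ^ 4 * R * Real.sqrt d * ‖wd u z‖ ≤ nn (FF X u)) :
    ∃ lam t : ℂ, z = lam • (u + t • pp u) ∧ ‖lam‖ ^ 2 * (1 + ‖t‖ ^ 2) = 1 ∧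
      ‖wd u z‖ ≤ ‖t‖ ∧ ‖t‖ ≤ 1.01 * ‖wd u z‖ ∧
      R * (‖t‖ * Real.sqrt d) ≤ nn (FF X u) / 10000 ∧ ‖t‖ * Real.sqrt d ≤ 1 / 10000 ∧
      0.99 * nn (FF X u) ≤ nn (FF X (u + t • pp u)) ∧
      nn (FF X (u + t • pp u)) ≤ 1.01 * nn (FF X u) := by
  have hd0 : (1 : ℝ) ≤ d := by exact_mod_cast (by omega : 1 ≤ d)
  have hs1 : 1 ≤ Real.sqrt d := Real.one_le_sqrt.2 hd0
  have hδ0 := norm_nonneg (wd u z)
  have hNR := hR u hu
  have h2 : 2 * 10 ^ 4 * (R * (Real.sqrt d * ‖wd u z‖)) ≤ R * 1 := by linarith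
  have h3 : 2 * 10 ^ 4 * (Real.sqrt d * ‖wd u z‖) ≤ 1 := by
    have h4 : R * (2 * 10 ^ 4 * (Real.sqrt d * ‖wd u z‖)) ≤ R * 1 := by linarith
    exact le_of_mul_le_mul_left h4 (by linarith)
  have h4 : ‖wd u z‖ ≤ Real.sqrt d * ‖wd u z‖ := le_mul_of_one_le_left hδ0 hs1
  have h5 : ‖wd u z‖ ≤ 1 / 10 := by linarith
  obtain ⟨lam, t, e1, e2, e3⟩ := exists_chart hu hz (by linarith)
  have e4 : ‖wd u z‖ = ‖lam‖ * ‖t‖ := by rw [e3, norm_mul]
  have e5 := t_le e2 e4.symm h5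
  have hl1 : ‖lam‖ ≤ 1 := by
    have h6 : ‖lam‖ ^ 2 ≤ 1 := by
      have : 0 ≤ ‖lam‖ ^ 2 * ‖t‖ ^ 2 := by positivity
      linarith
    have := norm_nonneg lam
    nlinarith
  have e6 : ‖wd u z‖ ≤ ‖t‖ := by
    rw [e4]
    exact mul_le_of_le_one_left (norm_nonneg _) hl1
  have hs0 : 0 ≤ Real.sqrt d := Real.sqrt_nonneg _
  have e7 : ‖t‖ * Real.sqrt d ≤ 1.01 * (Real.sqrt d * ‖wd u z‖) := by
    have := mul_le_mul_of_nonneg_right e5 hs0
    linarith
  have e8 : ‖t‖ * Real.sqrt d ≤ 1 / 10000 := by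
    have : (1.01 : ℝ) * (Real.sqrt d * ‖wd u z‖) ≤ 1.01 * (1 / (2 * 10 ^ 4)) := by
      apply mul_le_mul_of_nonneg_left _ (by norm_num)
      rw [le_div_iff₀ (by norm_num)]
      linarith
    norm_num at this ⊢
    linarith
  have e9 : R * (‖t‖ * Real.sqrt d) ≤ nn (FF X u) / 10000 := by
    have h7 := mul_le_mul_of_nonneg_left e7 (by linarith : 0 ≤ R)
    norm_num at h7
    linarith
  obtain ⟨a1, a2⟩ := nn_ch (X := X) hd hR hu (t := t) (by linarith)
  refine ⟨lam, t, e1, e2, e6, e5, e9, e8, ?_, ?_⟩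
  · norm_num
    linarith
  · norm_num
    linarith

/-- displacement near `u` in the linear regime -/
theorem loc1 (hd : 2 ≤ d) (hR1 : 1 ≤ R) (hR : ∀ u, IsU u → nn (FF X u) ≤ R) (hu : IsU u)
    {z : ℂ × ℂ} (hz : IsU z) (hN : 0 < nn (FF X u))
    (h1 : 2 * 10 ^ 4 * R * Real.sqrt d * ‖wd u z‖ ≤ nn (FF X u))
    (h2 : 100 * R * d * ‖wd u z‖ * nn (FF X u) ≤ ‖wd (FF X u) (jv X u 1)‖) :
    ‖wd u z‖ * ‖wd (FF X u) (jv X u 1)‖ ≤ 2 * nn (FF X u) ^ 2 * ‖wd (nx X u) (nx X z)‖ ∧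
      nn (FF X u) ^ 2 * ‖wd (nx X u) (nx X z)‖ ≤
        2 * (‖wd u z‖ * ‖wd (FF X u) (jv X u 1)‖) := by
  obtain ⟨lam, t, e1, e2, e3, e4, e5, e6, e7, e8⟩ := pre hd hR1 hR hu hz hN h1
  have hd0 : (0 : ℝ) ≤ d := Nat.cast_nonneg d
  have hss : Real.sqrt d * Real.sqrt d = d := Real.mul_self_sqrt hd0
  set N := nn (FF X u) with hNd
  set W := ‖wd (FF X u) (jv X u 1)‖ with hW
  set δ := ‖wd u z‖ with hδ
  have hδ0 : 0 ≤ δ := norm_nonneg _
  have hW0 : 0 ≤ W := norm_nonneg _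
  have ht0 := norm_nonneg t
  have hT := tail (qe X u (FF X u)) (A := 2 * R * N) (D := Real.sqrt d) (n := d + 1) (K := 2)
    (by positivity) (Real.sqrt_nonneg _) qe_deg (by omega) (qe_bd (by omega) hR hu)
    (t := t) (by linarith)
  rw [qe_eval, sum_range_succ, sum_range_one, pow_zero, mul_one, pow_one, qe_coeff, qe_coeff,
    jv_zero, wd_self, zero_add] at hT
  have hνp : 0 < nn (FF X (u + t • pp u)) := lt_of_lt_of_le (by positivity) e7
  have hnx : ‖wd (nx X u) (nx X z)‖ * (nn (FF X (u + t • pp u)) * N) =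
      ‖wd (FF X (u + t • pp u)) (FF X u)‖ := by
    rw [e1]
    exact nx_chart X e2 hνp hN
  have hq : ‖wd (FF X (u + t • pp u)) (FF X u)‖ = ‖wd (FF X u) (FF X (u + t • pp u))‖ :=
    wd_comm _ _
  rw [hq] at hnx
  set q := ‖wd (FF X u) (FF X (u + t • pp u))‖ with hqd
  set ν := nn (FF X (u + t • pp u)) with hν
  set D := ‖wd (nx X u) (nx X z)‖ with hD
  have hD0 : 0 ≤ D := norm_nonneg _
  have herr : 2 * (2 * R * N) * (‖t‖ * Real.sqrt d) ^ 2 ≤ 0.05 * (‖t‖ * W) := by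
    have h3 : (‖t‖ * Real.sqrt d) ^ 2 = ‖t‖ * (‖t‖ * d) := by
      rw [mul_pow, Real.sq_sqrt hd0]
      ring
    have h4 : R * d * ‖t‖ * N ≤ 1.01 * (W / 100) := by
      have h5 : R * d * ‖t‖ * N ≤ 1.01 * (R * d * δ * N) := by
        calc R * d * ‖t‖ * N ≤ R * d * (1.01 * δ) * N := by gcongr
          _ = _ := by ring
      have h6 : R * d * δ * N ≤ W / 100 := by linarith
      have h7 : (1.01 : ℝ) * (R * d * δ * N) ≤ 1.01 * (W / 100) :=
        mul_le_mul_of_nonneg_left h6 (by norm_num)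
      linarith
    have h8 := mul_le_mul_of_nonneg_left h4 ht0
    rw [h3]
    norm_num at h8 ⊢
    have : 0 ≤ ‖t‖ * W := by positivity
    linarith
  have hlead : ‖wd (FF X u) (jv X u 1) * t‖ = ‖t‖ * W := by
    rw [norm_mul]
    ring
  have hq1 : ‖t‖ * W - 0.05 * (‖t‖ * W) ≤ q := by
    have h3 := norm_sub_norm_le (wd (FF X u) (jv X u 1) * t) (wd (FF X u) (FF X (u + t • pp u)))
    rw [norm_sub_rev, hlead] at h3
    linarith
  have hq2 : q ≤ ‖t‖ * W + 0.05 * (‖t‖ * W) := by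
    have h3 := norm_sub_norm_le (wd (FF X u) (FF X (u + t • pp u))) (wd (FF X u) (jv X u 1) * t)
    rw [hlead] at h3
    linarith
  have hδW : δ * W ≤ ‖t‖ * W := mul_le_mul_of_nonneg_right e3 hW0
  have htW : ‖t‖ * W ≤ 1.01 * (δ * W) := by
    have := mul_le_mul_of_nonneg_right e4 hW0
    linarith
  have hDN : 0 ≤ D * N := by positivity
  constructor
  · -- lower bound of `D`
    have h3 : q ≤ D * N * (1.01 * N) := by
      rw [← hnx]
      have := mul_le_mul_of_nonneg_left e8 hDN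
      linarith
    norm_num at h3 hq1
    nlinarith
  · have h3 : D * N * (0.99 * N) ≤ q := by
      rw [← hnx]
      have := mul_le_mul_of_nonneg_left e7 hDN
      linarith
    norm_num at h3 hq2 htW
    nlinarith

/-- the Wronskian through the two components -/
theorem wc_id (hd : 1 ≤ d) (hu : IsU u) (t : ℂ) :
    ((nn e ^ 2 : ℝ) : ℂ) * Wc X u t = (he X u e).eval t * (Polynomial.derivative (qe X u e)).eval t -
      (qe X u e).eval t * (Polynomial.derivative (he X u e)).eval t := by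
  have h1 : ∀ p : Fin (d + 1) → ℂ, ch p u = fun t => (rsP p u).eval t := by
    intro p
    funext t
    rw [rs_eval]
    rfl
  rw [Wc_eq hd X hu t, h1, h1, ← hm_self]
  rw [Polynomial.deriv, Polynomial.deriv]
  unfold qe he hm
  simp only [Polynomial.eval_sub, Polynomial.eval_mul, Polynomial.eval_C, Polynomial.eval_add,
    Polynomial.derivative_add, Polynomial.derivative_sub, Polynomial.derivative_mul,
    Polynomial.derivative_C, zero_mul, zero_add]
  ring

/-- displacement near a critical point -/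
theorem loc2 (hd : 2 ≤ d) (hR1 : 1 ≤ R) (hR : ∀ u, IsU u → nn (FF X u) ≤ R) (hu : IsU u)
    (hJ : JJ X u = 0) {z : ℂ × ℂ} (hz : IsU z) (hN : 0 < nn (FF X u))
    (h1 : 2 * 10 ^ 4 * R * Real.sqrt d * ‖wd u z‖ ≤ nn (FF X u))
    (h2 : 100 * R * (d * Real.sqrt d) * ‖wd u z‖ * nn (FF X u) ≤ ‖wd (FF X u) (jv X u 2)‖) :
    ‖wd u z‖ ^ 2 * ‖wd (FF X u) (jv X u 2)‖ ≤ 2 * nn (FF X u) ^ 2 * ‖wd (nx X u) (nx X z)‖ ∧
      nn (FF X u) ^ 2 * ‖wd (nx X u) (nx X z)‖ ≤
        2 * (‖wd u z‖ ^ 2 * ‖wd (FF X u) (jv X u 2)‖) ∧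
      ‖wd u z‖ * ‖wd (FF X u) (jv X u 2)‖ * nn (FF X z) ≤
        4 * nn (FF X u) * ‖wd (FF X z) (jv X z 1)‖ := by
  obtain ⟨lam, t, e1, e2, e3, e4, e5, e6, e7, e8⟩ := pre hd hR1 hR hu hz hN h1
  have hd0 : (0 : ℝ) ≤ d := Nat.cast_nonneg d
  have hss : Real.sqrt d * Real.sqrt d = d := Real.mul_self_sqrt hd0
  have hs0 : 0 ≤ Real.sqrt d := Real.sqrt_nonneg _
  have hzz := ff_lip hd hR hu hz (by
    have h3 := e6
    have h4 := mul_le_mul_of_nonneg_right e3 hs0
    linarith)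
  have hzz' := ff_lip hd hR hz hu (by
    rw [wd_comm]
    have h3 := e6
    have h4 := mul_le_mul_of_nonneg_right e3 hs0
    linarith)
  rw [wd_comm z u] at hzz'
  set N := nn (FF X u) with hNd
  set U := ‖wd (FF X u) (jv X u 2)‖ with hW
  set δ := ‖wd u z‖ with hδ
  have hδ0 : 0 ≤ δ := norm_nonneg _
  have hU0 : 0 ≤ U := norm_nonneg _
  have ht0 := norm_nonneg t
  have hTt : ‖t‖ * Real.sqrt d ≤ 1 / 2 := by linarith
  have hT := tail (qe X u (FF X u)) (A := 2 * R * N) (D := Real.sqrt d) (n := d + 1) (K := 3)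
    (by positivity) (Real.sqrt_nonneg _) qe_deg (by omega) (qe_bd (by omega) hR hu)
    (t := t) hTt
  rw [qe_eval, sum_range_succ, sum_range_succ, sum_range_one, pow_zero, mul_one, pow_one,
    qe_coeff, qe_coeff, qe_coeff, jv_zero, wd_self, crit_wd (by omega) hu hJ, zero_mul, zero_add,
    zero_add] at hT
  have hνp : 0 < nn (FF X (u + t • pp u)) := lt_of_lt_of_le (by positivity) e7
  have hnx : ‖wd (nx X u) (nx X z)‖ * (nn (FF X (u + t • pp u)) * N) =
      ‖wd (FF X (u + t • pp u)) (FF X u)‖ := by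
    rw [e1]
    exact nx_chart X e2 hνp hN
  have hq : ‖wd (FF X (u + t • pp u)) (FF X u)‖ = ‖wd (FF X u) (FF X (u + t • pp u))‖ :=
    wd_comm _ _
  rw [hq] at hnx
  -- the derivative
  have hD1 := der_bd (q := qe X u (FF X u)) (A := 2 * R * N) (D := Real.sqrt d) (by positivity)
    hs0 (qe_bd (by omega) hR hu)
  have hD2 := der_bd (q := he X u (FF X u)) (A := 2 * R * N) (D := Real.sqrt d) (by positivity)
    hs0 (he_bd (by omega) hR hu)
  have hdeg1 : (Polynomial.derivative (qe X u (FF X u))).natDegree < d + 1 :=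
    lt_of_le_of_lt ((Polynomial.natDegree_derivative_le _).trans (Nat.sub_le _ _)) qe_deg
  have hdeg2 : (Polynomial.derivative (he X u (FF X u))).natDegree < d + 1 :=
    lt_of_le_of_lt ((Polynomial.natDegree_derivative_le _).trans (Nat.sub_le _ _)) he_deg
  have hT1 := tail (Polynomial.derivative (qe X u (FF X u))) (A := 2 * R * N * Real.sqrt d)
    (D := 2 * Real.sqrt d) (n := d + 1) (K := 2) (by positivity) (by positivity) hdeg1 (by omega)
    hD1 (t := t) (by linarith)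
  have hT2 := tail (Polynomial.derivative (he X u (FF X u))) (A := 2 * R * N * Real.sqrt d)
    (D := 2 * Real.sqrt d) (n := d + 1) (K := 0) (by positivity) (by positivity) hdeg2 (by omega)
    hD2 (t := t) (by linarith)
  have hT3 := tail (he X u (FF X u)) (A := 2 * R * N) (D := Real.sqrt d) (n := d + 1) (K := 1)
    (by positivity) hs0 he_deg (by omega) (he_bd (by omega) hR hu) (t := t) hTt
  rw [sum_range_one, pow_zero, mul_one, he_coeff, jv_zero, pow_one, hm_self] at hT3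
  rw [sum_range_zero, sub_zero, pow_zero, mul_one] at hT2
  rw [sum_range_succ, sum_range_one, pow_zero, mul_one, pow_one, Polynomial.coeff_derivative,
    Polynomial.coeff_derivative, qe_coeff, qe_coeff, crit_wd (by omega) hu hJ, zero_mul,
    zero_add] at hT1
  have hid := wc_id (X := X) (u := u) (e := FF X u) (by omega) hu t
  rw [qe_eval] at hid
  have haa : ‖aa X z‖ * nn (FF X (u + t • pp u)) ^ 2 = ‖Wc X u t‖ * (1 + ‖t‖ ^ 2) := by
    rw [e1]
    exact aa_chart (by omega) X e2 hνp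
  have hzN : 0 < nn (FF X z) := by
    have h4 := mul_le_mul_of_nonneg_right e3 hs0
    have h5 := mul_le_mul_of_nonneg_left h4 (by linarith : 0 ≤ R)
    have h6 : (10 : ℝ) ^ 4 * R * Real.sqrt d * δ ≤ N / 2 := by linarith
    linarith
  have hzw : ‖wd (FF X z) (jv X z 1)‖ = ‖aa X z‖ * nn (FF X z) ^ 2 := by
    rw [← Wc_zero_jv (by omega) X hz]
    exact aa_zero_chart X hzN
  rw [hzw]
  set q := ‖wd (FF X u) (FF X (u + t • pp u))‖ with hqd
  set ν := nn (FF X (u + t • pp u)) with hν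
  set D := ‖wd (nx X u) (nx X z)‖ with hD
  set M := nn (FF X z) with hM
  have hD0 : 0 ≤ D := norm_nonneg _
  set s := Real.sqrt d with hs
  have hR0 : 0 ≤ R := by linarith
  have hk : R * (d * s) * ‖t‖ * N ≤ 0.0101 * U := by
    have h5 : R * (d * s) * ‖t‖ * N ≤ 1.01 * (R * (d * s) * δ * N) := by
      calc R * (d * s) * ‖t‖ * N ≤ R * (d * s) * (1.01 * δ) * N := by gcongr
        _ = _ := by ring
    have h6 : R * (d * s) * δ * N ≤ U / 100 := by linarith
    have h7 : (1.01 : ℝ) * (R * (d * s) * δ * N) ≤ 1.01 * (U / 100) :=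
      mul_le_mul_of_nonneg_left h6 (by norm_num)
    norm_num at h7 ⊢
    linarith
  have herr : 2 * (2 * R * N) * (‖t‖ * s) ^ 3 ≤ 0.05 * (‖t‖ ^ 2 * U) := by
    have h8 := mul_le_mul_of_nonneg_left hk (by positivity : 0 ≤ 4 * ‖t‖ ^ 2)
    have h9 : 2 * (2 * R * N) * (‖t‖ * s) ^ 3 = 4 * ‖t‖ ^ 2 * (R * (d * s) * ‖t‖ * N) := by
      rw [← hss]
      ring
    rw [h9]
    have : 0 ≤ ‖t‖ ^ 2 * U := by positivity
    norm_num at h8 ⊢
    linarith
  have hlead : ‖wd (FF X u) (jv X u 2) * t ^ 2‖ = ‖t‖ ^ 2 * U := by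
    rw [norm_mul, norm_pow]
    ring
  have hq1 : ‖t‖ ^ 2 * U - 0.05 * (‖t‖ ^ 2 * U) ≤ q := by
    have h3 := norm_sub_norm_le (wd (FF X u) (jv X u 2) * t ^ 2) (wd (FF X u) (FF X (u + t • pp u)))
    rw [norm_sub_rev, hlead] at h3
    linarith
  have hq2 : q ≤ ‖t‖ ^ 2 * U + 0.05 * (‖t‖ ^ 2 * U) := by
    have h3 := norm_sub_norm_le (wd (FF X u) (FF X (u + t • pp u))) (wd (FF X u) (jv X u 2) * t ^ 2)
    rw [hlead] at h3
    linarith
  have hδt2 : δ ^ 2 * U ≤ ‖t‖ ^ 2 * U :=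
    mul_le_mul_of_nonneg_right (pow_le_pow_left₀ hδ0 e3 2) hU0
  have htδ2 : ‖t‖ ^ 2 * U ≤ 1.0201 * (δ ^ 2 * U) := by
    have h3 := mul_le_mul_of_nonneg_right (pow_le_pow_left₀ ht0 e4 2) hU0
    have h4 : (1.01 * δ) ^ 2 * U = 1.0201 * (δ ^ 2 * U) := by
      rw [mul_pow]
      norm_num
      ring
    rw [h4] at h3
    exact h3
  have hDN : 0 ≤ D * N := by positivity
  refine ⟨?_, ?_, ?_⟩
  · have h3 : q ≤ D * N * (1.01 * N) := by
      rw [← hnx]
      have := mul_le_mul_of_nonneg_left e8 hDN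
      linarith
    norm_num at h3 hq1
    nlinarith
  · have h3 : D * N * (0.99 * N) ≤ q := by
      rw [← hnx]
      have := mul_le_mul_of_nonneg_left e7 hDN
      linarith
    norm_num at h3 hq2 htδ2
    nlinarith
  · -- the derivative
    have hq'1 : 2 * (2 * R * N * s) * (‖t‖ * (2 * s)) ^ 2 ≤ 0.2 * (‖t‖ * U) := by
      have h8 := mul_le_mul_of_nonneg_left hk (by positivity : 0 ≤ 16 * ‖t‖)
      have h9 : 2 * (2 * R * N * s) * (‖t‖ * (2 * s)) ^ 2 = 16 * ‖t‖ * (R * (d * s) * ‖t‖ * N) := by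
        rw [← hss]
        ring
      rw [h9]
      have : 0 ≤ ‖t‖ * U := by positivity
      norm_num at h8 ⊢
      linarith
    have hq' : 1.8 * (‖t‖ * U) ≤ ‖(Polynomial.derivative (qe X u (FF X u))).eval t‖ := by
      have h3 := norm_sub_norm_le (wd (FF X u) (jv X u (1 + 1)) * (((1 : ℕ) : ℂ) + 1) * t)
        ((Polynomial.derivative (qe X u (FF X u))).eval t)
      rw [norm_sub_rev] at h3
      have h4 : ‖wd (FF X u) (jv X u (1 + 1)) * (((1 : ℕ) : ℂ) + 1) * t‖ = 2 * (‖t‖ * U) := by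
        rw [norm_mul, norm_mul]
        have : (((1 : ℕ) : ℂ) + 1) = 2 := by norm_num
        rw [this, Complex.norm_ofNat, hW]
        norm_num
        ring
      rw [h4] at h3
      norm_num at hq'1 hT1 h3 ⊢
      linarith
    have hhe : 0.99 * N ^ 2 ≤ ‖(he X u (FF X u)).eval t‖ := by
      have h3 := norm_sub_norm_le ((N ^ 2 : ℝ) : ℂ) ((he X u (FF X u)).eval t)
      rw [norm_sub_rev, Complex.norm_real, Real.norm_eq_abs, abs_of_nonneg (by positivity)] at h3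
      have h4 : 2 * (2 * R * N) * (‖t‖ * s) ≤ 4 * N * (N / 10000) := by
        have := mul_le_mul_of_nonneg_left e5 (by positivity : 0 ≤ 4 * N)
        linarith
      have h5 : 0 ≤ N ^ 2 := by positivity
      norm_num
      nlinarith
    have hprod : q * ‖(Polynomial.derivative (he X u (FF X u))).eval t‖ ≤
        0.01 * (N ^ 2 * (‖t‖ * U)) := by
      have h3 : q ≤ 2 * (‖t‖ ^ 2 * U) := by
        have : 0 ≤ ‖t‖ ^ 2 * U := by positivity
        norm_num at hq2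
        linarith
      calc q * ‖(Polynomial.derivative (he X u (FF X u))).eval t‖
          ≤ (2 * (‖t‖ ^ 2 * U)) * (2 * (2 * R * N * s)) :=
            mul_le_mul h3 hT2 (norm_nonneg _) (by positivity)
        _ = 8 * (‖t‖ * U) * N * (R * (‖t‖ * s)) := by ring
        _ ≤ 8 * (‖t‖ * U) * N * (N / 10000) := by gcongr
        _ ≤ 0.01 * (N ^ 2 * (‖t‖ * U)) := by
            have : 0 ≤ N ^ 2 * (‖t‖ * U) := by positivity
            norm_num
            nlinarith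
    have hWc : N ^ 2 * (‖t‖ * U) ≤ N ^ 2 * ‖Wc X u t‖ := by
      have h3 : ‖((N ^ 2 : ℝ) : ℂ) * Wc X u t‖ = N ^ 2 * ‖Wc X u t‖ := by
        rw [norm_mul, Complex.norm_real, Real.norm_eq_abs, abs_of_nonneg (by positivity)]
      rw [← h3, hid]
      have h4 := norm_sub_norm_le ((he X u (FF X u)).eval t *
        (Polynomial.derivative (qe X u (FF X u))).eval t)
        (wd (FF X u) (FF X (u + t • pp u)) * (Polynomial.derivative (he X u (FF X u))).eval t)
      rw [norm_mul, norm_mul] at h4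
      have h5 : 0.99 * N ^ 2 * (1.8 * (‖t‖ * U)) ≤ ‖(he X u (FF X u)).eval t‖ *
          ‖(Polynomial.derivative (qe X u (FF X u))).eval t‖ :=
        mul_le_mul hhe hq' (by positivity) (norm_nonneg _)
      have h6 : 0 ≤ N ^ 2 * (‖t‖ * U) := by positivity
      norm_num at h5 hprod
      nlinarith
    have hWc' : δ * U ≤ ‖Wc X u t‖ := by
      have h3 : ‖t‖ * U ≤ ‖Wc X u t‖ := le_of_mul_le_mul_left hWc (by positivity)
      have h4 : δ * U ≤ ‖t‖ * U := mul_le_mul_of_nonneg_right e3 hU0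
      linarith
    have hA : δ * U ≤ ‖aa X z‖ * ν ^ 2 := by
      rw [haa]
      have h3 : ‖Wc X u t‖ ≤ ‖Wc X u t‖ * (1 + ‖t‖ ^ 2) :=
        le_mul_of_one_le_right (norm_nonneg _) (by
          have : 0 ≤ ‖t‖ ^ 2 := by positivity
          linarith)
      linarith
    have hν2 : ν ^ 2 ≤ 2 * N ^ 2 := by
      have h3 : ν ^ 2 ≤ (1.01 * N) ^ 2 := pow_le_pow_left₀ hνp.le e8 2
      have h4 : 0 ≤ N ^ 2 := by positivity
      norm_num at h3
      nlinarith
    have hMN : N ≤ 2 * M := by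
      have h4 := mul_le_mul_of_nonneg_right e3 hs0
      have h5 := mul_le_mul_of_nonneg_left h4 (by linarith : 0 ≤ R)
      have h6 : (10 : ℝ) ^ 4 * R * s * δ ≤ N / 2 := by linarith
      linarith
    have ha0 := norm_nonneg (aa X z)
    have h3 : δ * U ≤ ‖aa X z‖ * (2 * N ^ 2) :=
      hA.trans (mul_le_mul_of_nonneg_left hν2 ha0)
    calc δ * U * M ≤ ‖aa X z‖ * (2 * N ^ 2) * M := mul_le_mul_of_nonneg_right h3 hzN.le
      _ = 2 * (‖aa X z‖ * N * M) * N := by ring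
      _ ≤ 2 * (‖aa X z‖ * N * M) * (2 * M) := by gcongr
      _ = _ := by ring

end

end Pool.Agent.H84.SG
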