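import Pool.Agent.H84.SG.NDef

/-!
# SHARP SMOOTHED FATOU: basic facts on the exponents (helper84)
-/

set_option autoImplicit false

open Finset

namespace Pool.Agent.H84.SG

theorem le_NN {D : ℕ → ℕ → ℝ} {l i : ℕ} (h : i ≤ l) : D (l + 1) i ≤ NN D l := by
  unfold NN
  exact Finset.le_sup' (fun i => D (l + 1) i) (mem_range.2 (Nat.lt_succ_of_le h))

theorem NN_mem (D : ℕ → ℕ → ℝ) (l : ℕ) : ∃ i ≤ l, NN D l = D (l + 1) i := by
  unfold NN
  obtain ⟨i, hi, h⟩ := Finset.exists_mem_eq_sup' (s := range (l + 1)) ⟨0, by simp⟩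
    (fun i => D (l + 1) i)
  exact ⟨i, Nat.lt_succ_iff.1 (mem_range.1 hi), h⟩

theorem NN_le {D : ℕ → ℕ → ℝ} {l : ℕ} {x : ℝ} (h : ∀ i ≤ l, D (l + 1) i ≤ x) : NN D l ≤ x := by
  obtain ⟨i, hi, h1⟩ := NN_mem D l
  rw [h1]
  exact h i hi

theorem mlt_nonneg (kd : ℕ → Kd) (i : ℕ) : 0 ≤ mlt kd i := by
  cases i with
  | zero => simp [mlt]
  | succ i => cases hk : kd i <;> simp [mlt, hk]

theorem mlt_le (kd : ℕ → Kd) (i : ℕ) : mlt kd i ≤ 3 := by
  cases i with
  | zero => simp [mlt]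
  | succ i => cases hk : kd i <;> simp [mlt, hk] <;> norm_num

section

variable {n : ℕ} {κ ε th hc : ℝ} {be h : ℕ → ℝ} {D : ℕ → ℕ → ℝ}

theorem NN_nonneg (E : Exs n κ th hc be h D) (l : ℕ) : 0 ≤ NN D l :=
  (E.D0 _ _).trans (le_NN (Nat.zero_le l))

/-- one near point -/
theorem MM_le_one (kd : ℕ → Kd) {l j : ℕ} {x y : ℝ} (hx : 0 ≤ x) (hy : 0 ≤ y)
    (hj : D (l + 1) j ≤ 1 / 2 + x) (ho : ∀ i ≤ l, i ≠ j → D (l + 1) i ≤ 1 / 2 + y) :
    MM kd D l ≤ mlt kd j * x + 3 * (l + 1) * y := by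
  have h1 : ∀ i ∈ range (l + 1), mlt kd i * max 0 (D (l + 1) i - 1 / 2) ≤
      (if i = j then mlt kd j * x else 0) + 3 * y := by
    intro i hi
    have hi' : i ≤ l := Nat.lt_succ_iff.1 (mem_range.1 hi)
    have hm0 := mlt_nonneg kd i
    have hm3 := mlt_le kd i
    by_cases h : i = j
    · rw [if_pos h, h]
      have h2 : max 0 (D (l + 1) j - 1 / 2) ≤ x := max_le hx (by linarith)
      rw [h] at hm0
      have h3 := mul_le_mul_of_nonneg_left h2 hm0
      linarith
    · rw [if_neg h, zero_add]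
      have h2 : max 0 (D (l + 1) i - 1 / 2) ≤ y := max_le hy (by linarith [ho i hi' h])
      calc mlt kd i * max 0 (D (l + 1) i - 1 / 2) ≤ mlt kd i * y :=
            mul_le_mul_of_nonneg_left h2 hm0
        _ ≤ 3 * y := mul_le_mul_of_nonneg_right hm3 hy
  unfold MM
  refine (sum_le_sum h1).trans ?_
  rw [sum_add_distrib, sum_const, card_range, nsmul_eq_mul]
  have h2 : ∑ i ∈ range (l + 1), (if i = j then mlt kd j * x else 0) ≤ mlt kd j * x := by
    rw [sum_ite_eq']
    split_ifs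
    · exact le_rfl
    · exact mul_nonneg (mlt_nonneg kd j) hx
  push_cast
  linarith

/-- a new point -/
theorem MM_new (kd : ℕ → Kd) {l : ℕ} {y : ℝ} (hy : 0 ≤ y) (hl : NN D l ≤ 1 / 2 + y) :
    MM kd D l ≤ 3 * (l + 1) * y := by
  have h1 : ∀ i ∈ range (l + 1), mlt kd i * max 0 (D (l + 1) i - 1 / 2) ≤ 3 * y := by
    intro i hi
    have hi' : i ≤ l := Nat.lt_succ_iff.1 (mem_range.1 hi)
    have h2 : max 0 (D (l + 1) i - 1 / 2) ≤ y :=
      max_le hy (by linarith [le_NN (D := D) hi'])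
    calc mlt kd i * max 0 (D (l + 1) i - 1 / 2) ≤ mlt kd i * y :=
          mul_le_mul_of_nonneg_left h2 (mlt_nonneg kd i)
      _ ≤ 3 * y := mul_le_mul_of_nonneg_right (mlt_le kd i) hy
  unfold MM
  refine (sum_le_sum h1).trans ?_
  rw [sum_const, card_range, nsmul_eq_mul]
  push_cast
  linarith

/-- the cost without the loss of the new points -/
noncomputable def cs (kd : ℕ → Kd) (be h : ℕ → ℝ) (D : ℕ → ℕ → ℝ) (l : ℕ) : ℝ :=
  match kd l with
  | .full => 2 * be l + 4 * h l + 2 * NN D (l + 1)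
  | .free => 0
  | .der => 2 * be l - 2 * MM kd D l
  | .pos => 2 * NN D (l + 1) - 2 * MM kd D l

theorem gen (hκ : 0 ≤ κ) (C : Cst n ε th hc be h D) {L : ℕ} (hL : L ≤ n + 1) (kd : ℕ → Kd)
    (hκ1 : κ ≤ 1 / 4) (hnew : ∀ l < L, kd l = .full → NN D l ≤ 1 / 2 + 4 * κ)
    (hnon : ∀ l < L, kd l ≠ .full → kd l ≠ .free → NN D l ≤ 3 / 2) :
    4 * th + 4 * hc + 2 * NN D 0 + ∑ l ∈ range L, cs kd be h D l ≤
      2 - ε + 72 * (n + 2) ^ 2 * κ := by
  have h1 := C L hL kd (fun l hl hk => by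
    by_cases hf : kd l = .full
    · linarith [hnew l hl hf]
    · exact hnon l hl hf hk)
  have h2 : ∑ l ∈ range L, cs kd be h D l ≤ ∑ l ∈ range L, cst kd be h D l +
      72 * (n + 2) ^ 2 * κ := by
    have h3 : ∀ l ∈ range L, cs kd be h D l ≤ cst kd be h D l + 72 * (n + 2) * κ := by
      intro l hl
      have hl' : l < L := mem_range.1 hl
      have hln : (l : ℝ) + 1 ≤ n + 2 := by
        have : l + 1 ≤ n + 2 := by omega
        exact_mod_cast this
      have h0 : (0 : ℝ) ≤ 72 * (n + 2) * κ := by positivity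
      unfold cs cst
      cases hk : kd l with
      | full =>
        simp only
        have h4 := MM_new kd (D := D) (by positivity : (0 : ℝ) ≤ 4 * κ) (hnew l hl' hk)
        have h5 : 6 * (3 * ((l : ℝ) + 1) * (4 * κ)) ≤ 72 * (n + 2) * κ := by
          have := mul_le_mul_of_nonneg_right hln hκ
          nlinarith
        linarith
      | free =>
        simp only
        linarith
      | der =>
        simp only
        linarith
      | pos =>
        simp only
        linarith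
    refine (sum_le_sum h3).trans ?_
    rw [sum_add_distrib, sum_const, card_range, nsmul_eq_mul]
    have h6 : (L : ℝ) ≤ n + 2 := by
      have : L ≤ n + 2 := by omega
      exact_mod_cast this
    have h7 : (0 : ℝ) ≤ 72 * (n + 2) * κ := by positivity
    have h8 := mul_le_mul_of_nonneg_right h6 h7
    nlinarith
  linarith

/-- the steps before a given time, all points new -/
noncomputable def AA (th hc : ℝ) (be h : ℕ → ℝ) (D : ℕ → ℕ → ℝ) (T : ℕ) : ℝ :=
  4 * th + 4 * hc + ∑ l ∈ range T, (2 * be l + 4 * h l + 2 * NN D l)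

theorem AA_eq (T : ℕ) : 4 * th + 4 * hc + 2 * NN D 0 +
    ∑ l ∈ range T, (2 * be l + 4 * h l + 2 * NN D (l + 1)) = AA th hc be h D T + 2 * NN D T := by
  unfold AA
  induction T with
  | zero => simp
  | succ T ih =>
    rw [sum_range_succ, sum_range_succ]
    linarith

theorem AA_zero : AA th hc be h D 0 = 4 * th + 4 * hc := by
  unfold AA
  simp

theorem AA_mono (E : Exs n κ th hc be h D) {S T : ℕ} (h1 : S ≤ T) :
    AA th hc be h D S ≤ AA th hc be h D T := by
  unfold AA
  have : ∑ l ∈ range S, (2 * be l + 4 * h l + 2 * NN D l) ≤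
      ∑ l ∈ range T, (2 * be l + 4 * h l + 2 * NN D l) := by
    refine sum_le_sum_of_subset_of_nonneg (range_subset_range.2 h1) fun l _ _ => ?_
    have := E.be0 l
    have := E.h0 l
    have := NN_nonneg E l
    linarith
  linarith

/-- `be` part -/
theorem AA_be (E : Exs n κ th hc be h D) (T : ℕ) :
    4 * th + 4 * hc + 2 * ∑ l ∈ range T, be l ≤ AA th hc be h D T := by
  unfold AA
  rw [mul_sum]
  have : ∑ l ∈ range T, 2 * be l ≤ ∑ l ∈ range T, (2 * be l + 4 * h l + 2 * NN D l) := by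
    refine sum_le_sum fun l _ => ?_
    have := E.h0 l
    have := NN_nonneg E l
    linarith
  linarith

/-- one point and one distance -/
theorem AA_one (E : Exs n κ th hc be h D) {T j a b : ℕ} (hj : j < T) (ha : a ≤ T) (hb : b ≤ T)
    (hab : a ≠ b) : 4 * th + 4 * hc + 2 * be j + 4 * h j + 2 * D a b ≤ AA th hc be h D T := by
  wlog hlt : b < a generalizing a b
  · rw [E.sym a b]
    exact this hb ha (Ne.symm hab) (lt_of_le_of_ne (not_lt.1 hlt) hab)
  obtain ⟨m, rfl⟩ : ∃ m, a = m + 1 := ⟨a - 1, by omega⟩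
  have h1 : D (m + 1) b ≤ NN D m := le_NN (by omega)
  unfold AA
  have h2 : 2 * be j + 4 * h j ≤ ∑ l ∈ range T, (2 * be l + 4 * h l) := by
    refine single_le_sum (f := fun l => 2 * be l + 4 * h l) (fun l _ => ?_) (mem_range.2 hj)
    have := E.be0 l
    have := E.h0 l
    linarith
  have h3 : 2 * NN D m ≤ ∑ l ∈ range T, 2 * NN D l := by
    refine single_le_sum (f := fun l => 2 * NN D l) (fun l _ => ?_) (mem_range.2 (by omega))
    have := NN_nonneg E l
    linarith
  rw [sum_add_distrib]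
  linarith

/-- one distance -/
theorem AA_dist (E : Exs n κ th hc be h D) {T a b : ℕ} (ha : a ≤ T) (hb : b ≤ T)
    (hab : a ≠ b) : 4 * th + 4 * hc + 2 * D a b ≤ AA th hc be h D T := by
  have hT : 0 < T := by omega
  have := AA_one E hT ha hb hab
  have := E.be0 0
  have := E.h0 0
  linarith

/-- one point -/
theorem AA_pt (E : Exs n κ th hc be h D) {T j : ℕ} (hj : j < T) :
    4 * th + 4 * hc + 2 * be j + 4 * h j ≤ AA th hc be h D T := by
  have := AA_one E hj (a := 1) (b := 0) (by omega) (by omega) (by omega)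
  have := E.D0 1 0
  linarith

end

end Pool.Agent.H84.SG
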