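import Pool.Agent.H84.SG.NTot

/-!
# SHARP SMOOTHED FATOU: the first near point is `y_T`, `T ≥ 1` (helper84)

`x` is the exponent beyond `1/2` of the smallest distance at `T`. Cases: near `y_(j-1)` (`j ≥ 1`), near `c` (`j = 0`) in the
quadratic zone (`th, hc < x`) or not.
-/

set_option autoImplicit false

open Finset

namespace Pool.Agent.H84.SG

section

variable {n : ℕ} {κ ε th hc : ℝ} {be h : ℕ → ℝ} {D : ℕ → ℕ → ℝ}

/-- the kind `k` at `T`, all others full -/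
def k1 (T : ℕ) (k : Kd) : ℕ → Kd := fun l => if l = T then k else .full

theorem k1_mlt {T j : ℕ} (k : Kd) (hj : j ≤ T) (h0 : j ≠ 0) : mlt (k1 T k) j = 2 := by
  obtain ⟨i, rfl⟩ : ∃ i, j = i + 1 := ⟨j - 1, by omega⟩
  have h1 : k1 T k i = .full := by
    unfold k1
    rw [if_neg (by omega)]
  simp [mlt, h1]

theorem num1 (hκ : 0 ≤ κ) : κ ≤ ((n : ℝ) + 3) ^ 2 * κ := by
  have h1 : (1 : ℝ) ≤ ((n : ℝ) + 3) ^ 2 := by
    have : (0 : ℝ) ≤ n := Nat.cast_nonneg n
    nlinarith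
  nlinarith

theorem num2 (hκ : 0 ≤ κ) : 72 * ((n : ℝ) + 2) ^ 2 * κ ≤ 72 * (((n : ℝ) + 3) ^ 2 * κ) := by
  have h0 : (0 : ℝ) ≤ n := Nat.cast_nonneg n
  have h1 : ((n : ℝ) + 2) ^ 2 ≤ ((n : ℝ) + 3) ^ 2 := by nlinarith
  nlinarith

theorem num3 (hκ : 0 ≤ κ) {l : ℕ} (hl : l ≤ n + 1) :
    ((l : ℝ) + 1) * κ ≤ ((n : ℝ) + 3) ^ 2 * κ := by
  have h0 : (0 : ℝ) ≤ n := Nat.cast_nonneg n
  have h1 : (l : ℝ) ≤ n + 1 := by exact_mod_cast hl
  have h2 : (l : ℝ) + 1 ≤ ((n : ℝ) + 3) ^ 2 := by nlinarith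
  exact mul_le_mul_of_nonneg_right h2 hκ

/-- the total before the near point -/
theorem evB (hκ : 0 ≤ κ) (hκ1 : κ ≤ 1 / 4) (C : Cst n ε th hc be h D) {T : ℕ} (hL : T ≤ n + 1)
    (h1' : ∀ l < T, NN D l ≤ 1 / 2 + 4 * κ) :
    AA th hc be h D T + 2 * NN D T ≤ 2 - ε + 72 * (((n : ℝ) + 3) ^ 2 * κ) := by
  have h1 := totf hκ hκ1 C (T := T) (S := T) (L := T) le_rfl le_rfl hL h1' (fun l _ _ => by omega)
  rw [Ico_self, sum_empty] at h1
  have h4 := num2 (n := n) hκ
  linarith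

/-- the distance at the near point is at least `1 / d` -/
theorem evB1 (hκ : 0 ≤ κ) (hκ1 : κ ≤ 1 / 4) (hε : 10000 * (((n : ℝ) + 3) ^ 2 * κ) ≤ ε)
    (C : Cst n ε th hc be h D) (E : Exs n κ th hc be h D) {T : ℕ} (hL : T ≤ n + 1)
    (h1' : ∀ l < T, NN D l ≤ 1 / 2 + 4 * κ) : NN D T ≤ 1 := by
  have h1 := evB hκ hκ1 C hL h1'
  have h2 := AA_mono E (Nat.zero_le T)
  rw [AA_zero] at h2
  have := E.th0
  have := E.hc0
  have h3 : 0 ≤ ((n : ℝ) + 3) ^ 2 * κ := by positivity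
  linarith

theorem kap1 (hκ : 0 ≤ κ) (hε : 10000 * (((n : ℝ) + 3) ^ 2 * κ) ≤ ε) (hε1 : ε ≤ 1) :
    κ ≤ 1 / 4 := by
  have := num1 (n := n) hκ
  linarith

/-- derivative event at the first near point -/
theorem evD (hκ : 0 ≤ κ) (hκ1 : κ ≤ 1 / 4) (C : Cst n ε th hc be h D) (E : Exs n κ th hc be h D) {T L j : ℕ}
    (hTL : T < L) (hL : L ≤ n + 1) (h1' : ∀ l < T, NN D l ≤ 1 / 2 + 4 * κ) (hj : j ≤ T)
    (hjN : NN D T = D (T + 1) j) (hx : 1 / 2 ≤ NN D T) (h32 : NN D T ≤ 1)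
    (h3' : ∀ l, T < l → l < L → NN D l ≤ 1 / 2 + 4 * κ) :
    AA th hc be h D T + 2 * NN D T + 2 * be T - 2 * (mlt (k1 T .der) j * (NN D T - 1 / 2)) +
      ∑ l ∈ Ico (T + 1) L, FL be h D l ≤ 2 - ε + 102 * (((n : ℝ) + 3) ^ 2 * κ) := by
  have h1 := tot1 hκ hκ1 C hTL hL .der (by decide) (by linarith) h1' h3'
  have h2 : cs (k1 T .der) be h D T = 2 * be T - 2 * MM (k1 T .der) D T := by
    unfold cs
    have : k1 T .der T = .der := if_pos rfl
    rw [this]
  have h3 := MM_le_one (D := D) (k1 T .der) (l := T) (j := j) (x := NN D T - 1 / 2)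
    (y := 5 * κ) (by linarith) (by linarith) (by linarith) (onen E (by omega) h1' hj hjN)
  have h4 := num2 (n := n) hκ
  have h5 := num3 (n := n) hκ (l := T) (by omega)
  have h6 : cs (fun l => if l = T then Kd.der else .full) be h D T = cs (k1 T .der) be h D T := rfl
  rw [h6, h2] at h1
  linarith

/-- position event at the first near point -/
theorem evP (hκ : 0 ≤ κ) (hκ1 : κ ≤ 1 / 4) (C : Cst n ε th hc be h D) (E : Exs n κ th hc be h D) {T j : ℕ}
    (hL : T ≤ n) (h1' : ∀ l < T, NN D l ≤ 1 / 2 + 4 * κ) (hj : j ≤ T)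
    (hjN : NN D T = D (T + 1) j) (hx : 1 / 2 ≤ NN D T) (h32 : NN D T ≤ 1) :
    AA th hc be h D T + 2 * NN D T + 2 * NN D (T + 1) -
      2 * (mlt (k1 T .pos) j * (NN D T - 1 / 2)) ≤ 2 - ε + 102 * (((n : ℝ) + 3) ^ 2 * κ) := by
  have h1 := tot1 hκ hκ1 C (L := T + 1) (Nat.lt_succ_self T) (by omega) .pos (by decide)
    (by linarith) h1'
    (fun l _ _ => by omega)
  have h2 : cs (k1 T .pos) be h D T = 2 * NN D (T + 1) - 2 * MM (k1 T .pos) D T := by
    unfold cs
    have : k1 T .pos T = .pos := if_pos rfl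
    rw [this]
  have h3 := MM_le_one (D := D) (k1 T .pos) (l := T) (j := j) (x := NN D T - 1 / 2)
    (y := 5 * κ) (by linarith) (by linarith) (by linarith) (onen E (by omega) h1' hj hjN)
  have h4 := num2 (n := n) hκ
  have h5 := num3 (n := n) hκ (l := T) (by omega)
  have h6 : cs (fun l => if l = T then Kd.pos else .full) be h D T = cs (k1 T .pos) be h D T := rfl
  rw [h6, h2, Ico_self, sum_empty] at h1
  linarith

/-- near a point of the orbit: the next point is new -/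
theorem bet_new (hκ : 0 < κ) (hε : 10000 * (((n : ℝ) + 3) ^ 2 * κ) ≤ ε) (hε1 : ε ≤ 1)
    (C : Cst n ε th hc be h D) (E : Exs n κ th hc be h D) {T j : ℕ} (hL : T ≤ n)
    (h1' : ∀ l < T, NN D l ≤ 1 / 2 + 4 * κ) (hj : j ≤ T) (hj0 : j ≠ 0)
    (hjN : NN D T = D (T + 1) j) (hx : 1 / 2 + 4 * κ < NN D T) :
    NN D (T + 1) ≤ 1 / 2 + 4 * κ := by
  by_contra hcon
  rw [not_le] at hcon
  obtain ⟨i, hi, hiN⟩ := NN_mem D (T + 1)
  obtain ⟨j', rfl⟩ : ∃ j', j = j' + 1 := ⟨j - 1, by omega⟩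
  have hκs := num1 (n := n) hκ.le
  have hκ1 := kap1 hκ.le hε hε1
  have h32 := evB1 hκ.le hκ1 hε C E (T := T) (by omega) h1'
  have hP := evP hκ.le hκ1 C E hL h1' hj hjN (by linarith) h32
  rw [k1_mlt _ hj hj0] at hP
  have hB := evB hκ.le hκ1 C (T := T) (by omega) h1'
  have hA1 := AA_pt E (T := T) (j := j') (by omega)
  have t0 := E.th0
  have t1 := E.hc0
  have t2 := E.be0 j'
  have t3 := E.h0 j'
  have hlin1 : be j' + κ < D (T + 1) (j' + 1) - 1 / 2 := by
    rw [← hjN]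
    linarith
  have hlin2 : h j' + κ < D (T + 1) (j' + 1) - 1 / 2 := by
    rw [← hjN]
    linarith
  have h33 : D (T + 1) (j' + 1) ≤ 1 := by
    rw [← hjN]
    exact h32
  have g0 := E.lg0 j' T (by omega) hL h33 hlin1 hlin2
  have g1 := E.lg1 j' T (by omega) hL h33 hlin1 hlin2
  rw [← hjN] at g0 g1
  have hfar : D (T + 2) (j' + 2) < 1 / 2 := by linarith
  -- the two old points
  have key : ∀ a b, a ≤ T → b ≤ T → a ≠ b →
      be j' + (NN D T - 1 / 2) - h j' - 4 * κ ≤ D a b → False := by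
    intro a b ha hb hab hab'
    have := AA_one E (T := T) (j := j') (by omega) ha hb hab
    linarith
  have hiN' : 1 / 2 + 4 * κ < D (T + 2) i := by
    rw [← hiN]
    exact hcon
  have hij : i ≠ j' + 2 := by
    rintro rfl
    linarith
  have tr : ∀ a ≤ T + 1, a ≠ j' + 2 → 1 / 2 ≤ D (T + 2) a →
      be j' + (NN D T - 1 / 2) - h j' - 2 * κ ≤ D a (j' + 2) := by
    intro a ha haj hD
    have h1 := E.tri a (T + 2) (j' + 2) (by omega) (by omega) (by omega) haj
    have h2 : be j' + (NN D T - 1 / 2) - h j' - κ ≤ min (D a (T + 2)) (D (T + 2) (j' + 2)) := by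
      refine le_min ?_ g0
      rw [E.sym a (T + 2)]
      linarith
    linarith
  by_cases hiT : i ≤ T
  · by_cases hjT : j' + 2 ≤ T
    · exact key i (j' + 2) hiT hjT hij (by linarith [tr i (by omega) hij (by linarith)])
    · have hjT' : T = j' + 1 := by omega
      subst hjT'
      by_cases hi1 : i = j' + 1
      · subst hi1
        have h1 := E.tri (j' + 1 + 2) (j' + 1) (j' + 2) (by omega) (by omega) (by omega) (by omega)
        have h2 : 1 / 2 + 4 * κ ≤ min (D (j' + 1 + 2) (j' + 1)) (D (j' + 1) (j' + 2)) := by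
          refine le_min hiN'.le ?_
          rw [E.sym (j' + 1) (j' + 2)]
          rw [hjN] at hx
          exact hx.le
        linarith
      · have h1 := tr i (by omega) hij (by linarith)
        have h2 := E.tri i (j' + 2) (j' + 1) (by omega) (by omega) (by omega) hi1
        have h3 : be j' + (NN D (j' + 1) - 1 / 2) - h j' - 2 * κ ≤
            min (D i (j' + 2)) (D (j' + 2) (j' + 1)) := by
          refine le_min h1 ?_
          have : D (j' + 2) (j' + 1) = NN D (j' + 1) := hjN.symm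
          rw [this]
          linarith
        exact key i (j' + 1) hiT le_rfl hi1 (by linarith)
  · have hi2 : i = T + 1 := by omega
    subst hi2
    have hjT : j' + 2 ≤ T := by omega
    have h1 := E.tri (T + 2) (T + 1) (j' + 1) (by omega) (by omega) (by omega) (by omega)
    have h2 : 1 / 2 + 4 * κ ≤ min (D (T + 2) (T + 1)) (D (T + 1) (j' + 1)) := by
      refine le_min hiN'.le ?_
      rw [← hjN]
      exact hx.le
    have h3 := tr (j' + 1) (by omega) (by omega) (by linarith)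
    exact key (j' + 1) (j' + 2) hj hjT (by omega) (by linarith)

/-- near `c`, outside the quadratic zone: the next point is new -/
theorem al2_new (hκ : 0 < κ) (hε : 10000 * (((n : ℝ) + 3) ^ 2 * κ) ≤ ε) (hε1 : ε ≤ 1)
    (C : Cst n ε th hc be h D) (E : Exs n κ th hc be h D) {T : ℕ} (hL : T ≤ n)
    (h1' : ∀ l < T, NN D l ≤ 1 / 2 + 4 * κ) (hjN : NN D T = D (T + 1) 0)
    (hx : 1 / 2 + 4 * κ < NN D T) (hm : NN D T - 1 / 2 ≤ max th hc + 4 * κ) :
    NN D (T + 1) ≤ 1 / 2 + 4 * κ := by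
  have hκs := num1 (n := n) hκ.le
  have hκ1 := kap1 hκ.le hε hε1
  have h32 := evB1 hκ.le hκ1 hε C E (T := T) (by omega) h1'
  have hP := evP hκ.le hκ1 C E hL h1' (Nat.zero_le T) hjN (by linarith) h32
  have hm3 : mlt (k1 T .pos) 0 = 3 := rfl
  rw [hm3] at hP
  have hA0 := AA_mono E (Nat.zero_le T)
  rw [AA_zero] at hA0
  have t0 := E.th0
  have t1 := E.hc0
  have hmax : max th hc ≤ th + hc := max_le (by linarith) (by linarith)
  linarith

/-- near `c`, in the quadratic zone: the next point can be near the critical value only -/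
theorem al1_only (hκ : 0 < κ) (hε : 10000 * (((n : ℝ) + 3) ^ 2 * κ) ≤ ε) (hε1 : ε ≤ 1)
    (C : Cst n ε th hc be h D) (E : Exs n κ th hc be h D) {T : ℕ} (hT : 1 ≤ T) (hL : T ≤ n)
    (h1' : ∀ l < T, NN D l ≤ 1 / 2 + 4 * κ) (hjN : NN D T = D (T + 1) 0)
    (hx : 1 / 2 + 4 * κ < NN D T) (hm1 : th + κ < NN D T - 1 / 2)
    (hm2 : hc + κ < NN D T - 1 / 2) :
    ∀ i ≤ T + 1, i ≠ 1 → D (T + 2) i ≤ 1 / 2 + 4 * κ := by
  have hκs := num1 (n := n) hκ.le
  have hκ1 := kap1 hκ.le hε hε1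
  have h32 := evB1 hκ.le hκ1 hε C E (T := T) (by omega) h1'
  have hP := evP hκ.le hκ1 C E hL h1' (Nat.zero_le T) hjN (by linarith) h32
  have hm3 : mlt (k1 T .pos) 0 = 3 := rfl
  rw [hm3] at hP
  have hB := evB hκ.le hκ1 C (T := T) (by omega) h1'
  have hA0 := AA_mono E (Nat.zero_le T)
  rw [AA_zero] at hA0
  have t0 := E.th0
  have t1 := E.hc0
  rw [hjN] at hm1 hm2
  have g0 := E.lc2 T hL (by rw [← hjN]; exact h32) hm1 hm2
  rw [← hjN] at g0
  have key : ∀ i ≤ T, i ≠ 1 → D (T + 2) i ≤ 1 / 2 + 3 * κ := by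
    intro i hi hi1
    by_contra hcon
    rw [not_le] at hcon
    have hNN : D (T + 2) i ≤ NN D (T + 1) := le_NN (by omega)
    have h1 := E.tri i (T + 2) 1 (by omega) (by omega) (by omega) hi1
    have h2 := AA_dist E (T := T) hi hT hi1
    rw [E.sym i (T + 2)] at h1
    rcases le_total (D (T + 2) i) (D (T + 2) 1) with h3 | h3
    · rw [min_eq_left h3] at h1
      linarith
    · rw [min_eq_right h3] at h1
      linarith
  intro i hi hi1
  by_cases hiT : i ≤ T
  · linarith [key i hiT hi1]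
  · have hi2 : i = T + 1 := by omega
    subst hi2
    by_contra hcon
    rw [not_le] at hcon
    have h1 := E.tri (T + 2) (T + 1) 0 (by omega) (by omega) (by omega) (by omega)
    have h2 : 1 / 2 + 4 * κ < min (D (T + 2) (T + 1)) (D (T + 1) 0) := by
      refine lt_min hcon ?_
      rw [← hjN]
      exact hx
    have h3 := key 0 (Nat.zero_le T) (by omega)
    linarith

end

end Pool.Agent.H84.SG
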