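import Pool.Agent.H84.SG.NBas

/-!
# SHARP SMOOTHED FATOU: total costs (helper84)
-/

set_option autoImplicit false

open Finset

namespace Pool.Agent.H84.SG

/-- the cost of a new point -/
noncomputable def FL (be h : ℕ → ℝ) (D : ℕ → ℕ → ℝ) (l : ℕ) : ℝ :=
  2 * be l + 4 * h l + 2 * NN D (l + 1)

section

variable {n : ℕ} {κ ε th hc : ℝ} {be h : ℕ → ℝ} {D : ℕ → ℕ → ℝ}

theorem FL_nonneg (E : Exs n κ th hc be h D) (l : ℕ) : 0 ≤ FL be h D l := by
  unfold FL
  have := E.be0 l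
  have := E.h0 l
  have := NN_nonneg E (l + 1)
  linarith

/-- full before `T`, full from `S` on -/
theorem tot (hκ : 0 ≤ κ) (hκ1 : κ ≤ 1 / 4) (C : Cst n ε th hc be h D) {T S L : ℕ} (hTS : T ≤ S) (hSL : S ≤ L)
    (hL : L ≤ n + 1) (kd : ℕ → Kd) (h1 : ∀ l < T, kd l = .full)
    (h1' : ∀ l < T, NN D l ≤ 1 / 2 + 4 * κ) (h2 : ∀ l, T ≤ l → l < S → kd l ≠ .full)
    (h2' : ∀ l, T ≤ l → l < S → kd l ≠ .free → NN D l ≤ 3 / 2)
    (h3 : ∀ l, S ≤ l → l < L → kd l = .full)
    (h3' : ∀ l, S ≤ l → l < L → NN D l ≤ 1 / 2 + 4 * κ) :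
    AA th hc be h D T + 2 * NN D T + ∑ l ∈ Ico T S, cs kd be h D l +
      ∑ l ∈ Ico S L, FL be h D l ≤ 2 - ε + 72 * (n + 2) ^ 2 * κ := by
  have hg := gen hκ C hL kd hκ1 (fun l hl hk => by
    by_cases hlT : l < T
    · exact h1' l hlT
    · by_cases hlS : l < S
      · exact absurd hk (h2 l (not_lt.1 hlT) hlS)
      · exact h3' l (not_lt.1 hlS) hl)
    (fun l hl hk hk' => by
      by_cases hlT : l < T
      · exact absurd (h1 l hlT) hk
      · by_cases hlS : l < S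
        · exact h2' l (not_lt.1 hlT) hlS hk'
        · exact absurd (h3 l (not_lt.1 hlS) hl) hk)
  have e1 : ∑ l ∈ range L, cs kd be h D l = ∑ l ∈ range T, cs kd be h D l +
      ∑ l ∈ Ico T S, cs kd be h D l + ∑ l ∈ Ico S L, cs kd be h D l := by
    rw [range_eq_Ico, range_eq_Ico, sum_Ico_consecutive _ (Nat.zero_le T) hTS,
      sum_Ico_consecutive _ (Nat.zero_le S) hSL]
  have e2 : ∑ l ∈ range T, cs kd be h D l =
      ∑ l ∈ range T, (2 * be l + 4 * h l + 2 * NN D (l + 1)) := by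
    refine sum_congr rfl fun l hl => ?_
    unfold cs
    rw [h1 l (mem_range.1 hl)]
  have e3 : ∑ l ∈ Ico S L, cs kd be h D l = ∑ l ∈ Ico S L, FL be h D l := by
    refine sum_congr rfl fun l hl => ?_
    rw [mem_Ico] at hl
    unfold cs FL
    rw [h3 l hl.1 hl.2]
  have e4 := AA_eq (th := th) (hc := hc) (be := be) (h := h) (D := D) T
  rw [e1, e2, e3] at hg
  linarith

/-- near step `T`, of any kind -/
theorem tot1 (hκ : 0 ≤ κ) (hκ1 : κ ≤ 1 / 4) (C : Cst n ε th hc be h D) {T L : ℕ} (hTL : T < L)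
    (hL : L ≤ n + 1) (k : Kd) (hk : k ≠ .full) (h32 : NN D T ≤ 3 / 2) (h1' : ∀ l < T, NN D l ≤ 1 / 2 + 4 * κ)
    (h3' : ∀ l, T < l → l < L → NN D l ≤ 1 / 2 + 4 * κ) :
    AA th hc be h D T + 2 * NN D T + cs (fun l => if l = T then k else .full) be h D T +
      ∑ l ∈ Ico (T + 1) L, FL be h D l ≤ 2 - ε + 72 * (n + 2) ^ 2 * κ := by
  have h := tot hκ hκ1 C (T := T) (S := T + 1) (L := L) (Nat.le_succ T) hTL hL
    (fun l => if l = T then k else .full) (fun l hl => if_neg (by omega)) h1'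
    (fun l hl hl' => by
      have : l = T := by omega
      rw [this]
      simpa using hk)
    (fun l hl hl' _ => by
      have : l = T := by omega
      rw [this]
      exact h32)
    (fun l hl _ => if_neg (by omega)) (fun l hl hl' => h3' l (by omega) hl')
  rw [Nat.Ico_succ_singleton, sum_singleton] at h
  exact h

/-- near steps free -/
theorem totf (hκ : 0 ≤ κ) (hκ1 : κ ≤ 1 / 4) (C : Cst n ε th hc be h D) {T S L : ℕ} (hTS : T ≤ S) (hSL : S ≤ L)
    (hL : L ≤ n + 1) (h1' : ∀ l < T, NN D l ≤ 1 / 2 + 4 * κ)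
    (h3' : ∀ l, S ≤ l → l < L → NN D l ≤ 1 / 2 + 4 * κ) :
    AA th hc be h D T + 2 * NN D T + ∑ l ∈ Ico S L, FL be h D l ≤
      2 - ε + 72 * (n + 2) ^ 2 * κ := by
  have hh := tot hκ hκ1 C hTS hSL hL (fun l => if T ≤ l ∧ l < S then .free else .full)
    (fun l hl => if_neg (by omega)) h1'
    (fun l hl hl' => by simp [hl, hl'])
    (fun l hl hl' hf => by simp [hl, hl'] at hf)
    (fun l hl _ => if_neg (by omega)) h3'
  have h0 : ∑ l ∈ Ico T S, cs (fun l => if T ≤ l ∧ l < S then Kd.free else .full) be h D l =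
      0 := by
    refine sum_eq_zero fun l hl => ?_
    rw [mem_Ico] at hl
    simp [cs, hl.1, hl.2]
  rw [h0, add_zero] at hh
  exact hh

/-- after the near run all points are new -/
theorem aft (hκ : 0 ≤ κ) (hκ1 : κ ≤ 1 / 4) (C : Cst n ε th hc be h D) (E : Exs n κ th hc be h D)
    (hε : 72 * (n + 2) ^ 2 * κ ≤ ε) {T S : ℕ} (hTS : T ≤ S)
    (h1' : ∀ l < T, NN D l ≤ 1 / 2 + 4 * κ) (hT : 1 / 2 + 4 * κ < NN D T)
    (hS : NN D S ≤ 1 / 2 + 4 * κ) : ∀ l, S ≤ l → l ≤ n + 1 → NN D l ≤ 1 / 2 + 4 * κ := by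
  intro l
  induction l using Nat.strong_induction_on with
  | _ l ih =>
    intro hl hln
    rcases Nat.lt_or_ge S l with hlt | hge
    · by_contra hcon
      rw [not_le] at hcon
      obtain ⟨m, rfl⟩ : ∃ m, l = m + 1 := ⟨l - 1, by omega⟩
      have hh := totf hκ hκ1 C hTS hl hln h1' (fun l' h1 h2 => ih l' h2 h1 (by omega))
      have h2 : FL be h D m ≤ ∑ l ∈ Ico S (m + 1), FL be h D l :=
        single_le_sum (f := fun l => FL be h D l) (fun l _ => FL_nonneg E l)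
          (mem_Ico.2 ⟨by omega, by omega⟩)
      have h3 : 2 * NN D (m + 1) ≤ FL be h D m := by
        unfold FL
        have := E.be0 m
        have := E.h0 m
        linarith
      have h4 := AA_mono E (Nat.zero_le T)
      rw [AA_zero] at h4
      have := E.th0
      have := E.hc0
      linarith
    · have : l = S := le_antisymm hge hl
      rw [this]
      exact hS

theorem FL_be (E : Exs n κ th hc be h D) (S L : ℕ) :
    2 * ∑ l ∈ Ico S L, be l ≤ ∑ l ∈ Ico S L, FL be h D l := by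
  rw [mul_sum]
  refine sum_le_sum fun l _ => ?_
  unfold FL
  have := E.h0 l
  have := NN_nonneg E (l + 1)
  linarith

/-- distances between new points -/
theorem old (E : Exs n κ th hc be h D) {T : ℕ} (h1' : ∀ l < T, NN D l ≤ 1 / 2 + 4 * κ) {a b : ℕ}
    (ha : a ≤ T) (hb : b ≤ T) (hab : a ≠ b) : D a b ≤ 1 / 2 + 4 * κ := by
  wlog hlt : b < a generalizing a b
  · rw [E.sym a b]
    exact this hb ha (Ne.symm hab) (lt_of_le_of_ne (not_lt.1 hlt) hab)
  obtain ⟨m, rfl⟩ : ∃ m, a = m + 1 := ⟨a - 1, by omega⟩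
  exact (le_NN (D := D) (l := m) (by omega)).trans (h1' m (by omega))

/-- only one old point is near -/
theorem onen (E : Exs n κ th hc be h D) {T : ℕ} (hTn : T + 1 ≤ n + 2)
    (h1' : ∀ l < T, NN D l ≤ 1 / 2 + 4 * κ) {j : ℕ} (hj : j ≤ T) (hjN : NN D T = D (T + 1) j) :
    ∀ i ≤ T, i ≠ j → D (T + 1) i ≤ 1 / 2 + 5 * κ := by
  intro i hi hij
  have h1 := E.tri i (T + 1) j (by omega) (by omega) (by omega) hij
  have h2 := old E h1' hi hj hij
  have h3 : D (T + 1) i ≤ D (T + 1) j := by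
    rw [← hjN]
    exact le_NN hi
  rw [E.sym i (T + 1), min_eq_left h3] at h1
  linarith

end

end Pool.Agent.H84.SG
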