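import Pool.Agent.H84.SG.NOne

/-!
# SHARP SMOOTHED FATOU: the growth if the first near point is `y_T`, `T ≥ 1` (helper84)
-/

set_option autoImplicit false

open Finset

namespace Pool.Agent.H84.SG

section

variable {n : ℕ} {κ ε th hc : ℝ} {be h : ℕ → ℝ} {D : ℕ → ℕ → ℝ}

/-- `free` at `T`, the kind `k` at `T + 1`, all others full -/
def k2 (T : ℕ) (k : Kd) : ℕ → Kd := fun l => if l = T then .free else if l = T + 1 then k else .full

theorem k2_mlt {T : ℕ} (k : Kd) (hT : 1 ≤ T) : mlt (k2 T k) 1 = 2 := by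
  have h1 : k2 T k 0 = .full := by
    unfold k2
    rw [if_neg (by omega), if_neg (by omega)]
  simp [mlt, h1]

/-- near points `T`, `T + 1` -/
theorem tot2 (hκ : 0 ≤ κ) (hκ1 : κ ≤ 1 / 4) (C : Cst n ε th hc be h D) {T L : ℕ}
    (hTL : T + 2 ≤ L) (hL : L ≤ n + 1) (k : Kd) (hk : k ≠ .full) (h32 : NN D (T + 1) ≤ 3 / 2) (h1' : ∀ l < T, NN D l ≤ 1 / 2 + 4 * κ)
    (h3' : ∀ l, T + 2 ≤ l → l < L → NN D l ≤ 1 / 2 + 4 * κ) :
    AA th hc be h D T + 2 * NN D T + cs (k2 T k) be h D (T + 1) +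
      ∑ l ∈ Ico (T + 2) L, FL be h D l ≤ 2 - ε + 72 * (n + 2) ^ 2 * κ := by
  have hh := tot hκ hκ1 C (T := T) (S := T + 2) (L := L) (by omega) hTL hL (k2 T k)
    (fun l hl => by
      unfold k2
      rw [if_neg (by omega), if_neg (by omega)]) h1'
    (fun l hl hl' => by
      unfold k2
      rcases Nat.eq_or_lt_of_le hl with rfl | h
      · simp
      · have : l = T + 1 := by omega
        rw [this]
        simpa using hk)
    (fun l hl hl' hf => by
      rcases Nat.eq_or_lt_of_le hl with rfl | h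
      · exact absurd (by simp [k2]) hf
      · have : l = T + 1 := by omega
        rw [this]
        exact h32)
    (fun l hl _ => by
      unfold k2
      rw [if_neg (by omega), if_neg (by omega)]) h3'
  have e1 : ∑ l ∈ Ico T (T + 2), cs (k2 T k) be h D l = cs (k2 T k) be h D (T + 1) := by
    rw [sum_Ico_succ_top (by omega), Nat.Ico_succ_singleton, sum_singleton]
    have : k2 T k T = .free := if_pos rfl
    have h0 : cs (k2 T k) be h D T = 0 := by
      unfold cs
      rw [this]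
    rw [h0, zero_add]
  rw [e1] at hh
  exact hh

/-- the loss at the second near point -/
theorem k3_MM (hκ : 0 ≤ κ) (k : Kd) {T : ℕ} (hT : 1 ≤ T)
    (h1 : 1 / 2 ≤ D (T + 2) 1) (ho : ∀ i ≤ T + 1, i ≠ 1 → D (T + 2) i ≤ 1 / 2 + 4 * κ) :
    MM (k2 T k) D (T + 1) ≤ 2 * (D (T + 2) 1 - 1 / 2) + 12 * ((T + 1 : ℕ) + 1) * κ := by
  have := MM_le_one (D := D) (k2 T k) (l := T + 1) (j := 1) (x := D (T + 2) 1 - 1 / 2)
    (y := 4 * κ) (by linarith) (by linarith) (by linarith [(le_refl (D (T + 2) 1))]) ho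
  rw [k2_mlt _ hT] at this
  linarith

theorem k3_32 (hκ : κ ≤ 1 / 4) {T : ℕ} (h1 : D (T + 2) 1 ≤ 1)
    (ho : ∀ i ≤ T + 1, i ≠ 1 → D (T + 2) i ≤ 1 / 2 + 4 * κ) : NN D (T + 1) ≤ 3 / 2 :=
  NN_le fun i hi => by
    by_cases hi1 : i = 1
    · rw [hi1]
      have : D (T + 1 + 1) 1 = D (T + 2) 1 := rfl
      linarith
    · have := ho i hi hi1
      have : D (T + 1 + 1) i = D (T + 2) i := rfl
      linarith

theorem k3_P (hκ : 0 ≤ κ) (hκ1 : κ ≤ 1 / 4) (C : Cst n ε th hc be h D) {T : ℕ} (hT : 1 ≤ T)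
    (hL : T + 1 ≤ n) (h1' : ∀ l < T, NN D l ≤ 1 / 2 + 4 * κ)
    (h1 : 1 / 2 ≤ D (T + 2) 1) (h11 : D (T + 2) 1 ≤ 1)
    (ho : ∀ i ≤ T + 1, i ≠ 1 → D (T + 2) i ≤ 1 / 2 + 4 * κ) :
    AA th hc be h D T + 2 * NN D T + 2 * NN D (T + 2) - 4 * (D (T + 2) 1 - 1 / 2) ≤
      2 - ε + 96 * (((n : ℝ) + 3) ^ 2 * κ) := by
  have hh := tot2 hκ hκ1 C (L := T + 2) le_rfl (by omega) .pos (by decide)
    (k3_32 hκ1 h11 ho) h1' (fun l _ _ => by omega)
  have h2 : cs (k2 T .pos) be h D (T + 1) = 2 * NN D (T + 2) - 2 * MM (k2 T .pos) D (T + 1) := by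
    unfold cs
    have : k2 T .pos (T + 1) = .pos := by simp [k2]
    rw [this]
  have h3 := k3_MM hκ .pos hT h1 ho
  have h4 := num2 (n := n) hκ
  have h5 := num3 (n := n) hκ (l := T + 1) (by omega)
  rw [h2, Ico_self, sum_empty] at hh
  linarith

theorem k3_D (hκ : 0 ≤ κ) (hκ1 : κ ≤ 1 / 4) (C : Cst n ε th hc be h D) {T L : ℕ} (hT : 1 ≤ T)
    (hTL : T + 2 ≤ L) (hL : L ≤ n + 1) (h1' : ∀ l < T, NN D l ≤ 1 / 2 + 4 * κ)
    (h1 : 1 / 2 ≤ D (T + 2) 1) (h11 : D (T + 2) 1 ≤ 1)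
    (ho : ∀ i ≤ T + 1, i ≠ 1 → D (T + 2) i ≤ 1 / 2 + 4 * κ)
    (h3' : ∀ l, T + 2 ≤ l → l < L → NN D l ≤ 1 / 2 + 4 * κ) :
    AA th hc be h D T + 2 * NN D T + 2 * be (T + 1) - 4 * (D (T + 2) 1 - 1 / 2) +
      ∑ l ∈ Ico (T + 2) L, FL be h D l ≤ 2 - ε + 96 * (((n : ℝ) + 3) ^ 2 * κ) := by
  have hh := tot2 hκ hκ1 C hTL hL .der (by decide) (k3_32 hκ1 h11 ho) h1' h3'
  have h2 : cs (k2 T .der) be h D (T + 1) = 2 * be (T + 1) - 2 * MM (k2 T .der) D (T + 1) := by
    unfold cs
    have : k2 T .der (T + 1) = .der := by simp [k2]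
    rw [this]
  have h3 := k3_MM hκ .der hT h1 ho
  have h4 := num2 (n := n) hκ
  have h5 := num3 (n := n) hκ (l := T + 1) (by omega)
  rw [h2] at hh
  linarith

/-- near `c`, then near `v`: the third point is new -/
theorem k3_new (hκ : 0 < κ) (hε : 10000 * (((n : ℝ) + 3) ^ 2 * κ) ≤ ε) (hε1 : ε ≤ 1)
    (C : Cst n ε th hc be h D) (E : Exs n κ th hc be h D) {T : ℕ} (hT : 1 ≤ T)
    (hL : T + 1 ≤ n) (h1' : ∀ l < T, NN D l ≤ 1 / 2 + 4 * κ) (hjN : NN D T = D (T + 1) 0)
    (hx : 1 / 2 + 4 * κ < NN D T) (hm1 : th + κ < NN D T - 1 / 2)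
    (hm2 : hc + κ < NN D T - 1 / 2) (hz : 1 / 2 + 4 * κ < D (T + 2) 1) :
    NN D (T + 2) ≤ 1 / 2 + 4 * κ := by
  have ho := al1_only hκ hε hε1 C E hT (by omega) h1' hjN hx hm1 hm2
  have hκs := num1 (n := n) hκ.le
  have hκ1 := kap1 hκ.le hε hε1
  have h32 := evB1 hκ.le hκ1 hε C E (T := T) (by omega) h1'
  have hB := evB hκ.le hκ1 C (T := T) (by omega) h1'
  have t0 := E.th0
  have t1 := E.hc0
  have t2 := E.be0 0
  have t3 := E.h0 0
  have hA0 := AA_mono E (Nat.zero_le T)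
  rw [AA_zero] at hA0
  rw [hjN] at hm1 hm2
  have g0 := E.lc3 T (by omega) (by rw [← hjN]; exact h32) hm1 hm2
  rw [← hjN] at g0
  have h11 : D (T + 2) 1 ≤ 1 := by linarith
  have hP := k3_P hκ.le hκ1 C hT hL h1' (by linarith) h11 ho
  have hA1 := AA_pt E (T := T) (j := 0) (by omega)
  by_contra hcon
  rw [not_le] at hcon
  obtain ⟨i, hi, hiN⟩ := NN_mem D (T + 2)
  have hlin1 : be 0 + κ < D (T + 2) 1 - 1 / 2 := by linarith
  have hlin2 : h 0 + κ < D (T + 2) 1 - 1 / 2 := by linarith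
  have p0 := E.lg0 0 (T + 1) (by omega) hL h11 hlin1 hlin2
  have p1 := E.lg1 0 (T + 1) (by omega) hL h11 hlin1 hlin2
  have hfar : D (T + 3) 2 < 1 / 2 := by
    have : D (T + 1 + 2) (0 + 2) = D (T + 3) 2 := rfl
    linarith
  have hiN' : 1 / 2 + 4 * κ < D (T + 3) i := by
    have : D (T + 2 + 1) i = D (T + 3) i := rfl
    rw [← this, ← hiN]
    exact hcon
  have key : ∀ a b, a ≤ T → b ≤ T → a ≠ b →
      be 0 + (D (T + 2) 1 - 1 / 2) - h 0 - 4 * κ ≤ D a b → False := by
    intro a b ha hb hab hab'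
    have := AA_one E (T := T) (j := 0) (by omega) ha hb hab
    linarith
  have p0' : be 0 + (D (T + 2) 1 - 1 / 2) - h 0 - κ ≤ D (T + 3) 2 := p0
  have tr : ∀ a ≤ T + 2, a ≠ 2 → 1 / 2 ≤ D (T + 3) a →
      be 0 + (D (T + 2) 1 - 1 / 2) - h 0 - 2 * κ ≤ D a 2 := by
    intro a ha haj hD
    have h1 := E.tri a (T + 3) 2 (by omega) (by omega) (by omega) haj
    have h2 : be 0 + (D (T + 2) 1 - 1 / 2) - h 0 - κ ≤ min (D a (T + 3)) (D (T + 3) 2) := by
      refine le_min ?_ p0'
      rw [E.sym a (T + 3)]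
      linarith
    linarith
  -- the index can be taken among the old points
  obtain ⟨i', hi', hD⟩ : ∃ i' ≤ T, 1 / 2 + 3 * κ ≤ D (T + 3) i' := by
    by_cases hiT : i ≤ T
    · exact ⟨i, hiT, by linarith⟩
    · by_cases hi1 : i = T + 1
      · subst hi1
        refine ⟨0, Nat.zero_le T, ?_⟩
        have h1 := E.tri (T + 3) (T + 1) 0 (by omega) (by omega) (by omega) (by omega)
        have h2 : 1 / 2 + 4 * κ < min (D (T + 3) (T + 1)) (D (T + 1) 0) := by
          refine lt_min hiN' ?_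
          rw [← hjN]
          exact hx
        linarith
      · have hi2 : i = T + 2 := by omega
        subst hi2
        refine ⟨1, hT, ?_⟩
        have h1 := E.tri (T + 3) (T + 2) 1 (by omega) (by omega) (by omega) (by omega)
        have h2 : 1 / 2 + 4 * κ < min (D (T + 3) (T + 2)) (D (T + 2) 1) := lt_min hiN' hz
        linarith
  have hi2 : i' ≠ 2 := by
    rintro rfl
    linarith
  by_cases hT2 : 2 ≤ T
  · exact key i' 2 hi' hT2 hi2 (by linarith [tr i' (by omega) hi2 (by linarith)])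
  · have hT1 : T = 1 := by omega
    subst hT1
    have hD20 : D 2 0 = NN D 1 := hjN.symm
    by_cases hi0 : i' = 0
    · subst hi0
      have h1 := E.tri 4 0 2 (by omega) (by omega) (by omega) (by omega)
      have h2 : 1 / 2 + 3 * κ ≤ min (D 4 0) (D 0 2) := by
        refine le_min hD ?_
        rw [E.sym 0 2, hD20]
        linarith
      have h3 : D (1 + 3) 2 = D 4 2 := rfl
      linarith
    · have hi1 : i' = 1 := by omega
      subst hi1
      have h1 := tr 1 (by omega) (by omega) (by linarith)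
      have h2 := E.tri 1 2 0 (by omega) (by omega) (by omega) (by omega)
      have h3 : be 0 + (D (1 + 2) 1 - 1 / 2) - h 0 - 2 * κ ≤ min (D 1 2) (D 2 0) := by
        refine le_min h1 ?_
        rw [hD20]
        linarith
      exact key 1 0 le_rfl (by omega) (by omega) (by linarith)

theorem be_split (T L : ℕ) (h1 : T < L) : ∑ l ∈ range L, be l = ∑ l ∈ range T, be l + be T +
    ∑ l ∈ Ico (T + 1) L, be l := by
  rw [← sum_range_succ, range_eq_Ico, range_eq_Ico, sum_Ico_consecutive _ (Nat.zero_le _) h1]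

theorem be_mono (E : Exs n κ th hc be h D) {L T : ℕ} (h1 : L ≤ T) :
    ∑ l ∈ range L, be l ≤ ∑ l ∈ range T, be l :=
  sum_le_sum_of_subset_of_nonneg (range_subset_range.2 h1) fun l _ _ => E.be0 l

theorem last_le (E : Exs n κ th hc be h D) {T L : ℕ} (h1 : T < L) :
    be (L - 1) ≤ be T ∨ be (L - 1) ≤ ∑ l ∈ Ico (T + 1) L, be l := by
  rcases Nat.lt_or_ge T (L - 1) with h2 | h2
  · right
    exact single_le_sum (f := fun l => be l) (fun l _ => E.be0 l) (mem_Ico.2 ⟨by omega, by omega⟩)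
  · left
    have : L - 1 = T := by omega
    rw [this]

/-- **the growth if the first near point is `y_T`, `1 ≤ T ≤ n`** -/
theorem grow1 (hκ : 0 < κ) (hε : 10000 * (((n : ℝ) + 3) ^ 2 * κ) ≤ ε) (hε1 : ε ≤ 1)
    (C : Cst n ε th hc be h D) (E : Exs n κ th hc be h D) {T : ℕ} (hT : 1 ≤ T) (hTn : T ≤ n)
    (h1' : ∀ l < T, NN D l ≤ 1 / 2 + 4 * κ) (hx : 1 / 2 + 4 * κ < NN D T) :
    ∀ L, 1 ≤ L → L ≤ n + 1 → ∑ l ∈ range L, be l ≤ (L : ℝ) / 2 - ε / 4 ∧
      ∑ l ∈ range L, be l ≤ 2 ∧ be (L - 1) ≤ 1 - ε / 4 := by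
  intro L hL1 hLn
  have hκs := num1 (n := n) hκ.le
  have hκ1 := kap1 hκ.le hε hε1
  have h32 := evB1 hκ.le hκ1 hε C E (T := T) (by omega) h1'
  have hB := evB hκ.le hκ1 C (T := T) (by omega) h1'
  have hAb := AA_be E T
  have hs1 : 0 ≤ ∑ l ∈ range T, be l := sum_nonneg fun l _ => E.be0 l
  have t0 := E.th0
  have t1 := E.hc0
  have hL1' : (1 : ℝ) ≤ L := by exact_mod_cast hL1
  have hε0 : 0 < ε := by
    have : 0 < κ := hκ
    linarith
  have e72 := num2 (n := n) hκ.le
  have hεs : 72 * ((n : ℝ) + 2) ^ 2 * κ ≤ ε := by linarith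
  by_cases hLT : L ≤ T
  · have := be_mono E (L := L) (T := T) hLT
    have hl : be (L - 1) ≤ ∑ l ∈ range L, be l :=
      single_le_sum (f := fun l => be l) (fun l _ => E.be0 l) (mem_range.2 (by omega))
    refine ⟨?_, ?_, ?_⟩ <;> linarith
  rw [not_le] at hLT
  have hL2 : (2 : ℝ) ≤ L := by
    have : 2 ≤ L := by omega
    exact_mod_cast this
  obtain ⟨j, hj, hjN⟩ := NN_mem D T
  have hsp := be_split (be := be) T L hLT
  have hFb := FL_be E (T + 1) L
  have hlast := last_le E hLT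
  have hbT := E.be0 T
  have hIT : 0 ≤ ∑ l ∈ Ico (T + 1) L, be l := sum_nonneg fun l _ => E.be0 l
  by_cases hj0 : j = 0
  · subst hj0
    by_cases hm : th + κ < NN D T - 1 / 2 ∧ hc + κ < NN D T - 1 / 2
    · -- quadratic zone
      obtain ⟨hm1, hm2⟩ := hm
      have ho := al1_only hκ hε hε1 C E hT hTn h1' hjN hx hm1 hm2
      have hm1' := hm1
      have hm2' := hm2
      rw [hjN] at hm1' hm2'
      have gb := E.lc1 T hTn (by rw [← hjN]; exact h32) hm1' hm2'
      rw [← hjN] at gb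
      by_cases hz : D (T + 2) 1 ≤ 1 / 2 + 4 * κ
      · have hnew : NN D (T + 1) ≤ 1 / 2 + 4 * κ := NN_le fun i hi => by
          by_cases hi1 : i = 1
          · rw [hi1]
            exact hz
          · exact ho i hi hi1
        have haft := aft hκ.le hκ1 C E hεs (T := T) (S := T + 1) (by omega) h1' hx hnew
        have hF := totf hκ.le hκ1 C (T := T) (S := T + 1) (L := L) (by omega) hLT hLn h1'
          (fun l h1 h2 => haft l h1 (by omega))
        refine ⟨?_, ?_, ?_⟩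
        · linarith
        · linarith
        · rcases hlast with hl | hl <;> linarith
      · rw [not_le] at hz
        by_cases hL3 : L = T + 1
        · subst hL3
          rw [Ico_self, sum_empty] at hsp
          have hl1 : be (T + 1 - 1) = be T := rfl
          rw [hl1]
          refine ⟨?_, ?_, ?_⟩ <;> linarith
        · have hT1n : T + 1 ≤ n := by omega
          have hnew := k3_new hκ hε hε1 C E hT hT1n h1' hjN hx hm1 hm2 hz
          have haft := aft hκ.le hκ1 C E hεs (T := T) (S := T + 2) (by omega) h1' hx hnew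
          have g3 := E.lc3 T hTn (by rw [← hjN]; exact h32) hm1' hm2'
          rw [← hjN] at g3
          have h11 : D (T + 2) 1 ≤ 1 := by linarith
          have hD := k3_D hκ.le hκ1 C (T := T) (L := L) hT (by omega) hLn h1' (by linarith) h11 ho
            (fun l h1 h2 => haft l h1 (by omega))
          have hFb2 := FL_be E (T + 2) L
          have hsp2 : ∑ l ∈ Ico (T + 1) L, be l = be (T + 1) + ∑ l ∈ Ico (T + 2) L, be l :=
            sum_eq_sum_Ico_succ_bot (by omega) _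
          have hL3' : (3 : ℝ) ≤ L := by
            have : 3 ≤ L := by omega
            exact_mod_cast this
          refine ⟨?_, ?_, ?_⟩
          · linarith
          · linarith
          · rcases hlast with hl | hl <;> linarith
    · -- outside the quadratic zone
      have hm' : NN D T - 1 / 2 ≤ max th hc + 4 * κ := by
        by_cases h1 : th + κ < NN D T - 1 / 2
        · have h2 : ¬ hc + κ < NN D T - 1 / 2 := fun h2 => hm ⟨h1, h2⟩
          have := le_max_right th hc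
          linarith
        · have := le_max_left th hc
          linarith
      have hnew := al2_new hκ hε hε1 C E hTn h1' hjN hx hm'
      have haft := aft hκ.le hκ1 C E hεs (T := T) (S := T + 1) (by omega) h1' hx hnew
      have hD := evD hκ.le hκ1 C E hLT hLn h1' (Nat.zero_le T) hjN (by linarith) h32
        (fun l h1 h2 => haft l (by omega) (by omega))
      have hm3 : mlt (k1 T .der) 0 = 3 := rfl
      rw [hm3] at hD
      have hmax : max th hc ≤ th + hc := max_le (by linarith) (by linarith)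
      refine ⟨?_, ?_, ?_⟩
      · linarith
      · linarith
      · rcases hlast with hl | hl <;> linarith
  · have hnew := bet_new hκ hε hε1 C E hTn h1' hj hj0 hjN hx
    have haft := aft hκ.le hκ1 C E hεs (T := T) (S := T + 1) (by omega) h1' hx hnew
    have hD := evD hκ.le hκ1 C E hLT hLn h1' hj hjN (by linarith) h32
      (fun l h1 h2 => haft l (by omega) (by omega))
    rw [k1_mlt _ hj hj0] at hD
    refine ⟨?_, ?_, ?_⟩
    · linarith
    · linarith
    · rcases hlast with hl | hl <;> linarith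

end

end Pool.Agent.H84.SG
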