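import Pool.Agent.H84.SG.NTwo

/-!
# SHARP SMOOTHED FATOU: the growth if the critical value is near `c` (helper84)

`x_j = D (j+1) 0 - 1/2`. As long as `th, hc < x_j` (quadratic zone) `u_j = 1/2 - th + hc - x_j` doubles: `u_(j+1) ≥ 2 u_j - 2 κ`. Let
`k` be the first index with `x_k ≤ max th hc + 4 κ`. At `k` the derivative event (gives the bound of `be k`) and the position event
(the next point is new) have multiplicity `3 + k`.
-/

set_option autoImplicit false

open Finset

namespace Pool.Agent.H84.SG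

section

variable {n : ℕ} {κ ε th hc : ℝ} {be h : ℕ → ℝ} {D : ℕ → ℕ → ℝ}

/-- free before `k`, kind `K` at `k`, full after -/
def kz (k : ℕ) (K : Kd) : ℕ → Kd := fun l => if l < k then .free else if l = k then K else .full

theorem kz_MM (k : ℕ) (K : Kd) {w : ℝ} (hw : 0 ≤ w) (h1 : ∀ i ≤ k, D (k + 1) i ≤ 1 / 2 + w) :
    MM (kz k K) D k ≤ (3 + k) * w := by
  have h2 : ∀ i ∈ range (k + 1), mlt (kz k K) i * max 0 (D (k + 1) i - 1 / 2) ≤
      (if i = 0 then 3 else 1) * w := by
    intro i hi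
    have hi' : i ≤ k := Nat.lt_succ_iff.1 (mem_range.1 hi)
    have h3 : max 0 (D (k + 1) i - 1 / 2) ≤ w := max_le hw (by linarith [h1 i hi'])
    have h4 : mlt (kz k K) i = (if i = 0 then 3 else 1) := by
      cases i with
      | zero => rfl
      | succ i =>
        have h5 : kz k K i = .free := by
          unfold kz
          rw [if_pos (by omega)]
        simp [mlt, h5]
    rw [h4]
    refine mul_le_mul_of_nonneg_left h3 ?_
    split_ifs <;> norm_num
  unfold MM
  refine (sum_le_sum h2).trans ?_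
  rw [sum_range_succ']
  simp only [if_pos, Nat.add_eq_zero_iff, one_ne_zero, and_false, if_false, one_mul]
  rw [sum_const, card_range, nsmul_eq_mul]
  linarith

theorem tot0 (hκ : 0 ≤ κ) (hκ1 : κ ≤ 1 / 4) (C : Cst n ε th hc be h D) {k L : ℕ}
    (hkL : k + 1 ≤ L) (hL : L ≤ n + 1) (K : Kd) (hK : K ≠ .full) (h32 : NN D k ≤ 3 / 2)
    (h3' : ∀ l, k + 1 ≤ l → l < L → NN D l ≤ 1 / 2 + 4 * κ) :
    4 * th + 4 * hc + 2 * NN D 0 + cs (kz k K) be h D k +
      ∑ l ∈ Ico (k + 1) L, FL be h D l ≤ 2 - ε + 72 * (n + 2) ^ 2 * κ := by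
  have hh := tot hκ hκ1 C (T := 0) (S := k + 1) (L := L) (by omega) hkL hL (kz k K)
    (fun l hl => by omega) (fun l hl => by omega)
    (fun l hl hl' => by
      unfold kz
      by_cases h : l < k
      · rw [if_pos h]
        decide
      · rw [if_neg h, if_pos (by omega)]
        exact hK)
    (fun l hl hl' hf => by
      by_cases h : l < k
      · exact absurd (by unfold kz; rw [if_pos h]) hf
      · have : l = k := by omega
        rw [this]
        exact h32)
    (fun l hl _ => by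
      unfold kz
      rw [if_neg (by omega), if_neg (by omega)]) h3'
  have e1 : ∑ l ∈ Ico 0 (k + 1), cs (kz k K) be h D l = cs (kz k K) be h D k := by
    rw [sum_Ico_succ_top (by omega)]
    have h0 : ∑ l ∈ Ico 0 k, cs (kz k K) be h D l = 0 := by
      refine sum_eq_zero fun l hl => ?_
      rw [mem_Ico] at hl
      have h1 : kz k K l = .free := by
        unfold kz
        rw [if_pos hl.2]
      unfold cs
      rw [h1]
    rw [h0, zero_add]
  rw [e1, AA_zero] at hh
  exact hh

theorem kz_self (k : ℕ) (K : Kd) : kz k K k = K := by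
  unfold kz
  rw [if_neg (by omega), if_pos rfl]

/-- the run in the quadratic zone -/
theorem run (hκ : 0 < κ) (hε : 10000 * (((n : ℝ) + 3) ^ 2 * κ) ≤ ε)
    (E : Exs n κ th hc be h D) (hB : 4 * th + 4 * hc + 2 * NN D 0 ≤
      2 - ε + 72 * (((n : ℝ) + 3) ^ 2 * κ)) :
    ∀ k ≤ n + 1, (∀ j < k, th + 4 * κ < D (j + 1) 0 - 1 / 2 ∧ hc + 4 * κ < D (j + 1) 0 - 1 / 2) →
      (∀ j ≤ k, D (k + 1) 0 ≤ D (j + 1) 0) ∧
      (∀ j < k, D (k + 1) (j + 1) ≤ D (k + 1) 0 + κ) ∧
      ∀ j < k, D (j + 2) 0 ≤ th + 2 * (D (j + 1) 0 - 1 / 2) - hc + 2 * κ ∧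
        D (j + 2) 0 ≤ D (j + 1) 0 - ε / 4 := by
  have hκs := num1 (n := n) hκ.le
  have t0 := E.th0
  have t1 := E.hc0
  have hN0 : NN D 0 = D 1 0 := by
    obtain ⟨i, hi, h1⟩ := NN_mem D 0
    have : i = 0 := by omega
    rw [h1, this]
  rw [hN0] at hB
  intro k
  induction k with
  | zero =>
    intro _ _
    refine ⟨fun j hj => ?_, fun j hj => by omega, fun j hj => by omega⟩
    have : j = 0 := by omega
    rw [this]
  | succ k ih =>
    intro hk hR
    obtain ⟨h1, h2, h3⟩ := ih (by omega) (fun j hj => hR j (by omega))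
    obtain ⟨r1, r2⟩ := hR k (by omega)
    have h10 := h1 0 (Nat.zero_le k)
    have hD1 : D (k + 1) 0 ≤ 1 := by linarith
    have c2 := E.lc2 k (by omega) hD1 (by linarith) (by linarith)
    have c3 := E.lc3 k (by omega) hD1 (by linarith) (by linarith)
    have e1 := E.tri (k + 2) 0 1 (by omega) (by omega) (by omega) (by omega)
    have hlt : th + 2 * (D (k + 1) 0 - 1 / 2) - hc + 2 * κ < D 1 0 := by
      have : D (0 + 1) 0 = D 1 0 := rfl
      linarith
    have u1 : D (k + 2) 0 ≤ th + 2 * (D (k + 1) 0 - 1 / 2) - hc + 2 * κ := by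
      rw [E.sym 0 1] at e1
      rcases min_le_iff.1 e1 with h | h
      · linarith
      · linarith
    have u2 : D (k + 2) 0 ≤ D (k + 1) 0 - ε / 4 := by
      have : D (0 + 1) 0 = D 1 0 := rfl
      linarith
    refine ⟨fun j hj => ?_, fun j hj => ?_, fun j hj => ?_⟩
    · rcases Nat.lt_or_ge j (k + 1) with h | h
      · have := h1 j (by omega)
        have : D (k + 1 + 1) 0 = D (k + 2) 0 := rfl
        linarith
      · have : j = k + 1 := by omega
        rw [this]
    · have h4 := h1 j (by omega)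
      have e2 := E.tri (k + 2) (j + 1) 0 (by omega) (by omega) (by omega) (by omega)
      rcases min_le_iff.1 e2 with h | h
      · exact h
      · exfalso
        linarith
    · rcases Nat.lt_or_ge j k with h | h
      · exact h3 j h
      · have : j = k := by omega
        rw [this]
        exact ⟨u1, u2⟩

/-- the numbers `u_j` double -/
theorem run_u {X : ℕ → ℝ} {k : ℕ}
    (h : ∀ j < k, X (j + 1) ≤ th + 2 * X j - hc - 1 / 2 + 2 * κ) :
    (2 : ℝ) ^ k * (1 / 2 - th + hc - X 0 - 2 * κ) ≤ 1 / 2 - th + hc - X k - 2 * κ := by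
  induction k with
  | zero => simp
  | succ k ih =>
    have h1 := ih fun j hj => h j (by omega)
    have h2 := h k (by omega)
    rw [pow_succ]
    nlinarith

/-- the two numerical inequalities at the end of the run -/
theorem run_num {s x0 xk y : ℝ} {k : ℕ} (hk : 1 ≤ k) (hκ : 0 < κ) (hκs : κ ≤ s)
    (hks : ((k : ℝ) + 1) * κ ≤ s) (hε : 10000 * s ≤ ε) (hth : 0 ≤ th) (hhc : 0 ≤ hc)
    (hx0 : 0 ≤ x0) (hy : 0 ≤ y) (hyk : y = 0 ∨ y ≤ xk) (hm : y ≤ th + 4 * κ ∨ y ≤ hc + 4 * κ)
    (hB : 4 * th + 4 * hc + 1 + 2 * x0 ≤ 2 - ε + 72 * s)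
    (hH : (2 : ℝ) ^ k * (1 / 2 - th + hc - x0 - 2 * κ) ≤ 1 / 2 - th + hc - xk - 2 * κ) :
    (3 + (k : ℝ)) * y ≤ 1 / 2 + 20 * s ∧
      2 * ((3 + (k : ℝ)) * y) ≤ 4 * th + 4 * hc + 2 * x0 + ε / 2 := by
  have hs : 0 < s := by linarith
  rcases hyk with rfl | hyk
  · rw [mul_zero]
    constructor <;> linarith
  have hv : th + 3 * hc + ε / 4 ≤ 1 / 2 - th + hc - x0 - 2 * κ := by linarith
  rcases Nat.lt_or_ge k 3 with h3 | h3
  · have h12 : k = 1 ∨ k = 2 := by omega
    rcases h12 with rfl | rfl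
    · norm_num at hH hks ⊢
      rcases hm with hm | hm
      · constructor <;> linarith
      · constructor <;> linarith
    · norm_num at hH hks ⊢
      rcases hm with hm | hm
      · constructor <;> linarith
      · constructor <;> linarith
  · -- `k ≥ 3`
    have hp : 2 * (k : ℝ) + 2 ≤ (2 : ℝ) ^ k := by
      have : ∀ m : ℕ, 3 ≤ m → 2 * m + 2 ≤ 2 ^ m := by
        intro m hm
        induction m, hm using Nat.le_induction with
        | base => norm_num
        | succ m hm ih =>
          rw [pow_succ]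
          omega
      have := this k h3
      exact_mod_cast this
    have hk3 : (3 : ℝ) ≤ k := by exact_mod_cast h3
    have hp8 : (8 : ℝ) ≤ (2 : ℝ) ^ k := by linarith
    set P : ℝ := (2 : ℝ) ^ k with hP
    have hPth : P * th + 3 * (P * hc) ≤ P * (1 / 2 - th + hc - x0 - 2 * κ) := by
      have h1 : th + 3 * hc ≤ 1 / 2 - th + hc - x0 - 2 * κ := by linarith
      have h2 := mul_le_mul_of_nonneg_left h1 (by linarith : (0 : ℝ) ≤ P)
      linarith
    have hP1 : 8 * hc ≤ P * hc := mul_le_mul_of_nonneg_right hp8 hhc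
    have hP2 : 8 * th ≤ P * th := mul_le_mul_of_nonneg_right hp8 hth
    -- `y + P (y - 4 κ) ≤ 1/2`
    have hyP : y + P * (y - 4 * κ) ≤ 1 / 2 := by
      rcases hm with hm | hm
      · have h1 := mul_le_mul_of_nonneg_left (by linarith : y - 4 * κ ≤ th)
          (by linarith : (0 : ℝ) ≤ P)
        linarith
      · have h1 := mul_le_mul_of_nonneg_left (by linarith : y - 4 * κ ≤ hc)
          (by linarith : (0 : ℝ) ≤ P)
        linarith
    have hA : (3 + (k : ℝ)) * y ≤ 1 / 3 + 12 * s := by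
      have h4 : (3 + (k : ℝ)) * (4 * κ) ≤ 12 * s := by nlinarith
      rcases le_total y (4 * κ) with h5 | h5
      · have := mul_le_mul_of_nonneg_left h5 (by linarith : (0 : ℝ) ≤ 3 + k)
        linarith
      · have h6 : (2 * (k : ℝ) + 3) * (y - 4 * κ) ≤ 1 / 2 := by
          have := mul_le_mul_of_nonneg_right hp (by linarith : (0 : ℝ) ≤ y - 4 * κ)
          nlinarith
        have h7 : (3 + (k : ℝ)) * (y - 4 * κ) ≤ 1 / 3 := by
          have h8 : (3 + (k : ℝ)) ≤ 2 / 3 * (2 * k + 3) := by linarith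
          have := mul_le_mul_of_nonneg_right h8 (by linarith : (0 : ℝ) ≤ y - 4 * κ)
          nlinarith
        nlinarith
    refine ⟨by linarith, ?_⟩
    have h9 : 8 * (1 / 2 - th + hc - x0 - 2 * κ) ≤ P * (1 / 2 - th + hc - x0 - 2 * κ) :=
      mul_le_mul_of_nonneg_right hp8 (by linarith)
    linarith

end

end Pool.Agent.H84.SG
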