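import Pool.Agent.H73.SG.Cd
import Pool.Agent.H84.SG.Exp
import Pool.Agent.H84.SG.NBas

/-!
# SHARP SMOOTHED FATOU: from helper73's patterns to `Cst` (helper84)
-/

set_option autoImplicit false

open Finset

namespace Pool.Agent.H84.SG

open Pool.H70.SF Pool.Agent.H73.ES
open Pool.Agent.H73.SG (PatK CdK bdK stE ML mu)

/-- the kinds of helper73 -/
def kk : Kd → Pool.Agent.H73.SG.Kd
  | .full => .full
  | .free => .free
  | .der => .der
  | .pos => .pos

section

variable {d : ℕ}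

/-- exponent of the distance to the earlier points at the time `l` -/
noncomputable def bP (D : ℕ → ℕ → ℝ) (kd : ℕ → Kd) : ℕ → ℝ
  | 0 => NN D 0
  | l + 1 =>
    match kd l with
    | .full => NN D (l + 1)
    | .free => 0
    | .der => 0
    | .pos => NN D (l + 1)

/-- the pattern of a critical orbit for a choice of kinds -/
noncomputable def pat (X : CV d) (c : ℂ × ℂ) (kd : ℕ → Kd) : PatK where
  th := thE X c
  hc := hcE X c
  be := beE X c
  h := hE X c
  b := bP (DE X c) kd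
  bb := fun l i => DE X c (l + 1) i
  kd := fun l => kk (kd l)

theorem bP_cases (D : ℕ → ℕ → ℝ) (kd : ℕ → Kd) (l : ℕ) : bP D kd l = 0 ∨ bP D kd l = NN D l := by
  cases l with
  | zero => exact Or.inr rfl
  | succ l =>
    unfold bP
    cases hk : kd l <;> simp [hk]

theorem DE_nonneg (X : CV d) (c : ℂ × ℂ) (a b : ℕ) : 0 ≤ DE X c a b := cl_nonneg (by norm_num)

theorem DE_le (X : CV d) (c : ℂ × ℂ) (a b : ℕ) : DE X c a b ≤ 2 := cl_le _

theorem pat_ok (X : CV d) (c : ℂ × ℂ) (kd : ℕ → Kd) : (pat X c kd).ok where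
  th0 := ⟨cl_nonneg (by norm_num), cl_le _⟩
  hc0 := ⟨cl_nonneg (by norm_num), cl_le _⟩
  be0 := fun l => ⟨cl_nonneg (by norm_num), cl_le _⟩
  h0 := fun l => ⟨cl_nonneg (by norm_num), cl_le _⟩
  b0 := fun l => by
    show 0 ≤ bP (DE X c) kd l ∧ bP (DE X c) kd l ≤ 2
    rcases bP_cases (DE X c) kd l with h | h
    · rw [h]
      norm_num
    · rw [h]
      exact ⟨(DE_nonneg X c _ _).trans (le_NN (Nat.zero_le l)), NN_le fun i _ => DE_le X c _ _⟩
  bb0 := fun l i => ⟨DE_nonneg X c _ _, DE_le X c _ _⟩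

theorem mu_pat (X : CV d) (c : ℂ × ℂ) (kd : ℕ → Kd) (i : ℕ) : (mu (pat X c kd) i : ℝ) = mlt kd i := by
  cases i with
  | zero => simp [mu, mlt]
  | succ i =>
    have h1 : (pat X c kd).kd i = kk (kd i) := rfl
    cases hk : kd i <;> simp [mu, mlt, h1, hk, kk, Pool.Agent.H73.SG.Kd.mul]

theorem ML_pat (X : CV d) (c : ℂ × ℂ) (kd : ℕ → Kd) (l : ℕ) :
    ML (pat X c kd) l = MM kd (DE X c) l := by
  unfold ML MM
  refine sum_congr rfl fun i _ => ?_
  rw [mu_pat]
  rfl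

theorem stE_pat (X : CV d) (c : ℂ × ℂ) (kd : ℕ → Kd) (l : ℕ) :
    stE (pat X c kd) l = -cst kd (beE X c) (hE X c) (DE X c) l := by
  have h1 : (pat X c kd).kd l = kk (kd l) := rfl
  have h2 : (pat X c kd).b (l + 1) = bP (DE X c) kd (l + 1) := rfl
  have h3 : (pat X c kd).h l = hE X c l := rfl
  have h4 : (pat X c kd).be l = beE X c l := rfl
  unfold stE cst
  rw [h1, h2, ML_pat, h3, h4]
  cases hk : kd l <;> simp only [kk, bP, hk] <;> ring

theorem bdK_pat (X : CV d) (c : ℂ × ℂ) (kd : ℕ → Kd) (T : ℕ) :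
    bdK (pat X c kd) T = 1 - (4 * thE X c + 4 * hcE X c + 2 * NN (DE X c) 0 +
      ∑ l ∈ range T, cst kd (beE X c) (hE X c) (DE X c) l) := by
  have h1 : bdK (pat X c kd) T = 1 - 4 * thE X c - 4 * hcE X c - 2 * NN (DE X c) 0 +
      ∑ l ∈ range T, stE (pat X c kd) l := rfl
  rw [h1, sum_congr rfl fun l _ => stE_pat X c kd l, sum_neg_distrib]
  ring

theorem V_alt (hd : 2 ≤ d) {V P : ℝ} (hP : 0 < P) (hV : 0 ≤ V) :
    cl d 1 (V / P) = 0 ∨ V ≤ (d : ℝ) ^ (-cl d 1 (V / P)) * P := by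
  rcases (cl_nonneg (d := d) (x := V / P) (zero_le_one)).eq_or_lt with h | h
  · exact Or.inl h.symm
  · right
    have h1 := cl_up hd (div_nonneg hV hP.le) h
    rw [div_le_iff₀ hP] at h1
    exact h1

theorem x_alt (hd : 2 ≤ d) {m x : ℝ} (hm : 0 ≤ m) (hx : 0 ≤ x) :
    cl d m x = 0 ∨ x ≤ (d : ℝ) ^ (-cl d m x) := by
  rcases (cl_nonneg (d := d) (x := x) hm).eq_or_lt with h | h
  · exact Or.inl h.symm
  · exact Or.inr (cl_up hd hx h)

theorem cdK_of (hd : 2 ≤ d) {X : CV d} (hpos : ∀ u, IsU u → 0 < nn (FF X u)) {c : ℂ × ℂ}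
    (hc : IsU c) (kd : ℕ → Kd) (T : ℕ)
    (h : ∀ l < T, kd l ≠ .free → NN (DE X c) l ≤ 3 / 2) : CdK X c (pat X c kd) T := by
  have hd0 : (0 : ℝ) < d := by
    have := d_one hd
    linarith
  have hs : 0 < Real.sqrt d := Real.sqrt_pos.2 hd0
  have hU := pt_unit hpos hc
  refine ⟨?_, ?_, ?_, ?_, ?_, ?_⟩
  · have hP : 0 < (d : ℝ) * nn (FF X c) := mul_pos hd0 (hpos c hc)
    rcases V_alt hd hP (by positivity : 0 ≤ 2 * ‖wd (FF X c) (jv X c 2)‖) with h1 | h1
    · exact Or.inl h1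
    · right
      refine h1.trans (le_of_eq ?_)
      show (d : ℝ) ^ (-thE X c) * (d * nn (FF X c)) = (d : ℝ) ^ (1 - thE X c) * nn (FF X c)
      rw [← mul_assoc]
      congr 1
      nth_rewrite 2 [← Real.rpow_one (d : ℝ)]
      rw [rp_add hd]
      congr 1
      ring
  · exact x_alt hd (by norm_num) (nn0 _)
  · intro l _ _
    have hP : 0 < Real.sqrt d * nn (FF X (ob X c l)) := mul_pos hs (hpos _ (hU (l + 1)))
    rcases V_alt hd hP (norm_nonneg (wd (FF X (ob X c l)) (jv X (ob X c l) 1))) with h1 | h1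
    · exact Or.inl h1
    · right
      refine h1.trans (le_of_eq ?_)
      show (d : ℝ) ^ (-beE X c l) * (Real.sqrt d * nn (FF X (ob X c l))) =
        (d : ℝ) ^ (1 / 2 - beE X c l) * nn (FF X (ob X c l))
      rw [← mul_assoc]
      congr 1
      rw [sqrt_rp, rp_add hd]
      congr 1
      ring
  · intro l _ _
    exact x_alt hd (by norm_num) (nn0 _)
  · intro l hl hk i hi
    have hk' : kd l ≠ .free := by
      intro h1
      apply hk
      show kk (kd l) = _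
      rw [h1]
      rfl
    have h1 := h l hl hk'
    have h2 : DE X c (l + 1) i ≤ NN (DE X c) l := le_NN hi
    exact cl_lo hd (norm_nonneg _) (show DE X c (l + 1) i < 2 by linarith)
  · intro l _
    show bP (DE X c) kd l = 0 ∨ ∃ i ≤ l, ‖wd (ob X c l) (pt X c i)‖ ≤ (d : ℝ) ^ (-bP (DE X c) kd l)
    rcases bP_cases (DE X c) kd l with h1 | h1
    · exact Or.inl h1
    · rw [h1]
      obtain ⟨i, hi, h2⟩ := NN_mem (DE X c) l
      rw [h2]
      rcases x_alt hd (m := 2) (by norm_num) (norm_nonneg (wd (pt X c (l + 1)) (pt X c i))) with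
        h3 | h3
      · exact Or.inl h3
      · exact Or.inr ⟨i, hi, h3⟩

theorem cst_of (hd : 2 ≤ d) {X : CV d} (hpos : ∀ u, IsU u → 0 < nn (FF X u)) {c : ℂ × ℂ}
    (hc : IsU c) {n : ℕ} {ε : ℝ}
    (hX : ∀ p : PatK, p.ok → ∀ T ≤ n + 1, CdK X c p T → -1 + ε / 2 ≤ bdK p T) :
    Cst n (ε / 2) (thE X c) (hcE X c) (beE X c) (hE X c) (DE X c) := by
  intro T hT kd h
  have h1 := hX (pat X c kd) (pat_ok X c kd) T hT (cdK_of hd hpos hc kd T h)
  rw [bdK_pat] at h1
  linarith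

end

end Pool.Agent.H84.SG
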